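import Pool.Agent.Mg.Xd232b3.G778f32

section

set_option autoImplicit false

open Complex MeasureTheory
open scoped Real ComplexConjugate

namespace Pool.Agent.MP_d232b3_nt.Z

lemma lg_conj (v : ℝ) : lg (-v) = lg v := by simp [lg]

lemma log_ge_one {t : ℝ} (ht : 3 ≤ t) : 1 ≤ Real.log t := by
  rw [Real.le_log_iff_exp_le (by linarith)]
  linarith [Real.exp_one_lt_d9]

theorem conjS (hRH : RiemannHypothesis) (hS : ShiftStmt) : ConjStmt := by
  intro η hη hη8
  obtain ⟨C, hC0, hC⟩ := bd hRH η hη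
  refine ⟨40 * (5 * C + 1) / η ^ 4, by positivity, fun σ t X δ hσ' hσ2 ht hδ hδη => ?_⟩
  have hσ : 1 / 2 < σ := by linarith
  obtain ⟨C', hC'0, hC'⟩ := bd hRH δ hδ
  set β : ℝ := 1 / 2 + δ with hβ
  set L := Real.log t with hL
  have hL1 : 1 ≤ L := log_ge_one ht
  let H : ℂ → ℂ := fun w => conj (DD (2 * β - conj w) + L)
  have hre : ∀ w : ℂ, (2 * (β : ℂ) - conj w).re = 2 * β - w.re := fun w => by simp
  have him : ∀ w : ℂ, (2 * (β : ℂ) - conj w).im = w.im := fun w => by simp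
  have hH : ∀ w : ℂ, w.re ≤ β → DifferentiableAt ℂ H w := fun w hw => by
    have h1 : DifferentiableAt ℂ (fun z => DD (2 * β - z) + L) (conj w) :=
      (DifferentiableAt.comp (g := DD) (f := fun z : ℂ => 2 * β - z) _
        (diff_DD hRH (by rw [hre]; linarith)) (by fun_prop)).add_const _
    have h2 := h1.conj_conj
    rw [conj_conj] at h2
    exact h2
  have hn : ∀ w : ℂ, ‖H w‖ ≤ ‖DD (2 * β - conj w)‖ + L := fun w => by
    simp only [H, RCLike.norm_conj]
    refine (norm_add_le _ _).trans ?_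
    rw [norm_real, Real.norm_of_nonneg (by linarith)]
  have e1 : VI (fun w => conj (DD w + (L : ℝ)) * KK σ t X w) β = VI (fun w => H w * KK σ t X w) β := by
    unfold VI
    refine integral_congr_ae (Filter.Eventually.of_forall fun v => ?_)
    have : 2 * (β : ℂ) - conj ((β : ℂ) + v * I) = β + v * I := by
      apply Complex.ext <;> simp
      ring
    simp only [H, this]
  have hl := one_le_lg t
  have e2 := hS (fun w => H w * KK σ t X w) (β - η) β
    (12 * (C' * (lg t + 4) + L) / η ^ 4 * Real.exp (3 * |X|) * (2 * (1 + t ^ 2))) (by linarith)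
    (fun w h1 h2 => (hH w h2).mul (diff_KK (by linarith) (by linarith) (by linarith)))
    fun w h1 h2 => by
      have a1 := hC' (2 * β - conj w) (by rw [hre]; linarith) (by rw [hre]; linarith)
      rw [him] at a1
      have a2 : ‖H w‖ ≤ (C' * (lg t + 4) + L) * (1 + (w.im - t) ^ 2) := by
        have := mul_le_mul_of_nonneg_left (lg_le_shift t w.im) hC'0
        nlinarith [hn w, sq_nonneg (w.im - t)]
      refine (norm_mul_KK_le hσ hσ2 hη (by linarith) (by rw [abs_of_nonpos] <;> linarith)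
        (by rw [abs_of_nonneg] <;> linarith) (by rw [abs_of_nonneg] <;> linarith) a2).trans ?_
      refine le_trans ?_ (decay_of_shift (by positivity))
      have : X * (w.re - σ) ≤ 3 * |X| := by
        have b1 : |w.re - σ| ≤ 3 := abs_le.2 ⟨by linarith, by linarith⟩
        calc X * (w.re - σ) ≤ |X| * |w.re - σ| := by rw [← abs_mul]; exact le_abs_self _
          _ ≤ |X| * 3 := by gcongr
          _ = _ := by ring
      gcongr
  rw [e1, ← e2]
  refine (line H σ t X (β - η) η ((5 * C + 1) * L) hσ hσ2 hη (by linarith)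
    (by rw [abs_of_nonpos] <;> linarith) (by rw [abs_of_nonneg] <;> linarith)
    (by rw [abs_of_nonneg] <;> linarith) fun v => ?_).trans (le_of_eq (by ring))
  have a1 := hC (2 * β - conj (((β - η : ℝ) : ℂ) + v * I)) (by rw [hre]; simp; linarith)
    (by rw [hre]; simp; linarith)
  have e3 : (((β - η : ℝ) : ℂ) + v * I).im = v := by simp
  rw [him, e3] at a1
  have a2 := lg_le_log ht v
  have a3 := lg_le (v - t)
  have a4 : lg v ≤ 5 * L * (1 + (v - t) ^ 2) := by nlinarith [sq_nonneg (v - t)]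
  have a5 := mul_le_mul_of_nonneg_left a4 hC0
  nlinarith [hn (((β - η : ℝ) : ℂ) + v * I), sq_nonneg (v - t)]

/-- the analytic continuation of the weight -/
noncomputable def kt (a : ℝ) (z : ℂ) : ℂ :=
  1 / (((z + ((1 / 2 : ℝ) : ℂ)) * (z + ((-(1 / 2) : ℝ) : ℂ))) * ((z + a) * (z + ((-a : ℝ) : ℂ))))

lemma kt_I (a u : ℝ) : kt a (u * I) = (kap a u : ℝ) := by
  unfold kt kap
  push_cast
  congr 1
  have : I ^ 2 = -1 := I_sq
  linear_combination (u ^ 2 * (u ^ 2 * (I ^ 2 - 1) - a ^ 2 - 1 / 4)) * this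

lemma prod_ge {z : ℂ} {c μ : ℝ} (hμ : 0 < μ) (h1 : μ ≤ |z.re + c|) (h2 : μ ≤ |z.re + -c|) :
    μ ^ 2 + z.im ^ 2 ≤ ‖(z + c) * (z + ((-c : ℝ) : ℂ))‖ := by
  have e1 := sq_le_normSq_add hμ.le h1
  have e2 := sq_le_normSq_add hμ.le h2
  refine le_of_sq_le_sq ?_ (by positivity)
  rw [norm_mul, mul_pow, sq]
  exact mul_le_mul e1 e2 (by positivity) (by positivity)

lemma norm_kt_le {a η : ℝ} {z : ℂ} (hη : 0 < η) (hη8 : η ≤ 1 / 8) (ha : 2 * η ≤ a)
    (h0 : 0 ≤ z.re) (h1 : z.re ≤ η) : ‖kt a z‖ ≤ 1 / η ^ 4 / (1 + z.im ^ 2) ^ 2 := by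
  have p1 := prod_ge (z := z) (c := 1 / 2) hη (by rw [abs_of_nonneg] <;> linarith)
    (by rw [abs_of_nonpos] <;> linarith)
  have p2 := prod_ge (z := z) (c := a) hη (by rw [abs_of_nonneg] <;> linarith)
    (by rw [abs_of_nonpos] <;> linarith)
  have h3 := inv_sq_le (u := z.im) hη (by linarith)
  have h4 : ‖kt a z‖ ≤ 1 / (η ^ 2 + z.im ^ 2) ^ 2 := by
    unfold kt
    rw [norm_div, norm_one, norm_mul, sq (η ^ 2 + z.im ^ 2)]
    exact one_div_le_one_div_of_le (by positivity) (mul_le_mul p1 p2 (by positivity) (by positivity))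
  calc ‖kt a z‖ ≤ 12 / (η ^ 2 + z.im ^ 2) ^ 2 / 12 := h4.trans (le_of_eq (by ring))
    _ ≤ 12 / η ^ 4 / (1 + z.im ^ 2) ^ 2 / 12 := by gcongr
    _ = _ := by ring

lemma diff_kt {a η : ℝ} {z : ℂ} (hη : 0 < η) (hη8 : η ≤ 1 / 8) (ha : 2 * η ≤ a)
    (h0 : 0 ≤ z.re) (h1 : z.re ≤ η) : DifferentiableAt ℂ (kt a) z := by
  unfold kt
  refine DifferentiableAt.div (by fun_prop) (by fun_prop) ?_
  exact mul_ne_zero (mul_ne_zero (ne_zero_of_re (by linarith)) (ne_zero_of_re (by linarith)))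
    (mul_ne_zero (ne_zero_of_re (by linarith)) (ne_zero_of_re (by linarith)))

theorem pois (hRH : RiemannHypothesis) (hS : ShiftStmt) (hW : WeakStmt) : PoisStmt := by
  intro η ε hη hη8 hε
  obtain ⟨C, hC0, hC⟩ := hW η (ε * η ^ 4 / 4) hη (by positivity)
  refine ⟨(ε * η ^ 4 + C) / η ^ 4 * 4, by positivity, fun a t β ha ht hβ hβ1 => ?_⟩
  obtain ⟨C', hC'0, hC'⟩ := bd hRH (β - 1 / 2) (by linarith)
  let f : ℂ → ℂ := fun z => DD (z + (β + t * I)) * kt a z
  have hre : ∀ z : ℂ, (z + (β + t * I)).re = z.re + β := fun z => by simp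
  have him : ∀ z : ℂ, (z + (β + t * I)).im = t + z.im := fun z => by simp [add_comm]
  have hd : ∀ z : ℂ, 0 ≤ z.re → z.re ≤ η → DifferentiableAt ℂ f z := fun z h0 h1 =>
    (DifferentiableAt.comp (g := DD) (f := fun z : ℂ => z + (β + t * I)) z
      (diff_DD hRH (by rw [hre]; linarith)) (by fun_prop)).mul (diff_kt hη hη8 ha h0 h1)
  have key : ∀ (z : ℂ) (A : ℝ), 0 ≤ z.re → z.re ≤ η →
      ‖DD (z + (β + t * I))‖ ≤ A * (1 + z.im ^ 2) → ‖f z‖ ≤ A / η ^ 4 / (1 + z.im ^ 2) :=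
    fun z A h0 h1 hA => by
      simp only [f]
      rw [norm_mul]
      refine (mul_le_mul hA (norm_kt_le hη hη8 ha h0 h1) (norm_nonneg _)
        ((norm_nonneg _).trans hA)).trans (le_of_eq ?_)
      field_simp
  have hb : ∀ z : ℂ, 0 ≤ z.re → z.re ≤ η → ‖f z‖ ≤ C' * (lg t + 4) / η ^ 4 / (1 + z.im ^ 2) :=
    fun z h0 h1 => key z _ h0 h1 (by
      refine (hC' _ (by rw [hre]; linarith) (by rw [hre]; linarith)).trans ?_
      rw [him, mul_assoc]
      simpa using mul_le_mul_of_nonneg_left (lg_le_shift t (t + z.im)) hC'0)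
  have e0 : ∀ u : ℝ, (DD ((β : ℂ) + ((t + u : ℝ) : ℂ) * I)).re * kap a u =
      (f ((0 : ℝ) + u * I)).re := fun u => by
    have e : ((0 : ℝ) : ℂ) + u * I + (β + t * I) = β + ((t + u : ℝ) : ℂ) * I := by
      push_cast
      ring
    simp only [f]
    rw [e, ofReal_zero, zero_add, kt_I, re_mul_ofReal]
  have hi : Integrable fun u : ℝ => f ((0 : ℝ) + u * I) :=
    integrable_line (fun v => hd _ (by simp) (by simpa using hη.le))
      fun v => by simpa using hb ((0 : ℝ) + v * I) (by simp) (by simpa using hη.le)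
  simp only [e0]
  refine ⟨hi.re, ?_⟩
  have e1 : ∫ u : ℝ, (f ((0 : ℝ) + u * I)).re = (VI f 0).re := by
    simpa [VI] using integral_re hi
  rw [e1, hS f 0 η _ hη.le hd hb]
  refine (re_le_norm _).trans ?_
  have hL1 := log_ge_one ht
  have hbη : ∀ v : ℝ, ‖f (η + v * I)‖ ≤
      (ε * η ^ 4 / 4 * Real.log t + ε * η ^ 4 + C) / η ^ 4 * (1 + v ^ 2)⁻¹ := fun v => by
    have := key (η + v * I) (ε * η ^ 4 / 4 * Real.log t + ε * η ^ 4 + C) (by simpa using hη.le)
      (by simp) (by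
        refine (hC _ (by rw [hre]; simp; linarith) (by rw [hre]; simp; linarith)).trans ?_
        have e : ((η : ℂ) + v * I).im = v := by simp
        rw [him, e]
        have a1 := lg_le_log ht (t + v)
        rw [add_sub_cancel_left] at a1
        have a2 := lg_le v
        have a3 : 0 < ε * η ^ 4 / 4 := by positivity
        have a4 := mul_le_mul_of_nonneg_left (a1.trans (add_le_add_right a2 _)) a3.le
        nlinarith [mul_nonneg hC0 (sq_nonneg v), mul_nonneg (mul_nonneg a3.le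
          (zero_le_one.trans hL1)) (sq_nonneg v)])
    simpa [div_eq_mul_inv] using this
  refine (norm_integral_le_of_norm_le (integrable_inv_one_add_sq.const_mul _)
    (Filter.Eventually.of_forall hbη)).trans ?_
  rw [integral_const_mul, integral_univ_inv_one_add_sq]
  calc _ ≤ (ε * η ^ 4 / 4 * Real.log t + ε * η ^ 4 + C) / η ^ 4 * 4 := by
        gcongr
        exact Real.pi_le_four
    _ = _ := by
        field_simp
        ring

lemma norm_kk_fine {σ δ u : ℝ} (hσ : 1 / 2 < σ) (hδ : 0 < δ) (ha : 0 < σ - 1 / 2 - δ) :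
    ‖kk σ (((1 / 2 + δ - σ : ℝ) : ℂ) + u * I)‖ ≤ (2 * σ - 1) * σ ^ 2 * kap (σ - 1 / 2 - δ) u := by
  set z : ℂ := ((1 / 2 + δ - σ : ℝ) : ℂ) + u * I
  have hre : z.re = 1 / 2 + δ - σ := by simp [z]
  have him : z.im = u := by simp [z]
  have e0 := sq_le_normSq_add (z := z) (c := 0) ha.le
    (by rw [hre, abs_of_nonpos] <;> linarith)
  have e1 := sq_le_normSq_add (z := z) (c := 2 * σ - 1) ha.le
    (by rw [hre, abs_of_nonneg] <;> linarith)
  have e2 := sq_le_normSq_add (z := z) (c := σ) (μ := 1 / 2) (by norm_num)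
    (by rw [hre, abs_of_nonneg] <;> linarith)
  simp only [ofReal_zero, add_zero] at e0
  rw [him] at e0 e1 e2
  have hp : 0 < (σ - 1 / 2 - δ) ^ 2 + u ^ 2 := by positivity
  have e3 : (σ - 1 / 2 - δ) ^ 2 + u ^ 2 ≤ ‖z + ((2 * σ - 1 : ℝ) : ℂ)‖ * ‖z‖ := by
    refine le_of_sq_le_sq ?_ (by positivity)
    rw [mul_pow, sq]
    exact mul_le_mul e1 e0 hp.le (by positivity)
  have hc : 0 ≤ (2 * σ - 1) * σ ^ 2 := by nlinarith [sq_nonneg σ]
  unfold kk k1 kap
  rw [div_div, norm_div, norm_mul, norm_mul, norm_pow, norm_real, Real.norm_of_nonneg hc,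
    mul_assoc (‖z + σ‖ ^ 2), mul_one_div]
  refine div_le_div_of_nonneg_left hc (by positivity) ?_
  exact mul_le_mul (by linarith) e3 hp.le (by positivity)

lemma kap_le {a η u : ℝ} (hη : 0 < η) (hη8 : η ≤ 1 / 8) (ha : 2 * η ≤ a) :
    kap a u ≤ 1 / η ^ 4 / (1 + u ^ 2) ^ 2 := by
  have h := norm_kt_le (z := u * I) hη hη8 ha (by simp) (by simpa using hη.le)
  rw [kt_I, norm_real] at h
  simpa using (le_abs_self _).trans h

lemma kap_nonneg (a u : ℝ) : 0 ≤ kap a u := by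
  unfold kap
  positivity

/-- the real part on a line close to the critical line -/
lemma re_part (hP : PosStmt) (hK : KapStmt) (hQ : PoisStmt) {η ε : ℝ} (hη : 0 < η)
    (hη8 : η ≤ 1 / 8) (hε : 0 < ε) : ∃ C : ℝ, 0 ≤ C ∧ ∀ σ t X δ : ℝ, 1 / 2 + 4 * η ≤ σ → σ ≤ 2 →
    3 ≤ t → 0 < δ → δ ≤ η → δ ≠ σ - 1 →
    ‖VI (fun w => (((DD w).re + Real.log t / 2 : ℝ) : ℂ) * KK σ t X w) (1 / 2 + δ)‖ ≤
      (2 * σ - 1) * σ ^ 2 * Real.exp (X * (1 / 2 + δ - σ)) *
        (Real.log t * π / ((σ - 1 / 2 - δ) * (σ - δ)) + ε * Real.log t + C) := by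
  obtain ⟨C₁, hC₁0, hC₁⟩ := hP
  obtain ⟨C₂, hC₂0, hC₂⟩ := hQ η ε hη hη8 hε
  refine ⟨C₂ + (4 + 2 * C₁) / η ^ 4 * π, by positivity, fun σ t X δ hσ' hσ2 ht hδ hδη hδ1 => ?_⟩
  have hσ : 1 / 2 < σ := by linarith
  set a := σ - 1 / 2 - δ with ha
  set β := 1 / 2 + δ with hβ
  set L := Real.log t
  obtain ⟨k1i, k1v⟩ := hK a (by linarith) fun h => hδ1 (by linarith)
  obtain ⟨p1, p2⟩ := hC₂ a t β (by linarith) ht (by linarith) (by linarith)
  have hc : 0 ≤ (2 * σ - 1) * σ ^ 2 := by nlinarith [sq_nonneg σ]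
  unfold VI
  rw [← integral_add_left_eq_self _ t]
  let g : ℝ → ℝ := fun u => (DD ((β : ℂ) + ((t + u : ℝ) : ℂ) * I)).re * kap a u +
    L / 2 * kap a u + (4 + 2 * C₁) / η ^ 4 * (1 + u ^ 2)⁻¹
  have gi : Integrable g := (p1.add (k1i.const_mul _)).add (integrable_inv_one_add_sq.const_mul _)
  refine (norm_integral_le_of_norm_le (gi.const_mul ((2 * σ - 1) * σ ^ 2 * Real.exp (X * (β - σ))))
    (Filter.Eventually.of_forall fun u => ?_)).trans ?_
  · set w : ℂ := (β : ℂ) + ((t + u : ℝ) : ℂ) * I with hw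
    have hre : w.re = β := by simp [hw]
    have him : w.im = t + u := by simp [hw]
    have e : w - (σ + t * I) = ((1 / 2 + δ - σ : ℝ) : ℂ) + u * I := by
      apply Complex.ext <;> simp [hw, hβ]
    have b1 := hC₁ w (by linarith) (by linarith)
    have b2 := lg_le_log ht (t + u)
    rw [add_sub_cancel_left] at b2
    rw [him] at b1
    have b3 := lg_le u
    have b4 : |(DD w).re + L / 2| ≤ (DD w).re + L / 2 + (4 + 2 * C₁) * (1 + u ^ 2) := by
      rw [abs_le]
      constructor <;> nlinarith [sq_nonneg u, mul_nonneg hC₁0 (sq_nonneg u)]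
    have b5 : (4 + 2 * C₁) * (1 + u ^ 2) * kap a u ≤ (4 + 2 * C₁) / η ^ 4 * (1 + u ^ 2)⁻¹ := by
      refine (mul_le_mul_of_nonneg_left (kap_le hη hη8 (by linarith)) (by positivity)).trans
        (le_of_eq ?_)
      field_simp
    have b6 : |(DD w).re + L / 2| * kap a u ≤ g u := by
      have := mul_le_mul_of_nonneg_right b4 (kap_nonneg a u)
      simp only [g]
      nlinarith
    rw [norm_mul, norm_KK, norm_real, Real.norm_eq_abs, e, hre]
    calc _ ≤ |(DD w).re + L / 2| * ((2 * σ - 1) * σ ^ 2 * kap a u * Real.exp (X * (β - σ))) := by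
          gcongr
          exact norm_kk_fine hσ hδ (by linarith)
      _ = (2 * σ - 1) * σ ^ 2 * Real.exp (X * (β - σ)) * (|(DD w).re + L / 2| * kap a u) := by ring
      _ ≤ _ := by gcongr
  · rw [integral_const_mul]
    refine mul_le_mul_of_nonneg_left ?_ (by positivity)
    simp only [g]
    have p3 : Integrable fun u : ℝ => (DD ((β : ℂ) + ((t + u : ℝ) : ℂ) * I)).re * kap a u +
      L / 2 * kap a u := p1.add (k1i.const_mul _)
    rw [integral_add p3 (integrable_inv_one_add_sq.const_mul _),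
      integral_add p1 (k1i.const_mul _), integral_const_mul, integral_const_mul, k1v,
      integral_univ_inv_one_add_sq, show a + 1 / 2 = σ - δ by linarith]
    have : L / 2 * (2 * π / (a * (σ - δ))) = L * π / (a * (σ - δ)) := by ring
    linarith

lemma tendsto_loglog : Filter.Tendsto (fun t : ℝ => Real.log (Real.log t)) Filter.atTop
    Filter.atTop := Real.tendsto_log_atTop.comp Real.tendsto_log_atTop

lemma ev_exp_le {c C ε : ℝ} (hc : 0 < c) (hε : 0 < ε) : ∀ᶠ t : ℝ in Filter.atTop,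
    C * Real.exp (2 * Real.log (Real.log t) * (-c)) ≤ ε := by
  have h1 : Filter.Tendsto (fun t : ℝ => C * Real.exp (2 * Real.log (Real.log t) * (-c)))
      Filter.atTop (nhds (C * 0)) :=
    (Real.tendsto_exp_atBot.comp ((tendsto_loglog.const_mul_atTop two_pos).atTop_mul_const_of_neg
      (by linarith))).const_mul _
  rw [mul_zero] at h1
  exact h1.eventually (ge_mem_nhds hε)

theorem fine (hRH : RiemannHypothesis) (hP : PosStmt) (hK : KapStmt) (hQ : PoisStmt)
    (hJ : ConjStmt) : FineStmt := by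
  intro η ε hη hη8 hε
  obtain ⟨C₁, hC₁0, hC₁⟩ := re_part hP hK hQ hη hη8 (show 0 < ε / 24 by positivity)
  obtain ⟨C₂, hC₂0, hC₂⟩ := hJ η hη hη8
  obtain ⟨T, hT⟩ := Filter.eventually_atTop.1 ((ev_exp_le (C := C₂) hη hε).and
    (Real.tendsto_log_atTop.eventually_ge_atTop (24 * C₁ / ε)))
  refine ⟨max T 3, le_max_right _ _, fun t σ δ ht hσ' hσ2 hδ hδη hδ1 => ?_⟩
  have ht3 : 3 ≤ t := (le_max_right _ _).trans ht
  obtain ⟨t1, t2⟩ := hT t ((le_max_left _ _).trans ht)
  have hσ : 1 / 2 < σ := by linarith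
  set X := 2 * Real.log (Real.log t)
  set L := Real.log t
  have hL1 : 1 ≤ L := log_ge_one ht3
  have r1 := hC₁ σ t X δ hσ' hσ2 ht3 hδ hδη hδ1
  have r2 := hC₂ σ t X δ hσ' hσ2 ht3 hδ hδη
  obtain ⟨C', hC'0, hC'⟩ := bd hRH δ hδ
  have a0 : η ≤ |1 / 2 + δ - σ| := by rw [abs_of_nonpos] <;> linarith
  have a1 : η ≤ |1 / 2 + δ + σ - 1| := by rw [abs_of_nonneg] <;> linarith
  have a2 : η ≤ |1 / 2 + δ| := by rw [abs_of_nonneg] <;> linarith
  have hc := cont_DD hRH (β := 1 / 2 + δ) (by linarith)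
  have hb : ∀ v : ℝ, ‖DD (((1 / 2 + δ : ℝ) : ℂ) + v * I)‖ + L ≤
      (C' * (lg t + 4) + L) * (1 + (v - t) ^ 2) := fun v => by
    have h1 := hC' (((1 / 2 + δ : ℝ) : ℂ) + v * I) (by simp) (by simp; linarith)
    have e : (((1 / 2 + δ : ℝ) : ℂ) + v * I).im = v := by simp
    rw [e] at h1
    have := mul_le_mul_of_nonneg_left (lg_le_shift t v) hC'0
    nlinarith [sq_nonneg (v - t)]
  have i1 := integrable_mul_KK (f := fun w => (((DD w).re + L / 2 : ℝ) : ℂ)) (t := t) (X := X)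
    hσ hσ2 hη (by linarith) a0 a1 a2
    (continuous_ofReal.comp ((continuous_re.comp hc).add continuous_const)) fun v => by
      refine le_trans ?_ (hb v)
      rw [norm_real, Real.norm_eq_abs]
      refine (abs_add_le _ _).trans (add_le_add (abs_re_le_norm _) ?_)
      rw [abs_of_nonneg] <;> linarith
  have i2 := integrable_mul_KK (f := fun w => conj (DD w + (L : ℝ))) (t := t) (X := X)
    hσ hσ2 hη (by linarith) a0 a1 a2
    (continuous_conj.comp (hc.add continuous_const)) fun v => by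
      refine le_trans ?_ (hb v)
      rw [RCLike.norm_conj]
      refine (norm_add_le _ _).trans ?_
      rw [norm_real, Real.norm_of_nonneg (by linarith)]
  have e : VI (fun w => DD w * KK σ t X w) (1 / 2 + δ) =
      2 * VI (fun w => (((DD w).re + L / 2 : ℝ) : ℂ) * KK σ t X w) (1 / 2 + δ) -
        VI (fun w => conj (DD w + (L : ℝ)) * KK σ t X w) (1 / 2 + δ) := by
    unfold VI
    rw [← integral_const_mul, ← integral_sub (i1.const_mul 2) i2]
    refine integral_congr_ae (Filter.Eventually.of_forall fun v => ?_)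
    simp only
    rw [← mul_assoc, ← sub_mul]
    congr 1
    apply Complex.ext <;> simp
    ring
  rw [e]
  refine (norm_sub_le _ _).trans ?_
  rw [norm_mul, norm_ofNat]
  have e2 : Real.exp (X * (1 / 2 + δ - η - σ)) =
      Real.exp (X * (-η)) * Real.exp (X * (1 / 2 + δ - σ)) := by
    rw [← Real.exp_add]
    ring_nf
  rw [e2] at r2
  set E := Real.exp (X * (1 / 2 + δ - σ))
  have hE : 0 < E := Real.exp_pos _
  have hc0 : 0 ≤ (2 * σ - 1) * σ ^ 2 := by nlinarith [sq_nonneg σ]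
  have hc12 : (2 * σ - 1) * σ ^ 2 ≤ 12 := by nlinarith
  have t3 : 24 * C₁ ≤ ε * L := by
    rw [div_le_iff₀ hε] at t2
    linarith
  have r3 : C₂ * L * (Real.exp (X * (-η)) * E) ≤ E * (ε * L) := by
    calc _ = C₂ * Real.exp (X * (-η)) * (L * E) := by ring
      _ ≤ ε * (L * E) := by gcongr
      _ = _ := by ring
  have r4 : (2 * σ - 1) * σ ^ 2 * E * (ε / 24 * L + C₁) ≤ 12 * E * (ε * L / 12) := by
    gcongr
    linarith
  have r5 : E * (ε * L) * 3 ≤ 2 * π * (E * (ε * L)) := by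
    have : 0 ≤ E * (ε * L) := by positivity
    nlinarith [Real.pi_gt_three]
  have e3 : 2 * π * E * L * ((2 * σ - 1) * σ ^ 2 / ((σ - 1 / 2 - δ) * (σ - δ)) + ε) =
      2 * ((2 * σ - 1) * σ ^ 2 * E * (L * π / ((σ - 1 / 2 - δ) * (σ - δ)))) +
        2 * π * (E * (ε * L)) := by ring
  rw [e3]
  nlinarith

end Pool.Agent.MP_d232b3_nt.Z

end

section

set_option autoImplicit false

open Complex MeasureTheory Filter Topology
open scoped Real ComplexConjugate

namespace Pool.Agent.MP_d232b3_nt.Z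

lemma ev_pow_le {C ε : ℝ} (hε : 0 < ε) : ∀ᶠ t : ℝ in atTop,
    C * Real.exp (4 * (2 * Real.log (Real.log t))) / t ≤ ε := by
  have h0 : Tendsto (fun t : ℝ => Real.log t ^ 8 / (1 * t + 0)) atTop (𝓝 0) :=
    Real.tendsto_pow_log_div_mul_add_atTop 1 0 8 one_ne_zero
  have h1 := h0.const_mul C
  rw [mul_zero] at h1
  filter_upwards [h1.eventually (ge_mem_nhds hε), eventually_ge_atTop 3] with t h ht
  have hL := log_ge_one ht
  rw [show 4 * (2 * Real.log (Real.log t)) = (8 : ℕ) * Real.log (Real.log t) by push_cast; ring,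
    Real.exp_nat_mul, Real.exp_log (by linarith)]
  simpa [mul_div_assoc] using h

/-- the limit of the bound on lines approaching the critical line -/
lemma lim_fine {σ X L ε y η : ℝ} (hσ : 1 / 2 < σ) (hσ1 : σ ≠ 1) (hη : 0 < η)
    (h : ∀ δ : ℝ, 0 < δ → δ ≤ η → δ ≠ σ - 1 → y ≤ 2 * π * Real.exp (X * (1 / 2 + δ - σ)) * L *
      ((2 * σ - 1) * σ ^ 2 / ((σ - 1 / 2 - δ) * (σ - δ)) + ε)) :
    y ≤ 2 * π * Real.exp (X * (1 / 2 - σ)) * L * (2 * σ + ε) := by
  have hc : ContinuousAt (fun δ : ℝ => 2 * π * Real.exp (X * (1 / 2 + δ - σ)) * L *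
      ((2 * σ - 1) * σ ^ 2 / ((σ - 1 / 2 - δ) * (σ - δ)) + ε)) 0 := by
    refine ContinuousAt.mul (by fun_prop) (ContinuousAt.add ?_ continuousAt_const)
    refine ContinuousAt.div continuousAt_const (by fun_prop) ?_
    simp only [sub_zero]
    exact mul_ne_zero (by linarith) (by linarith)
  have hl := hc.tendsto.mono_left (nhdsWithin_le_nhds (s := Set.Ioi 0))
  have e : (2 * σ - 1) * σ ^ 2 / ((σ - 1 / 2 - 0) * (σ - 0)) = 2 * σ := by
    rw [div_eq_iff (mul_ne_zero (by linarith) (by linarith))]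
    ring
  simp only [e, add_zero] at hl
  refine ge_of_tendsto hl ?_
  filter_upwards [self_mem_nhdsWithin, nhdsWithin_le_nhds (Iic_mem_nhds hη),
    nhdsWithin_le_nhds (isOpen_ne.mem_nhds (show (0 : ℝ) ≠ σ - 1 from
      fun h0 => hσ1 (by linarith)))] with δ h1 h2 h3 using h δ h1 h2 h3

theorem uS (hRH : RiemannHypothesis) (hI : IdStmt) (hD : DirStmt) (h0 : Q0Stmt) (hF : FineStmt) :
    UStmt := by
  intro σ₀ ε hσ₀ hε
  set η := min ((σ₀ - 1 / 2) / 4) (1 / 8) with hηd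
  have hη : 0 < η := lt_min (by linarith) (by norm_num)
  have hη1 : η ≤ (σ₀ - 1 / 2) / 4 := min_le_left _ _
  have hη8 : η ≤ 1 / 8 := min_le_right _ _
  have hε' : 0 < ε / 3 := by positivity
  obtain ⟨C₀, hC₀0, hC₀⟩ := h0 η hη hη8
  obtain ⟨C₁, hC₁0, hC₁⟩ := q1
  obtain ⟨C₂, hC₂0, hC₂⟩ := bd hRH η hη
  obtain ⟨T₀, hT₀3, hT₀⟩ := hF η (ε / 3) hη hη8 hε'
  have hl0 := one_le_lg 0
  obtain ⟨T, hT⟩ := eventually_atTop.1
    ((ev_exp_le (C := C₀ + 40 * (C₂ * (lg 0 + 4)) / η ^ 4) (show (0 : ℝ) < 3 / 8 by norm_num)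
      hε').and ((ev_pow_le (C := C₁) hε').and (ev_pow_le (C := 1) hε')))
  refine ⟨max T T₀, hT₀3.trans (le_max_right _ _), fun t σ ht hσ' hσ2 hσ1 => ?_⟩
  have htT : T₀ ≤ t := (le_max_right _ _).trans ht
  have ht3 : 3 ≤ t := hT₀3.trans htT
  obtain ⟨t1, t2, t3⟩ := hT t ((le_max_left _ _).trans ht)
  have hσ : 1 / 2 < σ := by linarith
  have hL1 := log_ge_one ht3
  have hF' := fun δ => hT₀ t σ δ htT (by linarith) hσ2
  set L := Real.log t
  set X := 2 * Real.log L with hX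
  have hX0 : 0 ≤ X := by have := Real.log_nonneg hL1; linarith
  have eE : L ^ (2 - 2 * σ) = Real.exp (X * (1 - σ)) := by
    rw [Real.rpow_def_of_pos (by linarith)]
    congr 1
    ring
  rw [eE]
  set E := Real.exp (X * (1 - σ)) with hE
  have hE0 : 0 < E := Real.exp_pos _
  have eL : Real.exp (X * (1 / 2 - σ)) * L = E := by
    rw [hE, ← Real.exp_log (show 0 < L by linarith), ← Real.exp_add]
    congr 1
    ring
  -- the small terms
  have s1 : ∀ c : ℝ, 0 ≤ c → c * Real.exp (4 * X) / t ≤ ε / 3 →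
      c * Real.exp (3 * X) / t ≤ ε / 3 * E := fun c hc h => by
    have b : Real.exp (3 * X) ≤ Real.exp (4 * X) * E := by
      rw [hE, ← Real.exp_add]
      exact Real.exp_le_exp.2 (by nlinarith)
    calc c * Real.exp (3 * X) / t ≤ c * (Real.exp (4 * X) * E) / t := by gcongr
      _ = c * Real.exp (4 * X) / t * E := by ring
      _ ≤ _ := by gcongr
  have s2 : ‖VI (fun w => 1 / (w - 1) * KK σ t X w) 3‖ ≤ ε / 3 * E :=
    (hC₁ σ t X hσ hσ2 (by linarith) hX0).trans (s1 _ hC₁0 t2)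
  have s3 : ‖1 / ((σ : ℂ) + t * I - 1)‖ ≤ ε / 3 * E := by
    refine le_trans ?_ (s1 1 zero_le_one t3)
    rw [norm_div, norm_one]
    have b : t ≤ ‖(σ : ℂ) + t * I - 1‖ := le_trans (by simp) (im_le_norm _)
    refine div_le_div₀ (by positivity) ?_ (by linarith) b
    simpa using hX0
  -- the sum at height zero
  have i0 := hI σ 0 X (1 / 2 + η) (by linarith) (by linarith) hσ2
  have q := hC₀ σ X (by linarith) hσ2 hσ1
  have l0 := line DD σ 0 X (1 / 2 + η) η (C₂ * (lg 0 + 4)) hσ hσ2 hη (by linarith)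
    (by rw [abs_of_nonpos] <;> linarith) (by rw [abs_of_nonneg] <;> linarith)
    (by rw [abs_of_nonneg] <;> linarith) fun v => by
      refine (hC₂ _ (by simp) (by simp; linarith)).trans ?_
      have e : (((1 / 2 + η : ℝ) : ℂ) + v * I).im = v := by simp
      rw [e, mul_assoc]
      exact mul_le_mul_of_nonneg_left (lg_le_shift 0 v) hC₂0
  have s4 : (C₀ + 40 * (C₂ * (lg 0 + 4)) / η ^ 4) * Real.exp (X * (1 / 2 + η - σ)) ≤
      ε / 3 * E := by
    have b : Real.exp (X * (1 / 2 + η - σ)) ≤ Real.exp (X * (-(3 / 8))) * E := by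
      rw [hE, ← Real.exp_add]
      exact Real.exp_le_exp.2 (by nlinarith)
    calc _ ≤ (C₀ + 40 * (C₂ * (lg 0 + 4)) / η ^ 4) * (Real.exp (X * (-(3 / 8))) * E) := by gcongr
      _ = (C₀ + 40 * (C₂ * (lg 0 + 4)) / η ^ 4) * Real.exp (X * (-(3 / 8))) * E := by ring
      _ ≤ _ := by gcongr
  have a0 : (VI (fun w => LL w * KK σ 0 X w) 3).re ≤
      2 * π * (((2 * σ - 1) * σ * E - 1) / (1 - σ)) - 2 * π * (DD σ).re + ε / 3 * E := by
    have r := congrArg Complex.re i0
    have r1 := (re_le_norm _).trans q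
    have r2 := (neg_le_abs _).trans ((abs_re_le_norm _).trans l0)
    rw [sub_re, ofReal_re] at r1
    simp only [ofReal_zero, zero_mul, add_zero, mul_re, re_ofNat, ofReal_re, im_ofNat, ofReal_im,
      mul_zero, sub_zero, mul_im, sub_re, add_re, neg_re] at r
    linarith
  -- the identity at height `t`
  have key : ‖2 * π * DD (σ + t * I)‖ - (VI (fun w => LL w * KK σ 0 X w) 3).re - ε / 3 * E ≤
      2 * π * Real.exp (X * (1 / 2 - σ)) * L * (2 * σ + ε / 3) := by
    refine lim_fine hσ hσ1 hη fun δ hδ hδη hδ1 => le_trans ?_ (hF' δ hδ hδη hδ1)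
    rw [hI σ t X (1 / 2 + δ) (by linarith) (by linarith) hσ2]
    have b1 := norm_sub_le (-VI (fun w => LL w * KK σ t X w) 3 +
      VI (fun w => 1 / (w - 1) * KK σ t X w) 3) (VI (fun w => DD w * KK σ t X w) (1 / 2 + δ))
    have b2 := norm_add_le (-VI (fun w => LL w * KK σ t X w) 3)
      (VI (fun w => 1 / (w - 1) * KK σ t X w) 3)
    rw [norm_neg] at b2
    linarith [hD σ t X hσ hσ2]
  rw [mul_assoc (2 * π), eL, norm_mul, norm_mul, norm_real, Real.norm_of_nonneg Real.pi_pos.le,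
    norm_ofNat] at key
  have hs1 : (σ : ℂ) + t * I ≠ 1 := fun h => by
    have := congrArg Complex.im h
    simp at this
    linarith
  have e1 : logDeriv riemannZeta (σ + t * I) = DD (σ + t * I) - 1 / (σ + t * I - 1) := by
    rw [DD_eq hRH (by simpa using hσ) hs1]
    ring
  have e2 : (σ * E - 1) / (1 - σ) = ((2 * σ - 1) * σ * E - 1) / (1 - σ) + 2 * σ * E := by
    have : 1 - σ ≠ 0 := sub_ne_zero.2 hσ1.symm
    field_simp
    ring
  have b3 : ‖DD (σ + t * I)‖ ≤ ((2 * σ - 1) * σ * E - 1) / (1 - σ) + 2 * σ * E - (DD σ).re +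
      2 * (ε / 3 * E) := by
    refine le_of_mul_le_mul_left ?_ (show 0 < 2 * π by positivity)
    have : 0 < ε / 3 * E := by positivity
    nlinarith [Real.pi_gt_three]
  rw [e1, e2]
  linarith [norm_sub_le (DD (σ + t * I)) (1 / (σ + t * I - 1))]

end Pool.Agent.MP_d232b3_nt.Z

end

section

set_option autoImplicit false

open Complex

namespace Pool.Agent.MP_d232b3_nt.Z

theorem id_all (hRH : RiemannHypothesis) : IdStmt := idS hRH (res shift)

theorem pois_all (hRH : RiemannHypothesis) : PoisStmt := pois hRH shift (weak hRH (id_all hRH))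

theorem pos_all (hRH : RiemannHypothesis) : PosStmt := pos hRH (bd hRH) dig logS

theorem u_all (hRH : RiemannHypothesis) : UStmt :=
  uS hRH (id_all hRH) (dir (ker shift)) (q0 (res shift))
    (fine hRH (pos_all hRH) kapS (pois_all hRH) (conjS hRH shift))

theorem u_zeta (hRH : RiemannHypothesis) (σ₀ ε : ℝ) (h₀ : 1 / 2 < σ₀) (hε : 0 < ε) :
    ∃ T : ℝ, ∀ t : ℝ, T ≤ t → ∀ σ : ℝ, σ₀ ≤ σ → σ ≤ 2 → σ ≠ 1 →
      ‖logDeriv riemannZeta (σ + t * I)‖ ≤
        σ / (1 - σ) * Real.log t ^ (2 - 2 * σ) - (logDeriv riemannZeta σ).re +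
          ε * Real.log t ^ (2 - 2 * σ) := by
  obtain ⟨T, -, hT⟩ := u_all hRH σ₀ ε h₀ hε
  refine ⟨T, fun t ht σ a b c => (hT t σ ht a b c).trans (le_of_eq ?_)⟩
  have e : (1 / ((σ : ℂ) - 1)).re = 1 / (σ - 1) := by
    rw [← ofReal_one, ← ofReal_sub, ← ofReal_div, ofReal_re]
  rw [DD_eq hRH (by simp only [ofReal_re]; linarith) (by exact_mod_cast c), add_re, e]
  have : 1 - σ ≠ 0 := sub_ne_zero.2 c.symm
  have : σ - 1 ≠ 0 := sub_ne_zero.2 c
  field_simp
  ring

end Pool.Agent.MP_d232b3_nt.Z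

end
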