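import Pool.Agent.Mg.C853.Gf8de24
import Pool.Agent.Mg.C853.G342b30
import Pool.Agent.Mg.Ff259ea.G21ab5a

section

/-!
Definitions and statements for the bound on the logarithmic derivative of zeta under RH.
-/

set_option autoImplicit false

open Complex MeasureTheory
open scoped Real ComplexConjugate

namespace Pool.Agent.MP_d232b3_nt.Z

/-- the logarithmic derivative of `(w - 1) ζ(w)` -/
noncomputable def DD (w : ℂ) : ℂ := logDeriv riemannZeta₁ w

/-- the Dirichlet series of the von Mangoldt function -/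
noncomputable def LL (w : ℂ) : ℂ := LSeries (fun n => (ArithmeticFunction.vonMangoldt n : ℂ)) w

/-- the integral along the vertical line of real part `a` -/
noncomputable def VI (f : ℂ → ℂ) (a : ℝ) : ℂ := ∫ v : ℝ, f (a + v * I)

noncomputable def lg (v : ℝ) : ℝ := Real.log (|v| + 3)

/-- the kernel without its pole at the origin -/
noncomputable def k1 (σ : ℝ) (z : ℂ) : ℂ :=
  (((2 * σ - 1) * σ ^ 2 : ℝ) : ℂ) / ((z + σ) ^ 2 * (z + ((2 * σ - 1 : ℝ) : ℂ)))

noncomputable def kk (σ : ℝ) (z : ℂ) : ℂ := k1 σ z / z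

/-- the kernel centred at `σ + i t`, times `x ^ (w - s)` with `x = exp X` -/
noncomputable def KK (σ t X : ℝ) (w : ℂ) : ℂ :=
  kk σ (w - (σ + t * I)) * cexp (X * (w - (σ + t * I)))

noncomputable def kap (a u : ℝ) : ℝ := 1 / ((1 / 4 + u ^ 2) * (a ^ 2 + u ^ 2))

/-- moving a line of integration -/
def ShiftStmt : Prop := ∀ (f : ℂ → ℂ) (a b M : ℝ), a ≤ b →
  (∀ w : ℂ, a ≤ w.re → w.re ≤ b → DifferentiableAt ℂ f w) →
  (∀ w : ℂ, a ≤ w.re → w.re ≤ b → ‖f w‖ ≤ M / (1 + w.im ^ 2)) →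
  VI f a = VI f b

/-- moving a line of integration across a simple pole -/
def ResStmt : Prop := ∀ (G : ℂ → ℂ) (a b M : ℝ) (p : ℂ), a < p.re → p.re < b →
  (∀ w : ℂ, a ≤ w.re → w.re ≤ b → DifferentiableAt ℂ G w) →
  (∀ w : ℂ, a ≤ w.re → w.re ≤ b → ‖G w‖ ≤ M / (1 + w.im ^ 2)) →
  VI (fun w => G w / (w - p)) b = VI (fun w => G w / (w - p)) a + 2 * π * G p

/-- the kernel is the Laplace transform of a nonnegative function on the half line -/
def KerStmt : Prop := ∀ σ : ℝ, 1 / 2 < σ → σ ≤ 2 → ∃ om : ℝ → ℝ, (∀ u, 0 ≤ om u) ∧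
  (∀ u, u ≤ 0 → om u = 0) ∧
    ∀ u : ℝ, VI (fun z => kk σ z * cexp (u * z)) (3 - σ) = ((om u : ℝ) : ℂ)

/-- the sum over prime powers is largest at height zero -/
def DirStmt : Prop := ∀ σ t X : ℝ, 1 / 2 < σ → σ ≤ 2 →
  ‖VI (fun w => LL w * KK σ t X w) 3‖ ≤ (VI (fun w => LL w * KK σ 0 X w) 3).re

def BdStmt : Prop := ∀ η : ℝ, 0 < η → ∃ C : ℝ, 0 ≤ C ∧ ∀ w : ℂ, 1 / 2 + η ≤ w.re → w.re ≤ 3 →
  ‖DD w‖ ≤ C * lg w.im

def DigStmt : Prop := ∃ C : ℝ, 0 ≤ C ∧ ∀ s : ℂ, 1 / 8 < s.re → s.re ≤ 1 →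
  ‖digamma s - (lg s.im : ℝ)‖ ≤ C

def LogStmt : Prop := ∀ (f : ℂ → ℂ) (x v : ℝ), DifferentiableAt ℂ f (x + v * I) →
  f (x + v * I) ≠ 0 →
    HasDerivAt (fun y : ℝ => Real.log ‖f (y + v * I)‖) (logDeriv f (x + v * I)).re x

def PosStmt : Prop := ∃ C : ℝ, 0 ≤ C ∧ ∀ w : ℂ, 1 / 2 < w.re → w.re ≤ 1 →
  -(lg w.im / 2) - C ≤ (DD w).re

/-- the crude bound for an integral against the kernel -/
def LineStmt : Prop := ∀ (f : ℂ → ℂ) (σ t X β μ A : ℝ), 1 / 2 < σ → σ ≤ 2 → 0 < μ → μ ≤ 1 →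
  μ ≤ |β - σ| → μ ≤ |β + σ - 1| → μ ≤ |β| →
  (∀ v : ℝ, ‖f (β + v * I)‖ ≤ A * (1 + (v - t) ^ 2)) →
    ‖VI (fun w => f w * KK σ t X w) β‖ ≤ 40 * A / μ ^ 4 * Real.exp (X * (β - σ))

def IdStmt : Prop := ∀ σ t X β : ℝ, 1 / 2 < β → β < σ → σ ≤ 2 →
  2 * π * DD (σ + t * I) = -VI (fun w => LL w * KK σ t X w) 3 +
    VI (fun w => 1 / (w - 1) * KK σ t X w) 3 - VI (fun w => DD w * KK σ t X w) β

def Q1Stmt : Prop := ∃ C : ℝ, 0 ≤ C ∧ ∀ σ t X : ℝ, 1 / 2 < σ → σ ≤ 2 → 1 ≤ t → 0 ≤ X →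
  ‖VI (fun w => 1 / (w - 1) * KK σ t X w) 3‖ ≤ C * Real.exp (3 * X) / t

def Q0Stmt : Prop := ∀ η : ℝ, 0 < η → η ≤ 1 / 8 → ∃ C : ℝ, 0 ≤ C ∧ ∀ σ X : ℝ,
  1 / 2 + 2 * η ≤ σ → σ ≤ 2 → σ ≠ 1 →
  ‖VI (fun w => 1 / (w - 1) * KK σ 0 X w) 3 -
      ((2 * π * (((2 * σ - 1) * σ * Real.exp (X * (1 - σ)) - 1) / (1 - σ)) : ℝ) : ℂ)‖ ≤
    C * Real.exp (X * (1 / 2 + η - σ))

def WeakStmt : Prop := ∀ η ε : ℝ, 0 < η → 0 < ε → ∃ C : ℝ, 0 ≤ C ∧ ∀ w : ℂ,
  1 / 2 + η ≤ w.re → w.re ≤ 2 → ‖DD w‖ ≤ ε * lg w.im + C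

def ConjStmt : Prop := ∀ η : ℝ, 0 < η → η ≤ 1 / 8 → ∃ C : ℝ, 0 ≤ C ∧ ∀ σ t X δ : ℝ,
  1 / 2 + 4 * η ≤ σ → σ ≤ 2 → 3 ≤ t → 0 < δ → δ ≤ η →
  ‖VI (fun w => conj (DD w + (Real.log t : ℝ)) * KK σ t X w) (1 / 2 + δ)‖ ≤
    C * Real.log t * Real.exp (X * (1 / 2 + δ - η - σ))

def KapStmt : Prop := ∀ a : ℝ, 0 < a → a ≠ 1 / 2 → Integrable (kap a) ∧
  ∫ u, kap a u = 2 * π / (a * (a + 1 / 2))

def PoisStmt : Prop := ∀ η ε : ℝ, 0 < η → η ≤ 1 / 8 → 0 < ε → ∃ C : ℝ, 0 ≤ C ∧ ∀ a t β : ℝ,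
  2 * η ≤ a → 3 ≤ t → 1 / 2 < β → β ≤ 1 →
  Integrable (fun u : ℝ => (DD ((β : ℂ) + ((t + u : ℝ) : ℂ) * I)).re * kap a u) ∧
    ∫ u : ℝ, (DD ((β : ℂ) + ((t + u : ℝ) : ℂ) * I)).re * kap a u ≤ ε * Real.log t + C

def FineStmt : Prop := ∀ η ε : ℝ, 0 < η → η ≤ 1 / 8 → 0 < ε → ∃ T : ℝ, 3 ≤ T ∧
  ∀ t σ δ : ℝ, T ≤ t → 1 / 2 + 4 * η ≤ σ → σ ≤ 2 → 0 < δ → δ ≤ η → δ ≠ σ - 1 →
  ‖VI (fun w => DD w * KK σ t (2 * Real.log (Real.log t)) w) (1 / 2 + δ)‖ ≤
    2 * π * Real.exp (2 * Real.log (Real.log t) * (1 / 2 + δ - σ)) * Real.log t *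
      ((2 * σ - 1) * σ ^ 2 / ((σ - 1 / 2 - δ) * (σ - δ)) + ε)

/-- the uniform bound -/
def UStmt : Prop := ∀ σ₀ ε : ℝ, 1 / 2 < σ₀ → 0 < ε → ∃ T : ℝ, 3 ≤ T ∧ ∀ t σ : ℝ, T ≤ t →
  σ₀ ≤ σ → σ ≤ 2 → σ ≠ 1 →
  ‖logDeriv riemannZeta (σ + t * I)‖ ≤
    (σ * Real.log t ^ (2 - 2 * σ) - 1) / (1 - σ) - (DD σ).re + ε * Real.log t ^ (2 - 2 * σ)

def BStmt : Prop := ∀ σ ε : ℝ, 1 / 2 < σ → σ < 1 → 0 < ε → ∃ T : ℝ, ∀ t : ℝ, T ≤ t →
  |Real.log ‖riemannZeta (σ + t * I)‖| ≤
    (σ / (2 * (1 - σ)) + ε) * Real.log t ^ (2 - 2 * σ) / Real.log (Real.log t)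

def CStmt : Prop := ∀ ε : ℝ, 0 < ε → ∃ T : ℝ, ∀ t : ℝ, T ≤ t →
  ‖logDeriv riemannZeta (1 + t * I)‖ ≤
    2 * Real.log (Real.log t) - 1 - Real.eulerMascheroniConstant + ε

def EinStmt : Prop := ∀ ε : ℝ, 0 < ε → ∃ R : ℝ, 1 ≤ R ∧ ∀ l : ℝ, R ≤ l →
  IntervalIntegrable (fun h : ℝ => (1 - (1 + h) * Real.exp (-(l * h))) / h) volume 0 1 ∧
  ∫ h in (0 : ℝ)..1, (1 - (1 + h) * Real.exp (-(l * h))) / h ≤
    Real.log l + Real.eulerMascheroniConstant - (1 - ε) / l

def DStmt : Prop := ∀ ε : ℝ, 0 < ε → ∃ T : ℝ, ∀ t : ℝ, T ≤ t →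
  ‖riemannZeta (1 + t * I)‖ ≤
    2 * Real.exp Real.eulerMascheroniConstant * (Real.log (Real.log t) - 1 / 2 + ε)

/-! ### small facts -/

lemma one_le_lg (v : ℝ) : 1 ≤ lg v := by
  unfold lg
  rw [Real.le_log_iff_exp_le (by positivity)]
  linarith [Real.exp_one_lt_d9, abs_nonneg v]

lemma lg_le (v : ℝ) : lg v ≤ 4 * (1 + v ^ 2) := by
  unfold lg
  have h := Real.log_le_sub_one_of_pos (show 0 < |v| + 3 by positivity)
  have h2 : |v| ≤ 1 + v ^ 2 := by nlinarith [sq_abs v, abs_nonneg v, sq_nonneg (|v| - 1)]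
  nlinarith [sq_nonneg v]

lemma lg_add_le (u v : ℝ) : lg (u + v) ≤ lg u + lg v := by
  unfold lg
  rw [← Real.log_mul (by positivity) (by positivity)]
  refine Real.log_le_log (by positivity) ?_
  nlinarith [abs_add_le u v, abs_nonneg u, abs_nonneg v, mul_nonneg (abs_nonneg u) (abs_nonneg v)]

lemma lg_le_log {t : ℝ} (ht : 3 ≤ t) (v : ℝ) : lg v ≤ Real.log t + lg (v - t) := by
  unfold lg
  rw [← Real.log_mul (by positivity) (by positivity)]
  refine Real.log_le_log (by positivity) ?_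
  have h : |v| ≤ |v - t| + t := by
    have := abs_add_le (v - t) t
    rwa [sub_add_cancel, abs_of_nonneg (show 0 ≤ t by linarith)] at this
  nlinarith [abs_nonneg (v - t)]

lemma zeta1_ne (hRH : RiemannHypothesis) {w : ℂ} (hw : 1 / 2 < w.re) : riemannZeta₁ w ≠ 0 := by
  intro h
  have h1 := hRH w (MP_c853c5_nt.Z.zeta_of_zeta1 h) ?_ (MP_c853c5_nt.Z.ne_one_of_zeta1 h)
  · linarith
  · rintro ⟨n, rfl⟩
    simp at hw
    linarith [n.cast_nonneg (α := ℝ)]

lemma zeta_ne (hRH : RiemannHypothesis) {w : ℂ} (hw : 1 / 2 < w.re) (h1 : w ≠ 1) :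
    riemannZeta w ≠ 0 := fun h =>
  zeta1_ne hRH hw (by rw [MP_c853c5_nt.Z.zeta1_eq h1, h, mul_zero])

lemma diff_DD (hRH : RiemannHypothesis) {w : ℂ} (hw : 1 / 2 < w.re) :
    DifferentiableAt ℂ DD w := by
  have h1 : DifferentiableAt ℂ (deriv riemannZeta₁) w :=
    (differentiable_riemannZeta₁.analyticAt w).deriv.differentiableAt
  exact h1.div (differentiable_riemannZeta₁ w) (zeta1_ne hRH hw)

lemma DD_eq (hRH : RiemannHypothesis) {w : ℂ} (hw : 1 / 2 < w.re) (h1 : w ≠ 1) :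
    DD w = 1 / (w - 1) + logDeriv riemannZeta w :=
  MP_c853c5_nt.Z.logDeriv_zeta1 h1 (zeta1_ne hRH hw)

lemma DD_one : DD 1 = (Real.eulerMascheroniConstant : ℝ) := by
  simp [DD, logDeriv_apply, deriv_riemannZeta₁_one]

lemma sq_le_normSq_add {z : ℂ} {μ c : ℝ} (hμ : 0 ≤ μ) (h : μ ≤ |z.re + c|) :
    μ ^ 2 + z.im ^ 2 ≤ ‖z + c‖ ^ 2 := by
  rw [Complex.sq_norm, normSq_apply]
  simp only [add_re, ofReal_re, add_im, ofReal_im, add_zero]
  nlinarith [sq_abs (z.re + c), mul_self_le_mul_self hμ h]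

/-- the size of the kernel away from its poles -/
lemma norm_kk_le {σ μ : ℝ} {z : ℂ} (hσ : 1 / 2 < σ) (hσ2 : σ ≤ 2) (hμ : 0 < μ)
    (h0 : μ ≤ |z.re|) (h1 : μ ≤ |z.re + (2 * σ - 1)|) (h2 : μ ≤ |z.re + σ|) :
    ‖kk σ z‖ ≤ 12 / (μ ^ 2 + z.im ^ 2) ^ 2 := by
  have e0 := sq_le_normSq_add (z := z) (c := 0) hμ.le (by simpa using h0)
  have e1 := sq_le_normSq_add hμ.le h1
  have e2 := sq_le_normSq_add hμ.le h2
  simp only [ofReal_zero, add_zero] at e0
  have hp : 0 < μ ^ 2 + z.im ^ 2 := by positivity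
  have e3 : μ ^ 2 + z.im ^ 2 ≤ ‖z + ((2 * σ - 1 : ℝ) : ℂ)‖ * ‖z‖ := by
    refine le_of_sq_le_sq ?_ (by positivity)
    rw [mul_pow, sq]
    exact mul_le_mul e1 e0 hp.le (by positivity)
  unfold kk k1
  rw [div_div, norm_div, norm_mul, norm_mul, norm_pow, norm_real, Real.norm_of_nonneg
    (by nlinarith [sq_nonneg σ]), mul_assoc]
  refine div_le_div₀ (by norm_num) (by nlinarith) (by positivity) ?_
  rw [sq (μ ^ 2 + z.im ^ 2)]
  exact mul_le_mul e2 e3 hp.le (by positivity)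

lemma norm_KK (σ t X : ℝ) (w : ℂ) :
    ‖KK σ t X w‖ = ‖kk σ (w - (σ + t * I))‖ * Real.exp (X * (w.re - σ)) := by
  unfold KK
  rw [norm_mul, norm_exp]
  simp

lemma norm_k1_le {σ μ : ℝ} {z : ℂ} (hσ : 1 / 2 < σ) (hσ2 : σ ≤ 2) (hμ : 0 < μ)
    (h1 : μ ≤ |z.re + (2 * σ - 1)|) (h2 : μ ≤ |z.re + σ|) :
    ‖k1 σ z‖ ≤ 12 / ((μ ^ 2 + z.im ^ 2) * ((μ + |z.im|) / 2)) := by
  have e1 := sq_le_normSq_add hμ.le h1
  have e2 := sq_le_normSq_add hμ.le h2
  have hp : 0 < μ ^ 2 + z.im ^ 2 := by positivity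
  have e3 : (μ + |z.im|) / 2 ≤ ‖z + ((2 * σ - 1 : ℝ) : ℂ)‖ := by
    refine le_of_sq_le_sq (le_trans ?_ e1) (by positivity)
    nlinarith [sq_abs z.im, sq_nonneg (μ - |z.im|), abs_nonneg z.im]
  unfold k1
  rw [norm_div, norm_mul, norm_pow, norm_real, Real.norm_of_nonneg
    (by nlinarith [sq_nonneg σ])]
  refine div_le_div₀ (by norm_num) (by nlinarith) (by positivity) ?_
  exact mul_le_mul e2 e3 (by positivity) (by positivity)

lemma ne_zero_of_re {z : ℂ} {c : ℝ} (h : z.re + c ≠ 0) : z + c ≠ 0 := fun h0 =>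
  h (by simpa using congrArg Complex.re h0)

lemma diff_k1 {σ : ℝ} {z : ℂ} (h1 : z.re + (2 * σ - 1) ≠ 0) (h2 : z.re + σ ≠ 0) :
    DifferentiableAt ℂ (k1 σ) z := by
  unfold k1
  refine DifferentiableAt.div (by fun_prop) (by fun_prop) ?_
  exact mul_ne_zero (pow_ne_zero _ (ne_zero_of_re h2)) (ne_zero_of_re h1)

lemma diff_kk {σ : ℝ} {z : ℂ} (h0 : z.re ≠ 0) (h1 : z.re + (2 * σ - 1) ≠ 0) (h2 : z.re + σ ≠ 0) :
    DifferentiableAt ℂ (kk σ) z := by
  unfold kk
  exact (diff_k1 h1 h2).div differentiableAt_id fun h => h0 (by simpa using congrArg Complex.re h)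

lemma diff_KK {σ t X : ℝ} {w : ℂ} (h0 : w.re - σ ≠ 0) (h1 : w.re + σ - 1 ≠ 0) (h2 : w.re ≠ 0) :
    DifferentiableAt ℂ (KK σ t X) w := by
  unfold KK
  refine DifferentiableAt.mul ?_ (by fun_prop)
  refine DifferentiableAt.comp (g := kk σ) (f := fun w : ℂ => w - (σ + t * I)) w
    (diff_kk ?_ ?_ ?_) (by fun_prop)
  · simpa using h0
  · intro h; apply h1; simp at h; linarith
  · intro h; apply h2; simp at h; linarith

lemma k1_zero {σ : ℝ} (hσ : 1 / 2 < σ) : k1 σ 0 = 1 := by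
  unfold k1
  have h1 : (σ : ℂ) ≠ 0 := by exact_mod_cast (show σ ≠ 0 by linarith)
  have h2 : ((2 * σ - 1 : ℝ) : ℂ) ≠ 0 := by exact_mod_cast (show 2 * σ - 1 ≠ 0 by linarith)
  rw [zero_add, zero_add, ofReal_mul, ofReal_pow]
  field_simp

/-- a translate of the standard majorant is dominated by a multiple of it -/
lemma one_add_sq_le (v t : ℝ) : 1 + v ^ 2 ≤ 2 * (1 + t ^ 2) * (1 + (v - t) ^ 2) := by
  nlinarith [sq_nonneg (v - 2 * t), sq_nonneg t, sq_nonneg (v - t), sq_nonneg (t * (v - t))]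

/-- integrability on a vertical line -/
lemma integrable_line {f : ℂ → ℂ} {a M : ℝ}
    (hd : ∀ v : ℝ, DifferentiableAt ℂ f (a + v * I))
    (hb : ∀ v : ℝ, ‖f (a + v * I)‖ ≤ M / (1 + v ^ 2)) :
    Integrable fun v : ℝ => f (a + v * I) := by
  have hc : Continuous fun v : ℝ => f (a + v * I) := continuous_iff_continuousAt.2 fun v =>
    ContinuousAt.comp (f := fun v : ℝ => (a : ℂ) + v * I) (hd v).continuousAt (by fun_prop)
  refine (integrable_inv_one_add_sq.const_mul M).mono' hc.aestronglyMeasurable ?_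
  exact Filter.Eventually.of_forall fun v => by simpa [div_eq_mul_inv] using hb v

end Pool.Agent.MP_d232b3_nt.Z

end

section

set_option autoImplicit false

open Complex MeasureTheory
open scoped Real ComplexConjugate

namespace Pool.Agent.MP_d232b3_nt.Z

lemma inv_sq_le {μ u : ℝ} (hμ : 0 < μ) (hμ1 : μ ≤ 1) :
    12 / (μ ^ 2 + u ^ 2) ^ 2 ≤ 12 / μ ^ 4 / (1 + u ^ 2) ^ 2 := by
  rw [div_div]
  refine div_le_div_of_nonneg_left (by norm_num) (by positivity) ?_
  rw [show μ ^ 4 * (1 + u ^ 2) ^ 2 = (μ ^ 2 * (1 + u ^ 2)) ^ 2 by ring]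
  refine pow_le_pow_left₀ (by positivity) ?_ 2
  have : μ ^ 2 ≤ 1 := pow_le_one₀ hμ.le hμ1
  nlinarith [sq_nonneg u]

/-- the size of the centred kernel -/
lemma norm_KK_le {σ t X μ : ℝ} {w : ℂ} (hσ : 1 / 2 < σ) (hσ2 : σ ≤ 2) (hμ : 0 < μ) (hμ1 : μ ≤ 1)
    (h0 : μ ≤ |w.re - σ|) (h1 : μ ≤ |w.re + σ - 1|) (h2 : μ ≤ |w.re|) :
    ‖KK σ t X w‖ ≤ 12 / μ ^ 4 / (1 + (w.im - t) ^ 2) ^ 2 * Real.exp (X * (w.re - σ)) := by
  rw [norm_KK]
  refine mul_le_mul_of_nonneg_right ?_ (Real.exp_pos _).le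
  have h := norm_kk_le (z := w - (σ + t * I)) hσ hσ2 hμ (by simpa using h0)
    (by simpa [show w.re - σ + (2 * σ - 1) = w.re + σ - 1 by ring] using h1) (by simpa using h2)
  have e : (w - (σ + t * I)).im = w.im - t := by simp
  rw [e] at h
  exact h.trans (inv_sq_le hμ hμ1)

lemma integral_shift_maj (t : ℝ) : ∫ v : ℝ, (1 + (v - t) ^ 2)⁻¹ = π := by
  rw [integral_sub_right_eq_self (fun v : ℝ => (1 + v ^ 2)⁻¹) t, integral_univ_inv_one_add_sq]

lemma integrable_shift_maj (t : ℝ) : Integrable fun v : ℝ => (1 + (v - t) ^ 2)⁻¹ :=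
  integrable_inv_one_add_sq.comp_sub_right t

/-- pointwise bound of a product with the kernel -/
lemma norm_mul_KK_le {σ t X μ A : ℝ} {w y : ℂ} (hσ : 1 / 2 < σ) (hσ2 : σ ≤ 2) (hμ : 0 < μ)
    (hμ1 : μ ≤ 1) (h0 : μ ≤ |w.re - σ|) (h1 : μ ≤ |w.re + σ - 1|) (h2 : μ ≤ |w.re|)
    (hy : ‖y‖ ≤ A * (1 + (w.im - t) ^ 2)) :
    ‖y * KK σ t X w‖ ≤ 12 * A / μ ^ 4 * Real.exp (X * (w.re - σ)) * (1 + (w.im - t) ^ 2)⁻¹ := by
  rw [norm_mul]
  refine (mul_le_mul hy (norm_KK_le hσ hσ2 hμ hμ1 h0 h1 h2) (norm_nonneg _)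
    ((norm_nonneg _).trans hy)).trans (le_of_eq ?_)
  field_simp

theorem line : LineStmt := by
  intro f σ t X β μ A hσ hσ2 hμ hμ1 h0 h1 h2 hf
  have hA : 0 ≤ A := by
    have := (norm_nonneg _).trans (hf t)
    simpa using this
  have hb : ∀ v : ℝ, ‖f (β + v * I) * KK σ t X (β + v * I)‖ ≤
      12 * A / μ ^ 4 * Real.exp (X * (β - σ)) * (1 + (v - t) ^ 2)⁻¹ := fun v => by
    have := norm_mul_KK_le (X := X) (w := β + v * I) (y := f (β + v * I)) hσ hσ2 hμ hμ1
      (by simpa using h0) (by simpa using h1) (by simpa using h2) (by simpa using hf v)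
    simpa using this
  refine (norm_integral_le_of_norm_le ((integrable_shift_maj t).const_mul _)
    (Filter.Eventually.of_forall hb)).trans ?_
  rw [integral_const_mul, integral_shift_maj]
  have hπ := Real.pi_lt_d2
  have h3 : 0 ≤ A / μ ^ 4 * Real.exp (X * (β - σ)) := by positivity
  calc 12 * A / μ ^ 4 * Real.exp (X * (β - σ)) * π
      = 12 * π * (A / μ ^ 4 * Real.exp (X * (β - σ))) := by ring
    _ ≤ 40 * (A / μ ^ 4 * Real.exp (X * (β - σ))) := by gcongr; linarith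
    _ = _ := by ring

/-- from a bound centred at `t` to the standard decay -/
lemma decay_of_shift {c t v : ℝ} (hc : 0 ≤ c) :
    c * (1 + (v - t) ^ 2)⁻¹ ≤ c * (2 * (1 + t ^ 2)) / (1 + v ^ 2) := by
  rw [mul_div_assoc]
  refine mul_le_mul_of_nonneg_left ?_ hc
  rw [inv_eq_one_div, div_le_div_iff₀ (by positivity) (by positivity)]
  linarith [one_add_sq_le v t]

lemma lg_le_shift (t v : ℝ) : lg v ≤ (lg t + 4) * (1 + (v - t) ^ 2) := by
  have h1 := lg_add_le t (v - t)
  rw [add_sub_cancel] at h1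
  have h2 := lg_le (v - t)
  have h3 := one_le_lg t
  nlinarith [sq_nonneg (v - t)]

theorem bd (hRH : RiemannHypothesis) : BdStmt := by
  intro η hη
  obtain ⟨C, hC1, hC⟩ := MP_c853c5_nt.Z.locZ MP_c853c5_nt.Z.em MP_c853c5_nt.Z.t341
  refine ⟨C + C / η, by positivity, fun w hw hw3 => ?_⟩
  obtain ⟨Z, hZ, -, hsum, hb⟩ := hC w.im
  have hmem : w ∈ Metric.closedBall ((2 : ℂ) + w.im * I) (8 / 5) := by
    rw [Metric.mem_closedBall, dist_eq_norm]
    have e : w - (2 + w.im * I) = ((w.re - 2 : ℝ) : ℂ) := by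
      apply Complex.ext <;> simp
    rw [e, norm_real, Real.norm_eq_abs, abs_le]
    constructor <;> linarith
  have h1 := hb w hmem (zeta1_ne hRH (by linarith))
  have h2 : ‖∑ ρ ∈ Z, (MP_c853c5_nt.Z.ord ρ : ℂ) / (w - ρ)‖ ≤
      ∑ ρ ∈ Z, MP_c853c5_nt.Z.ord ρ / η := by
    refine norm_sum_le_of_le _ fun ρ hρ => ?_
    have hz := ((hZ ρ).1 hρ).2
    have hre : ρ.re ≤ 1 / 2 := by
      by_contra h
      exact zeta1_ne hRH (not_le.1 h) hz
    rw [norm_div, norm_real, Real.norm_of_nonneg (MP_c853c5_nt.Z.ord_nonneg ρ)]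
    refine div_le_div_of_nonneg_left (MP_c853c5_nt.Z.ord_nonneg ρ) hη ?_
    refine le_trans ?_ (re_le_norm _)
    simp only [sub_re]
    linarith
  rw [← Finset.sum_div] at h2
  have h3 : (∑ ρ ∈ Z, MP_c853c5_nt.Z.ord ρ) / η ≤ C * lg w.im / η := by
    gcongr
    exact hsum
  have h4 := norm_le_norm_add_norm_sub' (DD w) (∑ ρ ∈ Z, (MP_c853c5_nt.Z.ord ρ : ℂ) / (w - ρ))
  have h5 : ‖DD w - ∑ ρ ∈ Z, (MP_c853c5_nt.Z.ord ρ : ℂ) / (w - ρ)‖ ≤ C * lg w.im := h1
  calc ‖DD w‖ ≤ C * lg w.im / η + C * lg w.im := by linarith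
    _ = _ := by ring

lemma norm_inv_sub_one {v : ℝ} : ‖1 / ((3 : ℝ) + v * I - 1 : ℂ)‖ ≤ 1 / 2 := by
  rw [norm_div, norm_one]
  refine div_le_div_of_nonneg_left zero_le_one two_pos ?_
  refine le_trans ?_ (re_le_norm _)
  norm_num

theorem q1 : Q1Stmt := by
  refine ⟨80, by norm_num, fun σ t X hσ hσ2 ht hX => ?_⟩
  have h := line (fun w => 1 / (w - 1)) σ t X 3 1 (2 / t) hσ hσ2 one_pos le_rfl
    (by rw [abs_of_nonneg] <;> linarith) (by rw [abs_of_nonneg] <;> linarith) (by norm_num)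
    fun v => ?_
  · refine h.trans ?_
    have : Real.exp (X * (3 - σ)) ≤ Real.exp (3 * X) := Real.exp_le_exp.2 (by nlinarith)
    calc 40 * (2 / t) / 1 ^ 4 * Real.exp (X * (3 - σ)) = 80 * Real.exp (X * (3 - σ)) / t := by ring
      _ ≤ _ := by gcongr
  · have h2 : (2 : ℝ) ≤ ‖((3 : ℝ) + v * I - 1 : ℂ)‖ := le_trans (by norm_num) (re_le_norm _)
    have h3 : |v| ≤ ‖((3 : ℝ) + v * I - 1 : ℂ)‖ := le_trans (by simp) (abs_im_le_norm _)
    rw [norm_div, norm_one, div_mul_eq_mul_div, div_le_div_iff₀ (by linarith) (by linarith)]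
    have h4 : t ≤ |v| + |v - t| := by
      have := abs_sub_abs_le_abs_sub t v
      rw [abs_of_nonneg (show 0 ≤ t by linarith), abs_sub_comm] at this
      linarith
    have h5 : |v - t| ≤ 1 + (v - t) ^ 2 := by
      nlinarith [sq_abs (v - t), abs_nonneg (v - t), sq_nonneg (|v - t| - 1)]
    nlinarith [sq_nonneg (v - t), mul_nonneg (sq_nonneg (v - t))
      (norm_nonneg ((3 : ℝ) + v * I - 1 : ℂ))]

end Pool.Agent.MP_d232b3_nt.Z

end

section

set_option autoImplicit false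

open Complex MeasureTheory
open scoped Real ComplexConjugate

namespace Pool.Agent.MP_d232b3_nt.Z

/-- the kernel without the pole at the centre -/
noncomputable def GG (σ t X : ℝ) (w : ℂ) : ℂ :=
  k1 σ (w - (σ + t * I)) * cexp (X * (w - (σ + t * I)))

lemma KK_eq (σ t X : ℝ) (w : ℂ) : KK σ t X w = GG σ t X w / (w - (σ + t * I)) := by
  unfold KK GG kk
  ring

lemma GG_centre {σ : ℝ} (t X : ℝ) (hσ : 1 / 2 < σ) : GG σ t X (σ + t * I) = 1 := by
  simp [GG, k1_zero hσ]

lemma diff_GG {σ t X : ℝ} {w : ℂ} (h1 : w.re + σ - 1 ≠ 0) (h2 : w.re ≠ 0) :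
    DifferentiableAt ℂ (GG σ t X) w := by
  unfold GG
  refine DifferentiableAt.mul ?_ (by fun_prop)
  refine DifferentiableAt.comp (g := k1 σ) (f := fun w : ℂ => w - (σ + t * I)) w
    (diff_k1 ?_ ?_) (by fun_prop)
  · intro h; apply h1; simp at h; linarith
  · intro h; apply h2; simp at h; linarith

lemma lg_le_abs (v : ℝ) : lg v ≤ 2 * (1 + |v|) := by
  unfold lg
  have h := Real.log_le_sub_one_of_pos (show 0 < |v| + 3 by positivity)
  linarith [abs_nonneg v]

lemma norm_GG_le {σ t X μ : ℝ} {w : ℂ} (hσ : 1 / 2 < σ) (hσ2 : σ ≤ 2) (hμ : 0 < μ) (hμ1 : μ ≤ 1)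
    (h1 : μ ≤ w.re + σ - 1) (h2 : μ ≤ w.re) (h3 : w.re ≤ 3) :
    ‖GG σ t X w‖ ≤ 24 / μ ^ 3 * Real.exp (3 * |X|) * (1 + (w.im - t) ^ 2)⁻¹ *
      (1 + |w.im - t|)⁻¹ := by
  have h := norm_k1_le (z := w - (σ + t * I)) hσ hσ2 hμ
    (by simpa [show w.re - σ + (2 * σ - 1) = w.re + σ - 1 by ring] using h1.trans (le_abs_self _))
    (by simpa using h2.trans (le_abs_self _))
  have e : (w - (σ + t * I)).im = w.im - t := by simp
  rw [e] at h
  set u := w.im - t
  have he : ‖cexp (X * (w - (σ + t * I)))‖ ≤ Real.exp (3 * |X|) := by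
    rw [norm_exp]
    refine Real.exp_le_exp.2 ?_
    have e2 : ((X : ℂ) * (w - (σ + t * I))).re = X * (w.re - σ) := by simp
    rw [e2]
    have : |w.re - σ| ≤ 3 := abs_le.2 ⟨by linarith, by linarith⟩
    calc X * (w.re - σ) ≤ |X| * |w.re - σ| := by rw [← abs_mul]; exact le_abs_self _
      _ ≤ |X| * 3 := by gcongr
      _ = _ := by ring
  have hk : 12 / ((μ ^ 2 + u ^ 2) * ((μ + |u|) / 2)) ≤
      24 / μ ^ 3 * (1 + u ^ 2)⁻¹ * (1 + |u|)⁻¹ := by
    have a1 : μ ^ 2 * (1 + u ^ 2) ≤ μ ^ 2 + u ^ 2 := by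
      have : μ ^ 2 ≤ 1 := pow_le_one₀ hμ.le hμ1
      nlinarith [sq_nonneg u]
    have a2 : μ * (1 + |u|) ≤ μ + |u| := by nlinarith [abs_nonneg u]
    have a3 : 24 / μ ^ 3 * (1 + u ^ 2)⁻¹ * (1 + |u|)⁻¹ =
        12 / ((μ ^ 2 * (1 + u ^ 2)) * (μ * (1 + |u|) / 2)) := by
      field_simp
      ring
    rw [a3]
    gcongr
  unfold GG
  rw [norm_mul]
  refine (mul_le_mul (h.trans hk) he (norm_nonneg _) (by positivity)).trans (le_of_eq ?_)
  ring

/-- decay of a product with a function of logarithmic growth -/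
lemma decay_GG {σ t X μ C : ℝ} {w y : ℂ} (hσ : 1 / 2 < σ) (hσ2 : σ ≤ 2) (hμ : 0 < μ) (hμ1 : μ ≤ 1)
    (h1 : μ ≤ w.re + σ - 1) (h2 : μ ≤ w.re) (h3 : w.re ≤ 3) (hC : 0 ≤ C) (hy : ‖y‖ ≤ C * lg w.im) :
    ‖y * GG σ t X w‖ ≤
      C * (lg t + 2) * (24 / μ ^ 3 * Real.exp (3 * |X|)) * (2 * (1 + t ^ 2)) / (1 + w.im ^ 2) := by
  have hl := one_le_lg t
  refine le_trans ?_ (decay_of_shift (by positivity))
  have h4 : lg w.im ≤ (lg t + 2) * (1 + |w.im - t|) := by
    have a1 := lg_add_le t (w.im - t)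
    rw [add_sub_cancel] at a1
    have a2 := lg_le_abs (w.im - t)
    nlinarith [abs_nonneg (w.im - t)]
  rw [norm_mul]
  refine (mul_le_mul (hy.trans (mul_le_mul_of_nonneg_left h4 hC))
    (norm_GG_le hσ hσ2 hμ hμ1 h1 h2 h3) (norm_nonneg _) (by positivity)).trans (le_of_eq ?_)
  field_simp

/-- integrability of a product with the kernel on a line -/
lemma integrable_mul_KK {f : ℂ → ℂ} {σ t X β μ A : ℝ} (hσ : 1 / 2 < σ) (hσ2 : σ ≤ 2) (hμ : 0 < μ)
    (hμ1 : μ ≤ 1) (h0 : μ ≤ |β - σ|) (h1 : μ ≤ |β + σ - 1|) (h2 : μ ≤ |β|)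
    (hc : Continuous fun v : ℝ => f (β + v * I))
    (hf : ∀ v : ℝ, ‖f (β + v * I)‖ ≤ A * (1 + (v - t) ^ 2)) :
    Integrable fun v : ℝ => f (β + v * I) * KK σ t X (β + v * I) := by
  have hK : Continuous fun v : ℝ => KK σ t X (β + v * I) := continuous_iff_continuousAt.2 fun v =>
    ContinuousAt.comp (f := fun v : ℝ => (β : ℂ) + v * I)
      (diff_KK (by simpa using abs_pos.1 (hμ.trans_le h0))
        (by simpa using abs_pos.1 (hμ.trans_le h1))
        (by simpa using abs_pos.1 (hμ.trans_le h2))).continuousAt (by fun_prop)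
  refine ((integrable_shift_maj t).const_mul
    (12 * A / μ ^ 4 * Real.exp (X * (β - σ)))).mono' (hc.mul hK).aestronglyMeasurable
    (Filter.Eventually.of_forall fun v => ?_)
  have := norm_mul_KK_le (X := X) (w := β + v * I) (y := f (β + v * I)) hσ hσ2 hμ hμ1
    (by simpa using h0) (by simpa using h1) (by simpa using h2) (by simpa using hf v)
  simpa using this

lemma cont_DD (hRH : RiemannHypothesis) {β : ℝ} (hβ : 1 / 2 < β) :
    Continuous fun v : ℝ => DD (β + v * I) := continuous_iff_continuousAt.2 fun v =>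
  ContinuousAt.comp (f := fun v : ℝ => (β : ℂ) + v * I)
    (diff_DD hRH (by simpa using hβ)).continuousAt (by fun_prop)

lemma cont_inv {β : ℝ} (hβ : β ≠ 1) : Continuous fun v : ℝ => 1 / ((β : ℂ) + v * I - 1) :=
  continuous_const.div (by fun_prop) fun v h => hβ (by
    have := congrArg Complex.re h
    simp at this
    linarith)

lemma LL_eq (hRH : RiemannHypothesis) {w : ℂ} (hw : 1 < w.re) : LL w = 1 / (w - 1) - DD w := by
  have h1 : w ≠ 1 := by rintro rfl; simp at hw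
  rw [DD_eq hRH (by linarith) h1, LL, MP_c853c5_nt.Z.LS_eq hw]
  ring

theorem idS (hRH : RiemannHypothesis) (hR : ResStmt) : IdStmt := by
  intro σ t X β hβ hβσ hσ2
  have hσ : 1 / 2 < σ := by linarith
  obtain ⟨C, hC0, hC⟩ := bd hRH (β - 1 / 2) (by linarith)
  set μ := min (β - 1 / 2) (1 / 2) with hμ
  have hμ0 : 0 < μ := lt_min (by linarith) (by norm_num)
  have hμ1 : μ ≤ β - 1 / 2 := min_le_left _ _
  have hμ2 : μ ≤ 1 / 2 := min_le_right _ _
  have h := hR (fun w => DD w * GG σ t X w) β 3 _ (σ + t * I) (by simpa using hβσ)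
    (by simp; linarith)
    (fun w hw _ => (diff_DD hRH (by linarith)).mul
      (diff_GG (by linarith) (by linarith)))
    (fun w hw hw3 => decay_GG hσ hσ2 hμ0 (by linarith) (by linarith) (by linarith) hw3 hC0
      (hC w (by linarith) hw3))
  have e : (fun w => DD w * GG σ t X w / (w - (σ + t * I))) = fun w => DD w * KK σ t X w := by
    funext w
    rw [KK_eq, mul_div_assoc]
  simp only [e, GG_centre t X hσ, mul_one] at h
  have a0 : (1 : ℝ) ≤ |3 - σ| := by rw [abs_of_nonneg] <;> linarith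
  have a1 : (1 : ℝ) ≤ |3 + σ - 1| := by rw [abs_of_nonneg] <;> linarith
  have a2 : (1 : ℝ) ≤ |(3 : ℝ)| := by norm_num
  have i1 := integrable_mul_KK (f := DD) (X := X) (A := C * (lg t + 4)) hσ hσ2 one_pos le_rfl
    a0 a1 a2 (cont_DD hRH (by norm_num)) fun v => by
      refine (hC _ (by simp; linarith) (by simp)).trans ?_
      rw [mul_assoc]
      refine mul_le_mul_of_nonneg_left ?_ hC0
      simpa using lg_le_shift t v
  have i2 := integrable_mul_KK (f := fun w => 1 / (w - 1)) (t := t) (X := X) (A := 1 / 2) hσ hσ2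
    one_pos le_rfl a0 a1 a2 (cont_inv (by norm_num)) fun v => by
      refine norm_inv_sub_one.trans ?_
      nlinarith [sq_nonneg (v - t)]
  have e2 : VI (fun w => LL w * KK σ t X w) 3 =
      VI (fun w => 1 / (w - 1) * KK σ t X w) 3 - VI (fun w => DD w * KK σ t X w) 3 := by
    unfold VI
    rw [← integral_sub i2 i1]
    refine integral_congr_ae (Filter.Eventually.of_forall fun v => ?_)
    simp only
    rw [LL_eq hRH (by simp), sub_mul]
  rw [e2, h]
  ring

lemma k1_one_sub {σ : ℝ} (hσ : 1 / 2 < σ) :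
    k1 σ (1 - (σ + (0 : ℝ) * I)) = (((2 * σ - 1) * σ : ℝ) : ℂ) := by
  unfold k1
  have h1 : (σ : ℂ) ≠ 0 := by exact_mod_cast (show σ ≠ 0 by linarith)
  have e1 : (1 - ((σ : ℂ) + (0 : ℝ) * I) + σ) = 1 := by simp
  have e2 : (1 - ((σ : ℂ) + (0 : ℝ) * I) + ((2 * σ - 1 : ℝ) : ℂ)) = σ := by
    push_cast
    ring
  rw [e1, e2]
  push_cast
  field_simp

theorem q0 (hR : ResStmt) : Q0Stmt := by
  intro η hη hη8
  refine ⟨40 * 3 / η ^ 4, by positivity, fun σ X hσ' hσ2 hσ1 => ?_⟩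
  have hσ : 1 / 2 < σ := by linarith
  set β : ℝ := 1 / 2 + η with hβ
  have hd : ∀ w : ℂ, β ≤ w.re → w.re ≤ 3 → DifferentiableAt ℂ (GG σ 0 X) w := fun w hw _ =>
    diff_GG (by linarith) (by linarith)
  have hb : ∀ w : ℂ, β ≤ w.re → w.re ≤ 3 → ‖GG σ 0 X w‖ ≤
      1 * (lg 0 + 2) * (24 / η ^ 3 * Real.exp (3 * |X|)) * (2 * (1 + 0 ^ 2)) / (1 + w.im ^ 2) :=
    fun w hw hw3 => by
      have := decay_GG (t := 0) (X := X) (y := 1) (w := w) hσ hσ2 hη (by linarith) (by linarith)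
        (by linarith) hw3 zero_le_one (by simpa using one_le_lg _)
      rwa [one_mul] at this
  have r1 := hR (GG σ 0 X) β 3 _ 1 (by simp; linarith) (by norm_num) hd hb
  have r2 := hR (GG σ 0 X) β 3 _ (σ + (0 : ℝ) * I) (by simp; linarith) (by simp; linarith) hd hb
  rw [GG_centre 0 X hσ] at r2
  have hs : (1 - σ : ℂ) ≠ 0 := by exact_mod_cast (show (1 - σ : ℝ) ≠ 0 from sub_ne_zero.2 hσ1.symm)
  have hint : ∀ (a : ℝ) (p : ℂ), β ≤ a → a ≤ 3 → η ≤ |a - p.re| →
      Integrable fun v : ℝ => GG σ 0 X (a + v * I) / (a + v * I - p) := fun a p ha ha3 hp => by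
    have hne : ∀ v : ℝ, η ≤ ‖(a : ℂ) + v * I - p‖ := fun v =>
      hp.trans (le_trans (by simp) (abs_re_le_norm _))
    refine integrable_line (f := fun w => GG σ 0 X w / (w - p))
      (M := 1 * (lg 0 + 2) * (24 / η ^ 3 * Real.exp (3 * |X|)) * (2 * (1 + 0 ^ 2)) / η)
      (fun v => (hd _ (by simpa using ha) (by simpa using ha3)).div (by fun_prop)
        (norm_pos_iff.1 (hη.trans_le (hne v)))) fun v => ?_
    have h1 := hb (a + v * I) (by simpa using ha) (by simpa using ha3)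
    have e : ((a : ℂ) + v * I).im = v := by simp
    rw [e] at h1
    have hl := one_le_lg 0
    rw [norm_div, div_right_comm]
    exact div_le_div₀ (by positivity) h1 hη (hne v)
  have split : ∀ a : ℝ, β ≤ a → a ≤ 3 → η ≤ |a - 1| → η ≤ |a - σ| →
      VI (fun w => 1 / (w - 1) * KK σ 0 X w) a = (VI (fun w => GG σ 0 X w / (w - 1)) a -
        VI (fun w => GG σ 0 X w / (w - (σ + (0 : ℝ) * I))) a) / (1 - σ) := fun a ha ha3 h1 h2 => by
    unfold VI
    rw [← integral_sub (hint a 1 ha ha3 (by simpa using h1))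
      (hint a _ ha ha3 (by simpa using h2)), ← integral_div]
    refine integral_congr_ae (Filter.Eventually.of_forall fun v => ?_)
    have n1 : (a : ℂ) + v * I - 1 ≠ 0 := fun h => by
      have := congrArg Complex.re h
      simp at this
      rw [this, abs_zero] at h1
      linarith
    have n2 : (a : ℂ) + v * I - (σ + (0 : ℝ) * I) ≠ 0 := fun h => by
      have := congrArg Complex.re h
      simp at this
      rw [this, abs_zero] at h2
      linarith
    simp only [KK_eq]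
    simp only [ofReal_zero, zero_mul, add_zero] at n2 ⊢
    field_simp
    ring
  have b1 : η ≤ |β - 1| := by rw [abs_of_nonpos] <;> linarith
  have b2 : η ≤ |β - σ| := by rw [abs_of_nonpos] <;> linarith
  have s3 := split 3 (by linarith) le_rfl (by rw [abs_of_nonneg] <;> linarith)
    (by rw [abs_of_nonneg] <;> linarith)
  have sβ := split β le_rfl (by linarith) b1 b2
  have e : VI (fun w => 1 / (w - 1) * KK σ 0 X w) 3 -
      ((2 * π * (((2 * σ - 1) * σ * Real.exp (X * (1 - σ)) - 1) / (1 - σ)) : ℝ) : ℂ) =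
      VI (fun w => 1 / (w - 1) * KK σ 0 X w) β := by
    rw [s3, sβ, r1, r2, GG, k1_one_sub hσ]
    push_cast
    field_simp
    ring_nf
  rw [e]
  refine line (fun w => 1 / (w - 1)) σ 0 X β η 3 hσ hσ2 hη (by linarith) b2
    (by rw [abs_of_nonneg] <;> linarith) (by rw [abs_of_nonneg] <;> linarith) fun v => ?_
  have h2 : (3 / 8 : ℝ) ≤ ‖((β : ℝ) + v * I - 1 : ℂ)‖ := by
    refine le_trans ?_ (abs_re_le_norm _)
    simp only [sub_re, add_re, ofReal_re, mul_re, I_re, mul_zero, ofReal_im, I_im, mul_one,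
      sub_self, add_zero, one_re]
    rw [abs_of_nonpos] <;> linarith
  rw [norm_div, norm_one, div_le_iff₀ (by linarith)]
  nlinarith [sq_nonneg (v - 0), mul_nonneg (sq_nonneg (v - 0))
    (norm_nonneg ((β : ℝ) + v * I - 1 : ℂ))]

theorem weak (hRH : RiemannHypothesis) (hI : IdStmt) : WeakStmt := by
  intro η ε hη hε
  obtain ⟨C, hC0, hC⟩ := bd hRH (η / 2) (by linarith)
  obtain ⟨C₃, hC₃0, hC₃⟩ := bd hRH 1 one_pos
  obtain ⟨A₃, hA₃0, hA₃⟩ : ∃ A : ℝ, 0 ≤ A ∧ ∀ v : ℝ, ‖LL ((3 : ℝ) + v * I)‖ ≤ A := by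
    have hs : LSeriesSummable (fun n => (ArithmeticFunction.vonMangoldt n : ℂ)) 3 :=
      ArithmeticFunction.LSeriesSummable_vonMangoldt (by norm_num)
    refine ⟨∑' n, ‖LSeries.term (fun n => (ArithmeticFunction.vonMangoldt n : ℂ)) 3 n‖,
      tsum_nonneg fun _ => norm_nonneg _, fun v => ?_⟩
    refine tsum_of_norm_bounded hs.norm.hasSum fun n => le_of_eq ?_
    simp [LSeries.norm_term_eq]
  set μ := η / 3 with hμ
  have hμ0 : 0 < μ := by positivity
  obtain ⟨X, hX0, hX⟩ : ∃ X : ℝ, 0 ≤ X ∧ 40 * (5 * C) / μ ^ 4 * Real.exp (X * (-(η / 2))) ≤ ε := by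
    have h1 : Filter.Tendsto (fun X : ℝ => 40 * (5 * C) / μ ^ 4 * Real.exp (X * (-(η / 2))))
        Filter.atTop (nhds (40 * (5 * C) / μ ^ 4 * 0)) :=
      (Real.tendsto_exp_atBot.comp (Filter.tendsto_id.atTop_mul_const_of_neg
        (by linarith))).const_mul _
    rw [mul_zero] at h1
    exact ((Filter.eventually_ge_atTop 0).and (h1.eventually (ge_mem_nhds hε))).exists
  refine ⟨40 * (A₃ + 1) * Real.exp (3 * X), by positivity, fun w hw hw2 => ?_⟩
  set σ := w.re
  set t := w.im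
  have hσ : 1 / 2 < σ := by linarith
  have hw' : w = σ + t * I := (re_add_im w).symm
  have hid := hI σ t X (1 / 2 + η / 2) (by linarith) (by linarith) hw2
  have a0 : (1 : ℝ) ≤ |3 - σ| := by rw [abs_of_nonneg] <;> linarith
  have a1 : (1 : ℝ) ≤ |3 + σ - 1| := by rw [abs_of_nonneg] <;> linarith
  have a2 : (1 : ℝ) ≤ |(3 : ℝ)| := by norm_num
  have he : Real.exp (X * (3 - σ)) ≤ Real.exp (3 * X) := Real.exp_le_exp.2 (by nlinarith)
  have l1 := line LL σ t X 3 1 A₃ hσ hw2 one_pos le_rfl a0 a1 a2 fun v =>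
    (hA₃ v).trans (by nlinarith [mul_nonneg hA₃0 (sq_nonneg (v - t))])
  have l2 := line (fun w => 1 / (w - 1)) σ t X 3 1 1 hσ hw2 one_pos le_rfl a0 a1 a2 fun v =>
    norm_inv_sub_one.trans (by nlinarith [sq_nonneg (v - t)])
  have hl := one_le_lg t
  have l3 := line DD σ t X (1 / 2 + η / 2) μ (5 * C * lg t) hσ hw2 hμ0 (by linarith)
    (by rw [abs_of_nonpos] <;> linarith) (by rw [abs_of_nonneg] <;> linarith)
    (by rw [abs_of_nonneg] <;> linarith) fun v => by
      refine (hC _ (by simp) (by simp; linarith)).trans ?_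
      have h1 := lg_le_shift t v
      have e : (((1 / 2 + η / 2 : ℝ) : ℂ) + v * I).im = v := by simp
      rw [e]
      have h2 : (lg t + 4) * (1 + (v - t) ^ 2) ≤ 5 * lg t * (1 + (v - t) ^ 2) := by
        gcongr
        linarith
      calc C * lg v ≤ C * (5 * lg t * (1 + (v - t) ^ 2)) := by gcongr; linarith
        _ = _ := by ring
  have he3 : Real.exp (X * (1 / 2 + η / 2 - σ)) ≤ Real.exp (X * (-(η / 2))) :=
    Real.exp_le_exp.2 (mul_le_mul_of_nonneg_left (by linarith) hX0)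
  have l3' : 40 * (5 * C * lg t) / μ ^ 4 * Real.exp (X * (1 / 2 + η / 2 - σ)) ≤ ε * lg t := by
    calc _ = 40 * (5 * C) / μ ^ 4 * Real.exp (X * (1 / 2 + η / 2 - σ)) * lg t := by ring
      _ ≤ 40 * (5 * C) / μ ^ 4 * Real.exp (X * (-(η / 2))) * lg t := by gcongr
      _ ≤ _ := by gcongr
  have hn : ‖2 * π * DD (σ + t * I)‖ ≤ ε * lg t + 40 * (A₃ + 1) * Real.exp (3 * X) := by
    rw [hid]
    refine (norm_sub_le _ _).trans ?_
    have := norm_add_le (-VI (fun w => LL w * KK σ t X w) 3)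
      (VI (fun w => 1 / (w - 1) * KK σ t X w) 3)
    rw [norm_neg] at this
    simp only [one_pow, div_one, mul_one] at l1 l2
    nlinarith [mul_le_mul_of_nonneg_left he hA₃0]
  rw [← hw', norm_mul, norm_mul, norm_real, Real.norm_of_nonneg Real.pi_pos.le] at hn
  simp only [norm_ofNat] at hn
  nlinarith [Real.pi_gt_three, norm_nonneg (DD w)]

end Pool.Agent.MP_d232b3_nt.Z

end

section

/-!
Moving a vertical line of integration, possibly across a simple pole.
-/

set_option autoImplicit false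

open Complex MeasureTheory Filter Topology
open scoped Real ComplexConjugate

namespace Pool.Agent.MP_d232b3_nt.Z

lemma shift_gen_Res {f : ℂ → ℂ} {a b : ℝ} {B : ℝ → ℝ} (hab : a ≤ b)
    (hd : ∀ w : ℂ, a ≤ w.re → w.re ≤ b → DifferentiableAt ℂ f w)
    (hB : Tendsto B atTop (𝓝 0))
    (hb : ∀ᶠ T : ℝ in atTop, ∀ w : ℂ, a ≤ w.re → w.re ≤ b → |w.im| = T → ‖f w‖ ≤ B T)
    (ia : Integrable fun v : ℝ => f (a + v * I)) (ib : Integrable fun v : ℝ => f (b + v * I)) :
    VI f a = VI f b := by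
  have ta := intervalIntegral_tendsto_integral (l := atTop) (a := fun T : ℝ => -T)
    (b := fun T : ℝ => T) ia tendsto_neg_atTop_atBot tendsto_id
  have tb := intervalIntegral_tendsto_integral (l := atTop) (a := fun T : ℝ => -T)
    (b := fun T : ℝ => T) ib tendsto_neg_atTop_atBot tendsto_id
  have t0 : Tendsto (fun T : ℝ => (∫ y in -T..T, f (b + y * I)) - ∫ y in -T..T, f (a + y * I))
      atTop (𝓝 0) := by
    have hB2 : Tendsto (fun T => B T * |b - a| + B T * |b - a|) atTop (𝓝 0) := by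
      simpa using (hB.mul_const |b - a|).add (hB.mul_const |b - a|)
    refine squeeze_zero_norm' ?_ hB2
    filter_upwards [hb, eventually_ge_atTop 0] with T hT hT0
    have H := integral_boundary_rect_eq_zero_of_differentiableOn f ⟨a, -T⟩ ⟨b, T⟩ (by
      intro w hw
      have h1 : w.re ∈ Set.uIcc a b := hw.1
      rw [Set.uIcc_of_le hab] at h1
      exact (hd w h1.1 h1.2).differentiableWithinAt)
    have hs : ∀ y : ℝ, |y| = T → ‖∫ x in a..b, f (x + y * I)‖ ≤ B T * |b - a| := fun y hy => by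
      refine intervalIntegral.norm_integral_le_of_norm_le_const fun x hx => ?_
      rw [Set.uIoc_of_le hab] at hx
      exact hT _ (by simpa using hx.1.le) (by simpa using hx.2) (by simpa using hy)
    have e : I * ((∫ y in -T..T, f (b + y * I)) - ∫ y in -T..T, f (a + y * I)) =
        (∫ x in a..b, f (x + T * I)) - ∫ x in a..b, f (x + ((-T : ℝ) : ℂ) * I) := by
      simp only [smul_eq_mul] at H
      linear_combination H
    have e2 := congrArg norm e
    rw [norm_mul, norm_I, one_mul] at e2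
    rw [e2]
    exact (norm_sub_le _ _).trans (add_le_add (hs T (abs_of_nonneg hT0))
      (hs (-T) (by rw [abs_neg, abs_of_nonneg hT0])))
  have := tendsto_nhds_unique (tb.sub ta) t0
  exact (sub_eq_zero.1 this).symm

theorem shift : ShiftStmt := by
  intro f a b M hab hd hb
  refine shift_gen_Res (B := fun T => M / (1 + T ^ 2)) hab hd ?_ ?_ ?_ ?_
  · exact tendsto_const_nhds.div_atTop
      (tendsto_atTop_add_const_left _ _ (tendsto_pow_atTop two_ne_zero))
  · refine Eventually.of_forall fun T w h1 h2 h3 => ?_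
    rw [← h3, sq_abs]
    exact hb w h1 h2
  · exact integrable_line (M := M) (fun v => hd _ (by simp) (by simpa using hab))
      fun v => by simpa using hb (a + v * I) (by simp) (by simpa using hab)
  · exact integrable_line (M := M) (fun v => hd _ (by simpa using hab) (by simp))
      fun v => by simpa using hb (b + v * I) (by simpa using hab) (by simp)

lemma cauchy_Res {μ : ℝ} (hμ : 0 < μ) (t : ℝ) :
    Integrable (fun v : ℝ => μ / (μ ^ 2 + (v - t) ^ 2)) ∧
      ∫ v : ℝ, μ / (μ ^ 2 + (v - t) ^ 2) = π := by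
  have e : (fun v : ℝ => μ / (μ ^ 2 + (v - t) ^ 2)) =
      fun v => μ⁻¹ * (1 + ((v - t) / μ) ^ 2)⁻¹ := by
    funext v
    field_simp
  rw [e]
  refine ⟨((integrable_inv_one_add_sq.comp_div hμ.ne').comp_sub_right t).const_mul _, ?_⟩
  rw [integral_const_mul, integral_sub_right_eq_self (fun u : ℝ => (1 + (u / μ) ^ 2)⁻¹) t,
    Measure.integral_comp_div (fun u : ℝ => (1 + u ^ 2)⁻¹), integral_univ_inv_one_add_sq,
    abs_of_pos hμ, smul_eq_mul, inv_mul_cancel_left₀ hμ.ne']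

/-- the comparison function -/
noncomputable def rr_Res (p : ℂ) (d : ℝ) (w : ℂ) : ℂ := 2 * d / ((w - p) * (w - p + 2 * d))

lemma left_Res (p : ℂ) {d : ℝ} (hd : 0 < d) :
    Integrable (fun v : ℝ => rr_Res p d ((p.re - d : ℝ) + v * I)) ∧
      VI (rr_Res p d) (p.re - d) = -(2 * π) := by
  have e : (fun v : ℝ => rr_Res p d ((p.re - d : ℝ) + v * I)) =
      fun v : ℝ => ((-2 * (d / (d ^ 2 + (v - p.im) ^ 2)) : ℝ) : ℂ) := by
    funext v
    have h1 : (((p.re - d : ℝ) : ℂ) + v * I - p) * (((p.re - d : ℝ) : ℂ) + v * I - p + 2 * d) =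
        -((d ^ 2 + (v - p.im) ^ 2 : ℝ) : ℂ) := by
      apply Complex.ext <;> simp [sq] <;> ring
    unfold rr_Res
    rw [h1, div_neg]
    push_cast
    ring
  obtain ⟨c1, c2⟩ := cauchy_Res hd p.im
  refine ⟨by rw [e]; exact (c1.const_mul _).ofReal, ?_⟩
  unfold VI
  rw [e, integral_complex_ofReal, integral_const_mul, c2]
  push_cast
  ring

lemma right_Res (p : ℂ) {d b : ℝ} (hd : 0 < d) (hb : p.re < b) :
    Integrable (fun v : ℝ => rr_Res p d (b + v * I)) ∧ VI (rr_Res p d) b = 0 := by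
  have he : 0 < b - p.re := sub_pos.2 hb
  have n1 : ∀ v : ℝ, (b : ℂ) + v * I - p ≠ 0 := fun v h => by
    have := congrArg Complex.re h
    simp at this
    linarith
  have n2 : ∀ v : ℝ, (b : ℂ) + v * I - p + 2 * d ≠ 0 := fun v h => by
    have := congrArg Complex.re h
    simp at this
    linarith
  have hi : Integrable fun v : ℝ => rr_Res p d (b + v * I) := by
    refine ((cauchy_Res he p.im).1.const_mul (2 * d / (b - p.re))).mono' ?_
      (Eventually.of_forall fun v => ?_)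
    · refine Continuous.aestronglyMeasurable ?_
      unfold rr_Res
      exact continuous_const.div (by fun_prop) fun v => mul_ne_zero (n1 v) (n2 v)
    · have hp : 0 < (b - p.re) ^ 2 + (v - p.im) ^ 2 := by positivity
      have e1 : (b - p.re) ^ 2 + (v - p.im) ^ 2 ≤ ‖(b : ℂ) + v * I - p‖ ^ 2 := by
        rw [Complex.sq_norm, normSq_apply]; simp; nlinarith
      have e2 : (b - p.re) ^ 2 + (v - p.im) ^ 2 ≤ ‖(b : ℂ) + v * I - p + 2 * d‖ ^ 2 := by
        rw [Complex.sq_norm, normSq_apply]; simp; nlinarith [mul_pos he hd, mul_pos hd hd]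
      have e3 : (b - p.re) ^ 2 + (v - p.im) ^ 2 ≤
          ‖(b : ℂ) + v * I - p‖ * ‖(b : ℂ) + v * I - p + 2 * d‖ := by
        refine le_of_sq_le_sq ?_ (by positivity)
        rw [mul_pow, sq]
        exact mul_le_mul e1 e2 hp.le (by positivity)
      have e4 : ‖(2 * d : ℂ)‖ = 2 * d := by simp [hd.le]
      unfold rr_Res
      rw [norm_div, norm_mul _ (_ + _), e4, div_mul_div_cancel₀ he.ne']
      exact div_le_div_of_nonneg_left (by positivity) hp e3
  refine ⟨hi, ?_⟩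
  have hs : ∀ v : ℝ, 1 - 2 * d / ((b : ℂ) + v * I - p + 2 * d) ∈ slitPlane := fun v => by
    rw [sub_eq_add_neg]
    refine mem_slitPlane_of_norm_lt_one ?_
    rw [norm_neg, norm_div, div_lt_one (norm_pos_iff.2 (n2 v))]
    refine lt_of_lt_of_le ?_ (re_le_norm _)
    simp [abs_of_pos hd]
    linarith
  have hder : ∀ v : ℝ, HasDerivAt
      (fun v : ℝ => -I * log (1 - 2 * d / ((b : ℂ) + v * I - p + 2 * d)))
      (rr_Res p d (b + v * I)) v := fun v => by
    have h1 : HasDerivAt (fun z : ℂ => (b : ℂ) + z * I - p + 2 * d) I v := by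
      simpa using (((hasDerivAt_id (v : ℂ)).mul_const I).const_add (b : ℂ)).sub_const p
        |>.add_const (2 * d : ℂ)
    have h2 := ((((hasDerivAt_const (v : ℂ) (2 * d : ℂ)).div h1 (n2 v)).const_sub 1).clog
      (hs v)).const_mul (-I)
    have h3 := h2.comp_ofReal
    refine h3.congr_deriv ?_
    have n1' := n1 v
    have n2' := n2 v
    have e : 1 - 2 * d / ((b : ℂ) + v * I - p + 2 * d) =
        ((b : ℂ) + v * I - p) / ((b : ℂ) + v * I - p + 2 * d) := by
      field_simp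
      ring
    unfold rr_Res
    simp only [Pi.div_apply]
    rw [e]
    generalize (b : ℂ) + v * I - p = z at n1' n2'
    have e2 : (2 * d : ℂ) = -(I * I) * (2 * d) := by rw [I_mul_I]; ring
    conv_rhs => rw [e2, ← e2]; enter [1]; rw [e2]
    field_simp
    ring
  have hlim : ∀ l : Filter ℝ, Tendsto (fun v : ℝ => |v|) l atTop → Tendsto
      (fun v : ℝ => -I * log (1 - 2 * d / ((b : ℂ) + v * I - p + 2 * d))) l (𝓝 0) := fun l hl => by
    have h1 : Tendsto (fun v : ℝ => 2 * d / ((b : ℂ) + v * I - p + 2 * d)) l (𝓝 0) := by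
      refine squeeze_zero_norm' (a := fun v => ‖(2 * d : ℂ)‖ / (|v| - |p.im|)) ?_
        (tendsto_const_nhds.div_atTop (tendsto_atTop_add_const_right _ _ hl))
      filter_upwards [hl.eventually_gt_atTop |p.im|] with v hv
      rw [norm_div]
      refine div_le_div_of_nonneg_left (norm_nonneg _) (sub_pos.2 hv) ?_
      refine le_trans ?_ (abs_im_le_norm _)
      simpa using abs_sub_abs_le_abs_sub v p.im
    have h2 := ((h1.const_sub 1).clog (by simp)).const_mul (-I)
    simpa using h2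
  unfold VI
  rw [integral_of_hasDerivAt_of_tendsto hder hi (hlim _ tendsto_abs_atBot_atTop)
    (hlim _ tendsto_abs_atTop_atTop), sub_zero]

theorem res (_hS : ShiftStmt) : ResStmt := by
  intro G a b M p ha hb hd hM
  have hab : a ≤ b := (ha.trans hb).le
  obtain ⟨d, hd0, rfl⟩ : ∃ d : ℝ, 0 < d ∧ a = p.re - d := ⟨p.re - a, sub_pos.2 ha, by ring⟩
  have n2 : ∀ w : ℂ, p.re - d ≤ w.re → w - p + 2 * d ≠ 0 := fun w hw h => by
    have := congrArg Complex.re h
    simp at this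
    linarith
  have he : ∀ w : ℂ, p.re - d ≤ w.re → w ≠ p → dslope G p w + G p / (w - p + 2 * d) =
      G w / (w - p) - G p * rr_Res p d w := fun w hw hp => by
    have := n2 w hw
    have h1 := sub_ne_zero.2 hp
    rw [dslope_of_ne _ hp, slope_def_field]
    unfold rr_Res
    field_simp
    ring
  have hline : ∀ c : ℝ, p.re - d ≤ c → c ≤ b → c ≠ p.re →
      (∀ v : ℝ, (c : ℂ) + v * I ≠ p) ∧
      Integrable fun v : ℝ => G (c + v * I) / (c + v * I - p) := fun c h1 h2 h3 => by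
    have h4 : ∀ v : ℝ, (c : ℂ) + v * I ≠ p := fun v h => h3 (by simpa using congrArg Complex.re h)
    have h5 : 0 < |c - p.re| := abs_pos.2 (sub_ne_zero.2 h3)
    refine ⟨h4, integrable_line (f := fun w => G w / (w - p)) (M := M / |c - p.re|)
      (fun v => (hd _ (by simpa using h1) (by simpa using h2)).div (by fun_prop)
        (sub_ne_zero.2 (h4 v))) fun v => ?_⟩
    have h6 := hM (c + v * I) (by simpa using h1) (by simpa using h2)
    rw [norm_div, div_right_comm]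
    refine div_le_div₀ ((norm_nonneg _).trans (by simpa using h6)) (by simpa using h6) h5 ?_
    simpa using abs_re_le_norm ((c : ℂ) + v * I - p)
  obtain ⟨a1, a2⟩ := hline _ le_rfl hab ha.ne
  obtain ⟨b1, b2⟩ := hline _ hab le_rfl hb.ne'
  obtain ⟨l1, l2⟩ := left_Res p hd0
  obtain ⟨r1, r2⟩ := right_Res p hd0 hb
  have ea : (fun v : ℝ => dslope G p ((p.re - d : ℝ) + v * I) +
      G p / ((p.re - d : ℝ) + v * I - p + 2 * d)) = fun v : ℝ =>
      G ((p.re - d : ℝ) + v * I) / ((p.re - d : ℝ) + v * I - p) -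
        G p * rr_Res p d ((p.re - d : ℝ) + v * I) :=
    funext fun v => he _ (by simp) (a1 v)
  have eb : (fun v : ℝ => dslope G p (b + v * I) + G p / (b + v * I - p + 2 * d)) = fun v : ℝ =>
      G (b + v * I) / (b + v * I - p) - G p * rr_Res p d (b + v * I) :=
    funext fun v => he _ (by simpa using hab) (b1 v)
  have hM0 : 0 ≤ M := by
    have := (norm_nonneg _).trans (hM p ha.le hb.le)
    exact (div_nonneg_iff.1 this).elim (fun h => h.1) fun h => by nlinarith [h.2, sq_nonneg p.im]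
  have key := shift_gen_Res (f := fun w => dslope G p w + G p / (w - p + 2 * d))
    (B := fun T => (M + ‖G p‖ * ‖(2 * d : ℂ)‖) / (T - |p.im|)) hab ?_
    (tendsto_const_nhds.div_atTop (tendsto_atTop_add_const_right _ _ tendsto_id)) ?_
    (by rw [ea]; exact a2.sub (l1.const_mul _)) (by rw [eb]; exact b2.sub (r1.const_mul _))
  · unfold VI at key l2 r2 ⊢
    rw [ea, eb, integral_sub a2 (l1.const_mul _), integral_sub b2 (r1.const_mul _),
      integral_const_mul, integral_const_mul, l2, r2] at key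
    linear_combination -key
  · intro w h1 h2
    refine DifferentiableAt.add ?_ ((differentiableAt_const _).div (by fun_prop) (n2 w h1))
    by_cases hp : w = p
    · subst hp
      have hs : {z : ℂ | w.re - d < z.re ∧ z.re < b} ∈ 𝓝 w :=
        ((isOpen_lt continuous_const continuous_re).inter
          (isOpen_lt continuous_re continuous_const)).mem_nhds ⟨ha, hb⟩
      exact ((differentiableOn_dslope hs).2 fun z hz =>
        (hd z hz.1.le hz.2.le).differentiableWithinAt).differentiableAt hs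
    · exact (differentiableAt_dslope_of_ne hp).2 (hd w h1 h2)
  · filter_upwards [eventually_ge_atTop (|p.im| + 1)] with T hT w h1 h2 h3
    have h4 : T - |p.im| ≤ |w.im - p.im| := h3 ▸ abs_sub_abs_le_abs_sub w.im p.im
    have h5 : T - |p.im| ≤ ‖w - p‖ := h4.trans (by simpa using abs_im_le_norm (w - p))
    have h6 : 1 ≤ ‖w - p + 2 * d‖ :=
      le_trans (by linarith) (h4.trans (by simpa using abs_im_le_norm (w - p + 2 * d)))
    have h7 : 0 < T - |p.im| := by linarith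
    have hp : w ≠ p := fun h => by
      rw [h, sub_self, norm_zero] at h5
      linarith
    rw [he w h1 hp, add_div]
    refine (norm_sub_le _ _).trans (add_le_add ?_ ?_)
    · rw [norm_div]
      refine div_le_div₀ hM0 ((hM w h1 h2).trans (div_le_self hM0 ?_)) h7 h5
      nlinarith [sq_nonneg w.im]
    · unfold rr_Res
      rw [norm_mul, norm_div, norm_mul (w - p), mul_div_assoc]
      refine mul_le_mul_of_nonneg_left ?_ (norm_nonneg _)
      exact div_le_div_of_nonneg_left (norm_nonneg _) h7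
        (h5.trans (le_mul_of_one_le_right (norm_nonneg _) h6))

end Pool.Agent.MP_d232b3_nt.Z

end

section

set_option autoImplicit false

open Complex MeasureTheory
open scoped Real ComplexConjugate

namespace Pool.Agent.MP_d232b3_nt.Z

open Filter Topology

/-- holomorphic with quadratic decay on a right half plane -/
def Dec_Ker (g : ℂ → ℂ) (c M : ℝ) : Prop :=
  ∀ w : ℂ, c ≤ w.re → DifferentiableAt ℂ g w ∧ ‖g w‖ ≤ M / ‖w‖ ^ 2

lemma nsq_Ker (w : ℂ) : ‖w‖ ^ 2 = w.re ^ 2 + w.im ^ 2 := by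
  rw [Complex.sq_norm, normSq_apply]
  ring

lemma Dec_Ker.nonneg {g : ℂ → ℂ} {c M : ℝ} (h : Dec_Ker g c M) (hc : 1 ≤ c) : 0 ≤ M := by
  have h1 := (norm_nonneg _).trans (h c (by simp)).2
  have h2 : 0 < ‖(c : ℂ)‖ ^ 2 := by
    rw [nsq_Ker]
    simp
    positivity
  exact (div_nonneg_iff.1 h1).elim (fun h => h.1) fun h => absurd h.2 (not_le.2 h2)

lemma Dec_Ker.bd {g : ℂ → ℂ} {c M : ℝ} (h : Dec_Ker g c M) (hc : 1 ≤ c) {w : ℂ} (hw : c ≤ w.re) :
    ‖g w‖ ≤ M / (1 + w.im ^ 2) := by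
  refine (h w hw).2.trans (div_le_div_of_nonneg_left (h.nonneg hc) (by positivity) ?_)
  rw [nsq_Ker]
  nlinarith

lemma Dec_Ker.int {g : ℂ → ℂ} {c M : ℝ} (h : Dec_Ker g c M) (hc : 1 ≤ c) {a : ℝ} (ha : c ≤ a)
    (u : ℝ) : Integrable fun v : ℝ => g (a + v * I) * cexp (u * (a + v * I)) := by
  refine integrable_line (f := fun z => g z * cexp (u * z)) (M := M * Real.exp (u * a))
    (fun v => ((h _ (by simpa using ha)).1.mul (by fun_prop))) fun v => ?_
  have h1 := h.bd hc (w := a + v * I) (by simpa using ha)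
  rw [norm_mul, norm_exp, mul_div_right_comm]
  simp only [add_im, ofReal_im, mul_im, ofReal_re, I_im, I_re, mul_one, mul_zero, add_zero,
    zero_add] at h1
  simpa using mul_le_mul_of_nonneg_right h1 (Real.exp_pos (u * a)).le

lemma van_Ker (hS : ShiftStmt) {g : ℂ → ℂ} {c M : ℝ} (h : Dec_Ker g c M) (hc : 1 ≤ c) {u : ℝ}
    (hu : u ≤ 0) : VI (fun z => g z * cexp (u * z)) c = 0 := by
  have he : ∀ w : ℂ, c ≤ w.re → ‖g w * cexp (u * w)‖ ≤ ‖g w‖ := fun w hw => by
    rw [norm_mul, norm_exp]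
    refine mul_le_of_le_one_right (norm_nonneg _) (Real.exp_le_one_iff.2 ?_)
    simp only [mul_re, ofReal_re, ofReal_im, zero_mul, sub_zero]
    nlinarith
  have h1 : ∀ᶠ R : ℝ in atTop, VI (fun z => g z * cexp (u * z)) c =
      ∫ v : ℝ, g (R + v * I) * cexp (u * (R + v * I)) := by
    filter_upwards [eventually_ge_atTop c] with R hR
    exact hS _ c R M hR (fun w hw _ => (h w hw).1.mul (by fun_prop))
      fun w hw _ => (he w hw).trans (h.bd hc hw)
  have h2 := tendsto_integral_filter_of_dominated_convergence (μ := volume) (l := atTop)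
    (F := fun (R : ℝ) (v : ℝ) => g (R + v * I) * cexp (u * (R + v * I))) (f := fun _ => 0)
    (fun v => M * (1 + v ^ 2)⁻¹) ?_ ?_ (integrable_inv_one_add_sq.const_mul M) ?_
  · rw [integral_zero] at h2
    exact tendsto_nhds_unique (tendsto_const_nhds.congr' h1) h2
  · filter_upwards [eventually_ge_atTop c] with R hR
    exact (h.int hc hR u).aestronglyMeasurable
  · filter_upwards [eventually_ge_atTop c] with R hR
    refine Eventually.of_forall fun v => ?_
    have := (he (R + v * I) (by simpa using hR)).trans (h.bd hc (by simpa using hR))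
    simpa [div_eq_mul_inv] using this
  · refine Eventually.of_forall fun v => ?_
    refine squeeze_zero_norm' ?_ (tendsto_const_nhds.div_atTop (a := M)
      (tendsto_pow_atTop (n := 2) (by norm_num)))
    filter_upwards [eventually_ge_atTop c] with R hR
    refine (he (R + v * I) (by simpa using hR)).trans ((h _ (by simpa using hR)).2.trans
      (div_le_div_of_nonneg_left (h.nonneg hc) (by nlinarith) ?_))
    rw [nsq_Ker]
    simp
    positivity

lemma ne_Ker {c l : ℝ} (hc : 1 ≤ c) (hl : 0 ≤ l) {w : ℂ} (hw : c ≤ w.re) : 1 ≤ ‖w + l‖ := by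
  have := re_le_norm (w + l)
  simp only [add_re, ofReal_re] at this
  linarith

lemma Dec_Ker.step {g : ℂ → ℂ} {c M : ℝ} (h : Dec_Ker g c M) (hc : 1 ≤ c) {l : ℝ} (hl : 0 ≤ l) :
    Dec_Ker (fun z => g z / (z + l)) c M := fun w hw => by
  have h1 := ne_Ker hc hl hw
  refine ⟨(h w hw).1.div (by fun_prop) (norm_pos_iff.1 (by linarith)), ?_⟩
  rw [norm_div]
  exact (div_le_self (norm_nonneg _) h1).trans (h w hw).2

/-- the transform is real and nonnegative -/
def Pos_Ker (g : ℂ → ℂ) (c : ℝ) : Prop := ∀ u : ℝ,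
  (VI (fun z => g z * cexp (u * z)) c).im = 0 ∧ 0 ≤ (VI (fun z => g z * cexp (u * z)) c).re

lemma step_Ker (hS : ShiftStmt) {g : ℂ → ℂ} {c M : ℝ} (h : Dec_Ker g c M) (hc : 1 ≤ c) {l : ℝ}
    (hl : 0 ≤ l) (hp : Pos_Ker g c) : Pos_Ker (fun z => g z / (z + l)) c := by
  have h' := h.step hc hl
  have e0 : ∀ (f : ℂ → ℂ) (u : ℝ), (fun v : ℝ => f (c + v * I) * cexp (u * (c + v * I + l))) =
      fun v : ℝ => (Real.exp (u * l) : ℝ) * (f (c + v * I) * cexp (u * (c + v * I))) := by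
    intro f u
    funext v
    rw [mul_add (u : ℂ), exp_add]
    push_cast
    ring
  have hd : ∀ u : ℝ, HasDerivAt (fun x : ℝ => ((Real.exp (x * l) : ℝ) : ℂ) *
      VI (fun z => g z / (z + l) * cexp (x * z)) c)
      ((Real.exp (u * l) : ℝ) * VI (fun z => g z * cexp (u * z)) c) u := by
    intro u
    have := (hasDerivAt_integral_of_dominated_loc_of_deriv_le (μ := volume)
      (F := fun (x : ℝ) (v : ℝ) => g (c + v * I) / (c + v * I + l) * cexp (x * (c + v * I + l)))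
      (F' := fun (x : ℝ) (v : ℝ) => g (c + v * I) * cexp (x * (c + v * I + l)))
      (bound := fun v => M * Real.exp ((u + 1) * (c + l)) * (1 + v ^ 2)⁻¹)
      (Iio_mem_nhds (lt_add_one u)) (Eventually.of_forall fun x => ?_) ?_ ?_
      (Eventually.of_forall fun v x hx => ?_) (integrable_inv_one_add_sq.const_mul _)
      (Eventually.of_forall fun v x _ => ?_)).2
    · simp only [e0 g, e0 (fun z => g z / (z + l)), integral_const_mul] at this
      exact this
    · rw [e0 (fun z => g z / (z + l))]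
      exact ((h'.int hc le_rfl x).const_mul _).aestronglyMeasurable
    · rw [e0 (fun z => g z / (z + l))]
      exact (h'.int hc le_rfl u).const_mul _
    · rw [e0 g]
      exact ((h.int hc le_rfl u).const_mul _).aestronglyMeasurable
    · have h1 := h.bd hc (w := c + v * I) (by simp)
      have h2 : Real.exp (x * (c + l)) ≤ Real.exp ((u + 1) * (c + l)) :=
        Real.exp_le_exp.2 (mul_le_mul_of_nonneg_right (le_of_lt hx) (by linarith))
      have h3 := mul_le_mul h1 h2 (Real.exp_pos _).le ((norm_nonneg _).trans h1)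
      rw [norm_mul, norm_exp, mul_right_comm, ← div_eq_mul_inv]
      simpa using h3
    · have h1 : (c : ℂ) + v * I + l ≠ 0 :=
        norm_pos_iff.1 (by linarith [ne_Ker hc hl (w := c + v * I) (by simp)])
      have h2 : HasDerivAt (fun y : ℂ => g (c + v * I) / (c + v * I + l) *
          cexp (y * (c + v * I + l))) (g (c + v * I) / (c + v * I + l) *
            (cexp (x * (c + v * I + l)) * (1 * (c + v * I + l)))) x :=
        (((hasDerivAt_id (x : ℂ)).mul_const _).cexp).const_mul _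
      refine h2.comp_ofReal.congr_deriv ?_
      field_simp
  have z0 := van_Ker hS h' hc (le_refl 0)
  have hre := monotone_of_hasDerivAt_nonneg
    (fun u => (reCLM.hasFDerivAt.comp_hasDerivAt u (hd u))) fun u => by
      simp only [reCLM_apply, re_ofReal_mul, Pi.zero_apply]
      exact mul_nonneg (Real.exp_pos _).le (hp u).2
  have him := is_const_of_deriv_eq_zero
    (fun u => (imCLM.hasFDerivAt.comp_hasDerivAt u (hd u)).differentiableAt) fun u => by
      rw [(imCLM.hasFDerivAt.comp_hasDerivAt u (hd u)).deriv]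
      simp only [imCLM_apply, im_ofReal_mul, (hp u).1, mul_zero]
  intro u
  rcases le_total u 0 with hu | hu
  · rw [van_Ker hS h' hc hu]
    simp
  · have h1 := hre hu
    have h2 := him u 0
    simp only [Function.comp_apply, reCLM_apply, imCLM_apply, z0, mul_zero, zero_re, zero_im,
      re_ofReal_mul, im_ofReal_mul] at h1 h2
    exact ⟨(mul_eq_zero.1 h2).resolve_left (Real.exp_pos _).ne',
      (mul_nonneg_iff_of_pos_left (Real.exp_pos _)).1 h1⟩

lemma dec0_Ker {c σ : ℝ} (hc : 1 ≤ c) (hσ : 0 ≤ σ) :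
    Dec_Ker (fun z => 1 / (z + σ) ^ 2) c 1 := fun w hw => by
  have h1 := ne_Ker hc hσ hw
  have h2 := ne_Ker hc le_rfl hw
  simp only [ofReal_zero, add_zero] at h2
  refine ⟨DifferentiableAt.div (by fun_prop) (by fun_prop)
    (pow_ne_zero _ (norm_pos_iff.1 (by linarith))), ?_⟩
  rw [norm_div, norm_one, norm_pow]
  refine div_le_div_of_nonneg_left zero_le_one (by positivity) ?_
  rw [nsq_Ker, nsq_Ker]
  simp only [add_re, ofReal_re, add_im, ofReal_im, add_zero]
  nlinarith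

lemma base_Ker (hS : ShiftStmt) : Pos_Ker (fun z => 1 / (z + (0 : ℝ)) ^ 2) 3 := by
  have hD := dec0_Ker (c := 3) (σ := 0) (by norm_num) le_rfl
  intro u
  rcases le_total u 0 with hu | hu
  · rw [van_Ker hS hD (by norm_num) hu]
    simp
  obtain ⟨φ, hφ⟩ : ∃ φ : ℂ → ℂ, φ = fun w => cexp (u / 2 * w) - cexp (-(u / 2 * w)) := ⟨_, rfl⟩
  have h1 : Differentiable ℂ (dslope φ 0) := differentiableOn_univ.1
    ((differentiableOn_dslope univ_mem).2 (by rw [hφ]; fun_prop))
  have h2 : ∀ w : ℂ, w ≠ 0 → dslope φ 0 w ^ 2 =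
      (cexp (u * w) + cexp (-(u * w)) - 2) / w ^ 2 := fun w hw => by
    have e1 : cexp (u * w) = cexp (u / 2 * w) ^ 2 := by
      rw [sq, ← exp_add]
      congr 1
      ring
    rw [dslope_of_ne _ hw, slope_def_field, hφ, exp_neg (u * w), e1]
    simp only [exp_neg, mul_zero, exp_zero, inv_one, sub_self, sub_zero]
    have := exp_ne_zero (u / 2 * w)
    field_simp
    ring
  obtain ⟨K, hK⟩ := (isCompact_closedBall (0 : ℂ) 4).exists_bound_of_continuousOn
    (h1.pow 2).continuous.continuousOn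
  have K0 : 0 ≤ K := (norm_nonneg _).trans (hK 0 (by simp))
  have h3 := hS (fun w => dslope φ 0 w ^ 2) 0 3 (2 * K + 2 * (Real.exp (u * 3) + 3)) (by norm_num)
    (fun w _ _ => (h1.pow 2) w) fun w w0 w3 => by
      have e0 := Real.exp_pos (u * 3)
      rw [le_div_iff₀ (by positivity)]
      rcases le_total (w.im ^ 2) 1 with hw | hw
      · have := hK w (by
          rw [mem_closedBall_zero_iff]
          refine le_of_sq_le_sq ?_ (by norm_num)
          rw [nsq_Ker]
          nlinarith)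
        simp only [Pi.pow_apply] at this
        nlinarith [norm_nonneg (dslope φ 0 w ^ 2)]
      · have e1 : 1 ≤ ‖w‖ ^ 2 := by rw [nsq_Ker]; nlinarith
        have e2 : w ≠ 0 := by
          rintro rfl
          norm_num at e1
        have e3 : ‖cexp (u * w) + cexp (-(u * w)) - 2‖ ≤ Real.exp (u * 3) + 3 := by
          refine (norm_sub_le _ _).trans ((add_le_add (norm_add_le _ _) le_rfl).trans ?_)
          have f1 : Real.exp (u * w.re) ≤ Real.exp (u * 3) := by gcongr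
          have f2 : Real.exp (-(u * w.re)) ≤ 1 :=
            Real.exp_le_one_iff.2 (neg_nonpos.2 (mul_nonneg hu w0))
          simp only [norm_exp, neg_re, re_ofReal_mul, norm_ofNat]
          linarith
        rw [h2 w e2, norm_div, norm_pow, div_mul_eq_mul_div, div_le_iff₀ (by linarith)]
        have e4 : 1 + w.im ^ 2 ≤ 2 * ‖w‖ ^ 2 := by rw [nsq_Ker]; nlinarith
        have e5 := mul_le_mul e3 e4 (by positivity) (by positivity)
        nlinarith
  have h4 : VI (fun w => dslope φ 0 w ^ 2) 3 =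
      VI (fun z => 1 / (z + (0 : ℝ)) ^ 2 * cexp (u * z)) 3 +
      VI (fun z => 1 / (z + (0 : ℝ)) ^ 2 * cexp ((-u : ℝ) * z)) 3 -
      2 * VI (fun z => 1 / (z + (0 : ℝ)) ^ 2 * cexp ((0 : ℝ) * z)) 3 := by
    have i1 := hD.int (by norm_num) le_rfl u
    have i2 := hD.int (by norm_num) le_rfl (-u)
    have i3 := hD.int (by norm_num) le_rfl 0
    unfold VI
    rw [← integral_add i1 i2, ← integral_const_mul]
    refine Eq.trans ?_ (integral_sub (i1.add i2) (i3.const_mul 2))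
    congr 1
    funext v
    beta_reduce
    rw [h2 _ fun h => by simpa using congrArg Complex.re h]
    simp only [ofReal_zero, add_zero, ofReal_neg, neg_mul, zero_mul, exp_zero, Pi.add_apply]
    ring
  rw [van_Ker hS hD (by norm_num) (neg_nonpos.2 hu), van_Ker hS hD (by norm_num) le_rfl,
    add_zero, mul_zero, sub_zero] at h4
  have h5 : VI (fun w => dslope φ 0 w ^ 2) 0 =
      ((∫ v : ℝ, (2 - 2 * Real.cos (u * v)) / v ^ 2 : ℝ) : ℂ) := by
    rw [← integral_complex_ofReal]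
    refine integral_congr_ae ?_
    filter_upwards [compl_mem_ae_iff.2 (Real.volume_singleton (a := 0))] with v hv
    have v0 : (v : ℂ) ≠ 0 := ofReal_ne_zero.2 hv
    rw [h2 _ (by simpa using hv)]
    simp only [ofReal_zero, zero_add, mul_pow, I_sq]
    push_cast
    rw [Complex.cos, ← mul_assoc, neg_mul]
    field_simp
    ring
  rw [← h4, ← h3, h5]
  refine ⟨ofReal_im _, ?_⟩
  rw [ofReal_re]
  exact integral_nonneg fun v => div_nonneg (by linarith [Real.cos_le_one (u * v)]) (sq_nonneg v)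

theorem ker (hS : ShiftStmt) : KerStmt := by
  intro σ h1 h2
  have hc : 1 ≤ 3 - σ := by linarith
  have hD := dec0_Ker hc (show 0 ≤ σ by linarith)
  have p0 : Pos_Ker (fun z => 1 / (z + σ) ^ 2) (3 - σ) := fun u => by
    have e : VI (fun z => 1 / (z + σ) ^ 2 * cexp (u * z)) (3 - σ) = (Real.exp (-(u * σ)) : ℝ) *
        VI (fun z => 1 / (z + (0 : ℝ)) ^ 2 * cexp (u * z)) 3 := by
      unfold VI
      rw [← integral_const_mul]
      congr 1
      funext v
      push_cast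
      rw [mul_left_comm, ← exp_add]
      congr 2 <;> ring
    rw [e, im_ofReal_mul, re_ofReal_mul, (base_Ker hS u).1]
    exact ⟨mul_zero _, mul_nonneg (Real.exp_pos _).le (base_Ker hS u).2⟩
  have l0 : 0 ≤ 2 * σ - 1 := by linarith
  have p1 := step_Ker hS hD hc l0 p0
  have p2 := step_Ker hS (hD.step hc l0) hc le_rfl p1
  have e : ∀ u : ℝ, VI (fun z => kk σ z * cexp (u * z)) (3 - σ) = (((2 * σ - 1) * σ ^ 2 : ℝ) : ℂ) *
      VI (fun z => 1 / (z + σ) ^ 2 / (z + (2 * σ - 1 : ℝ)) / (z + (0 : ℝ)) * cexp (u * z))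
        (3 - σ) := fun u => by
    unfold VI kk k1
    rw [← integral_const_mul]
    congr 1
    funext v
    simp only [ofReal_zero, add_zero, div_eq_mul_inv, mul_inv]
    ring
  refine ⟨fun u => (VI (fun z => kk σ z * cexp (u * z)) (3 - σ)).re, fun u => ?_, fun u hu => ?_,
    fun u => ?_⟩
  · simp only [e, re_ofReal_mul]
    exact mul_nonneg (by positivity) (p2 u).2
  · simp only [e, van_Ker hS ((hD.step hc l0).step hc le_rfl) hc hu, mul_zero, zero_re]
  · refine Complex.ext (ofReal_re _).symm ?_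
    rw [ofReal_im, e, im_ofReal_mul, (p2 u).1, mul_zero]

end Pool.Agent.MP_d232b3_nt.Z

end

section

set_option autoImplicit false

open Complex MeasureTheory
open scoped Real ComplexConjugate

namespace Pool.Agent.MP_d232b3_nt.Z

lemma norm_term_Dir (f : ℕ → ℂ) (v : ℝ) (n : ℕ) :
    ‖LSeries.term f (((3 : ℝ) : ℂ) + v * I) n‖ = ‖LSeries.term f 3 n‖ := by
  rw [LSeries.norm_term_eq, LSeries.norm_term_eq]
  simp

lemma cont_term_Dir (f : ℕ → ℂ) (n : ℕ) :
    Continuous fun v : ℝ => LSeries.term f (((3 : ℝ) : ℂ) + v * I) n := by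
  rcases eq_or_ne n 0 with rfl | hn
  · simpa only [LSeries.term_zero] using continuous_const
  · have hn' : (n : ℂ) ≠ 0 := by exact_mod_cast hn
    simp only [LSeries.term_of_ne_zero hn, Complex.cpow_def_of_ne_zero hn', div_eq_mul_inv,
      ← Complex.exp_neg]
    fun_prop

lemma integrable_KK_Dir {σ : ℝ} (t X : ℝ) (hσ : 1 / 2 < σ) (hσ2 : σ ≤ 2) :
    Integrable fun v : ℝ => KK σ t X (((3 : ℝ) : ℂ) + v * I) := by
  refine integrable_line (M := 24 * (1 + t ^ 2) * Real.exp (X * (3 - σ))) (fun v => ?_)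
    fun v => ?_
  · refine diff_KK ?_ ?_ ?_ <;> simp <;> linarith
  · rw [norm_KK]
    have h := norm_kk_le (σ := σ) (μ := 1) (z := ((3 : ℝ) : ℂ) + v * I - (σ + t * I)) hσ hσ2
      one_pos (by simp; rw [le_abs]; left; linarith) (by simp; rw [le_abs]; left; linarith)
      (by simp)
    have e1 : (((3 : ℝ) : ℂ) + v * I - (σ + t * I)).im = v - t := by simp
    have e2 : (((3 : ℝ) : ℂ) + v * I).re = 3 := by simp
    rw [e1, one_pow] at h
    rw [e2, mul_div_right_comm]
    refine mul_le_mul_of_nonneg_right (h.trans ?_) (Real.exp_pos _).le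
    rw [div_le_div_iff₀ (by positivity) (by positivity)]
    have h1 := one_add_sq_le v t
    have h2 : 1 + (v - t) ^ 2 ≤ (1 + (v - t) ^ 2) ^ 2 := by nlinarith [sq_nonneg (v - t)]
    have h3 : 2 * (1 + t ^ 2) * (1 + (v - t) ^ 2) ≤ 2 * (1 + t ^ 2) * (1 + (v - t) ^ 2) ^ 2 :=
      mul_le_mul_of_nonneg_left h2 (by positivity)
    linarith

lemma term_KK_Dir (f : ℕ → ℂ) (σ t X v : ℝ) {n : ℕ} (hn : n ≠ 0) :
    LSeries.term f (((3 : ℝ) : ℂ) + ((v + t : ℝ) : ℂ) * I) n *
        KK σ t X (((3 : ℝ) : ℂ) + ((v + t : ℝ) : ℂ) * I) =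
      f n * cexp (-((Real.log n : ℝ) * (σ + t * I))) *
        (kk σ (((3 - σ : ℝ) : ℂ) + v * I) *
          cexp (((X - Real.log n : ℝ) : ℂ) * (((3 - σ : ℝ) : ℂ) + v * I))) := by
  have hn' : (n : ℂ) ≠ 0 := by exact_mod_cast hn
  have e : ((3 : ℝ) : ℂ) + ((v + t : ℝ) : ℂ) * I - (σ + t * I) = ((3 - σ : ℝ) : ℂ) + v * I := by
    push_cast
    ring
  rw [LSeries.term_of_ne_zero hn, Complex.cpow_def_of_ne_zero hn', div_eq_mul_inv,
    ← Complex.exp_neg, ← Complex.natCast_log]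
  unfold KK
  rw [e]
  have e2 : cexp (-(((Real.log n : ℝ) : ℂ) * (((3 : ℝ) : ℂ) + ((v + t : ℝ) : ℂ) * I))) *
      cexp (X * (((3 - σ : ℝ) : ℂ) + v * I)) = cexp (-((Real.log n : ℝ) * (σ + t * I))) *
        cexp (((X - Real.log n : ℝ) : ℂ) * (((3 - σ : ℝ) : ℂ) + v * I)) := by
    rw [← Complex.exp_add, ← Complex.exp_add]
    congr 1
    push_cast
    ring
  linear_combination (f n * kk σ (((3 - σ : ℝ) : ℂ) + v * I)) * e2

lemma hasSum_Dir {σ : ℝ} (hσ : 1 / 2 < σ) (hσ2 : σ ≤ 2) {om : ℝ → ℝ}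
    (hom : ∀ u : ℝ, VI (fun z => kk σ z * cexp (u * z)) (3 - σ) = ((om u : ℝ) : ℂ)) (t X : ℝ) :
    HasSum (fun n : ℕ => (ArithmeticFunction.vonMangoldt n : ℂ) *
        cexp (-((Real.log n : ℝ) * (σ + t * I))) * ((om (X - Real.log n) : ℝ) : ℂ))
      (VI (fun w => LL w * KK σ t X w) 3) := by
  set f : ℕ → ℂ := fun n => (ArithmeticFunction.vonMangoldt n : ℂ) with hf
  have hs : Summable fun n => ‖LSeries.term f 3 n‖ :=
    summable_norm_iff.2 (ArithmeticFunction.LSeriesSummable_vonMangoldt (s := 3) (by norm_num))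
  have hG := integrable_KK_Dir t X hσ hσ2
  have hint : ∀ n, Integrable fun v : ℝ =>
      LSeries.term f (((3 : ℝ) : ℂ) + v * I) n * KK σ t X (((3 : ℝ) : ℂ) + v * I) := fun n =>
    hG.bdd_mul (c := ‖LSeries.term f 3 n‖) (cont_term_Dir f n).aestronglyMeasurable
      (Filter.Eventually.of_forall fun v => (norm_term_Dir f v n).le)
  have hsum : Summable fun n => ∫ v : ℝ,
      ‖LSeries.term f (((3 : ℝ) : ℂ) + v * I) n * KK σ t X (((3 : ℝ) : ℂ) + v * I)‖ := by
    simp only [norm_mul, norm_term_Dir, integral_const_mul]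
    exact hs.mul_right _
  have h1 := hasSum_integral_of_summable_integral_norm hint hsum
  simp only [tsum_mul_right] at h1
  have h2 : ∀ n : ℕ, ∫ v : ℝ,
      LSeries.term f (((3 : ℝ) : ℂ) + v * I) n * KK σ t X (((3 : ℝ) : ℂ) + v * I) =
        f n * cexp (-((Real.log n : ℝ) * (σ + t * I))) * ((om (X - Real.log n) : ℝ) : ℂ) := by
    intro n
    rcases eq_or_ne n 0 with rfl | hn
    · simp [hf]
    · rw [← integral_add_right_eq_self _ t]
      simp only [term_KK_Dir f σ t X _ hn]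
      rw [integral_const_mul, ← hom]
      rfl
  simp only [h2] at h1
  exact h1

theorem dir (hK : KerStmt) : DirStmt := by
  intro σ t X hσ hσ2
  obtain ⟨om, h0, -, hom⟩ := hK σ hσ hσ2
  have h1 := Complex.hasSum_re (hasSum_Dir hσ hσ2 hom 0 X)
  refine (hasSum_Dir hσ hσ2 hom t X).norm_le_of_bounded h1 fun n => le_of_eq ?_
  have e : -(((Real.log n : ℝ) : ℂ) * (σ + ((0 : ℝ) : ℂ) * I)) =
      ((-(Real.log n * σ) : ℝ) : ℂ) := by
    push_cast
    ring
  have e2 : (-(((Real.log n : ℝ) : ℂ) * (σ + t * I))).re = -(Real.log n * σ) := by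
    simp only [neg_re, mul_re, add_re, ofReal_re, ofReal_im, I_re, I_im, zero_mul, mul_zero,
      sub_zero, add_zero, mul_one]
  rw [e, ← ofReal_exp, ← ofReal_mul, ← ofReal_mul, ofReal_re, norm_mul, norm_mul, norm_exp, e2,
    norm_real, norm_real, Real.norm_of_nonneg (h0 _),
    Real.norm_of_nonneg ArithmeticFunction.vonMangoldt_nonneg]

end Pool.Agent.MP_d232b3_nt.Z

end

section

set_option autoImplicit false

open Complex MeasureTheory
open scoped Real ComplexConjugate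

namespace Pool.Agent.MP_d232b3_nt.Z

lemma digamma_conj_Dig (s : ℂ) : digamma (conj s) = conj (digamma s) := by
  have h : (conj ∘ Gamma ∘ conj : ℂ → ℂ) = Gamma := by
    funext z
    simp [Complex.Gamma_conj]
  have h2 : deriv Gamma (conj s) = conj (deriv Gamma s) := by
    conv_lhs => rw [← h, deriv_conj_conj]
    simp
  rw [digamma_def, logDeriv_apply, logDeriv_apply, h2, Complex.Gamma_conj, map_div₀]

lemma contDigamma_Dig {s : ℂ} (hs : 0 < s.re) : ContinuousAt digamma s := by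
  have ho : IsOpen {z : ℂ | 0 < z.re} := isOpen_lt continuous_const continuous_re
  have hd : DifferentiableOn ℂ Gamma {z : ℂ | 0 < z.re} := fun z hz =>
    (differentiableAt_Gamma z (MP_f259ea_nt.ne_neg_nat_of_re_pos hz)).differentiableWithinAt
  have ha : AnalyticAt ℂ Gamma s := hd.analyticAt (ho.mem_nhds hs)
  exact ha.deriv.continuousAt.div ha.continuousAt (Gamma_ne_zero_of_re_pos hs)

lemma big_Dig {s : ℂ} (hs : 1 / 8 < s.re) (hs1 : s.re ≤ 1) (hy : 1 ≤ s.im) :
    ‖digamma s - (lg s.im : ℝ)‖ ≤ ‖digamma 1‖ + 11 := by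
  have h := MP_f259ea_nt.digamma_sub_log hs hs1 hy
  have h1 : Real.log s.im ≤ lg s.im := by
    unfold lg
    exact Real.log_le_log (by linarith) (by linarith [le_abs_self s.im])
  have h2 : lg s.im ≤ Real.log s.im + 3 := by
    unfold lg
    have e : Real.log (4 * s.im) = Real.log 4 + Real.log s.im :=
      Real.log_mul (by norm_num) (by linarith)
    have h3 : Real.log (|s.im| + 3) ≤ Real.log (4 * s.im) := by
      rw [abs_of_pos (by linarith)]
      exact Real.log_le_log (by linarith) (by linarith)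
    have h4 := Real.log_le_sub_one_of_pos (show (0 : ℝ) < 4 by norm_num)
    linarith
  have e : digamma s - (lg s.im : ℝ) =
      (digamma s - (Real.log s.im : ℝ)) - ((lg s.im - Real.log s.im : ℝ) : ℂ) := by
    push_cast; ring
  rw [e]
  refine (norm_sub_le _ _).trans ?_
  rw [norm_real, Real.norm_of_nonneg (by linarith)]
  linarith

theorem dig : DigStmt := by
  have hK : IsCompact (Set.Icc (1 / 8 : ℝ) 1 ×ℂ Set.Icc (-1 : ℝ) 1) :=
    isCompact_Icc.reProdIm isCompact_Icc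
  obtain ⟨M, hM⟩ := hK.exists_bound_of_continuousOn (f := digamma) fun z hz =>
    (contDigamma_Dig (by have := hz.1.1; linarith)).continuousWithinAt
  refine ⟨‖digamma 1‖ + 11 + |M|, by positivity, fun s hs hs1 => ?_⟩
  rcases le_or_gt 1 s.im with h | h
  · linarith [big_Dig hs hs1 h, abs_nonneg M]
  rcases le_or_gt s.im (-1) with h' | h'
  · have h3 := big_Dig (s := conj s) (by simpa using hs) (by simpa using hs1)
      (by simp only [conj_im]; linarith)
    have e : lg (conj s).im = lg s.im := by simp [lg]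
    rw [e, digamma_conj_Dig, ← conj_ofReal, ← map_sub, norm_conj] at h3
    linarith [abs_nonneg M]
  · have h3 := hM s ⟨⟨hs.le, hs1⟩, h'.le, h.le⟩
    have h4 := lg_le s.im
    have h5 := one_le_lg s.im
    have h6 : s.im ^ 2 ≤ 1 := by nlinarith
    refine (norm_sub_le _ _).trans ?_
    rw [norm_real, Real.norm_of_nonneg (by linarith)]
    linarith [le_abs_self M, norm_nonneg (digamma 1)]

theorem logS : LogStmt := by
  intro f x v hd h0
  have h1 : HasDerivAt (fun z : ℂ => f (z + v * I)) (deriv f (x + v * I)) (x : ℂ) :=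
    hd.hasDerivAt.comp_add_const (x : ℂ) (v * I)
  have h2 : HasDerivAt (fun z : ℂ => f (z + v * I) / f (x + v * I))
      (deriv f (x + v * I) / f (x + v * I)) (x : ℂ) := h1.div_const _
  have h3 := h2.clog (by simp only [div_self h0]; exact one_mem_slitPlane)
  simp only [div_self h0, div_one] at h3
  have h4 := (h3.real_of_complex).add_const (Real.log ‖f (x + v * I)‖)
  rw [logDeriv_apply]
  refine h4.congr_of_eventuallyEq ?_
  have hc : ContinuousAt (fun y : ℝ => f (y + v * I)) x := h1.comp_ofReal.continuousAt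
  filter_upwards [hc.eventually_ne h0] with y hy
  rw [Complex.log_re, norm_div, Real.log_div (norm_ne_zero_iff.2 hy) (norm_ne_zero_iff.2 h0)]
  ring

end Pool.Agent.MP_d232b3_nt.Z

end

section

/-!
A lower bound for the real part of the logarithmic derivative under RH.
-/

set_option autoImplicit false

open Complex MeasureTheory
open scoped Real ComplexConjugate

namespace Pool.Agent.MP_d232b3_nt.Z

noncomputable def gf_Pos (w : ℂ) : ℂ := w * Gammaℝ w

noncomputable def xi_Pos (w : ℂ) : ℂ := gf_Pos w * riemannZeta₁ w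

lemma up_Pos (hL : LogStmt) {f : ℂ → ℂ} {v a b K : ℝ} (hab : a ≤ b)
    (hf : ∀ x : ℝ, a ≤ x → x ≤ b → DifferentiableAt ℂ f (x + v * I) ∧ f (x + v * I) ≠ 0 ∧
      -K ≤ (logDeriv f (x + v * I)).re) :
    ‖f (a + v * I)‖ ≤ Real.exp (K * (b - a)) * ‖f (b + v * I)‖ := by
  have hd : ∀ x ∈ Set.Icc a b, HasDerivAt (fun y : ℝ => Real.log ‖f (y + v * I)‖)
      (logDeriv f (x + v * I)).re x := fun x hx =>
    hL f x v (hf x hx.1 hx.2).1 (hf x hx.1 hx.2).2.1
  have h := (convex_Icc a b).mul_sub_le_image_sub_of_le_deriv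
    (f := fun y : ℝ => Real.log ‖f (y + v * I)‖) (C := -K)
    (fun x hx => (hd x hx).continuousAt.continuousWithinAt)
    (fun x hx => (hd x (interior_subset hx)).differentiableAt.differentiableWithinAt)
    (fun x hx => by
      rw [(hd x (interior_subset hx)).deriv]
      exact (hf x (interior_subset hx).1 (interior_subset hx).2).2.2)
    a ⟨le_rfl, hab⟩ b ⟨hab, le_rfl⟩ hab
  have ha := norm_pos_iff.2 (hf a le_rfl hab).2.1
  have hb := norm_pos_iff.2 (hf b hab le_rfl).2.1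
  rw [← Real.exp_log ha, ← Real.exp_log hb, ← Real.exp_add]
  exact Real.exp_le_exp.2 (by linarith)

lemma down_Pos (hL : LogStmt) {f : ℂ → ℂ} {v a b K : ℝ} (hab : a ≤ b)
    (hf : ∀ x : ℝ, a ≤ x → x ≤ b → DifferentiableAt ℂ f (x + v * I) ∧ f (x + v * I) ≠ 0 ∧
      (logDeriv f (x + v * I)).re ≤ K) :
    ‖f (b + v * I)‖ ≤ Real.exp (K * (b - a)) * ‖f (a + v * I)‖ := by
  have hd : ∀ x ∈ Set.Icc a b, HasDerivAt (fun y : ℝ => Real.log ‖f (y + v * I)‖)
      (logDeriv f (x + v * I)).re x := fun x hx =>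
    hL f x v (hf x hx.1 hx.2).1 (hf x hx.1 hx.2).2.1
  have h := (convex_Icc a b).image_sub_le_mul_sub_of_deriv_le
    (f := fun y : ℝ => Real.log ‖f (y + v * I)‖) (C := K)
    (fun x hx => (hd x hx).continuousAt.continuousWithinAt)
    (fun x hx => (hd x (interior_subset hx)).differentiableAt.differentiableWithinAt)
    (fun x hx => by
      rw [(hd x (interior_subset hx)).deriv]
      exact (hf x (interior_subset hx).1 (interior_subset hx).2).2.2)
    a ⟨le_rfl, hab⟩ b ⟨hab, le_rfl⟩ hab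
  have ha := norm_pos_iff.2 (hf a le_rfl hab).2.1
  have hb := norm_pos_iff.2 (hf b hab le_rfl).2.1
  rw [← Real.exp_log ha, ← Real.exp_log hb, ← Real.exp_add]
  exact Real.exp_le_exp.2 (by linarith)

lemma inv_Pos {z : ℂ} {c : ℝ} (hc : 0 < c) (h : c ≤ z.re) : ‖1 / z‖ ≤ 1 / c := by
  rw [norm_div, norm_one]
  exact one_div_le_one_div_of_le hc (h.trans (re_le_norm z))

lemma gf_ne_Pos {w : ℂ} (hw : 0 < w.re) : gf_Pos w ≠ 0 :=
  mul_ne_zero (fun h => by simp [h] at hw) (Gammaℝ_ne_zero_of_re_pos hw)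

lemma half_Pos {w : ℂ} (hw : 0 < w.re) (m : ℕ) : w / 2 ≠ -m := fun h => by
  have := congrArg Complex.re h
  simp at this
  linarith [m.cast_nonneg (α := ℝ)]

lemma gf_deriv_Pos {w : ℂ} (hw : 0 < w.re) :
    HasDerivAt gf_Pos (gf_Pos w * (1 / w - (Real.log π : ℝ) / 2 + digamma (w / 2) / 2)) w := by
  have hp : (π : ℂ) ≠ 0 := by exact_mod_cast Real.pi_ne_zero
  have h1 := ((hasDerivAt_id w).neg.div_const 2).const_cpow (c := (π : ℂ)) (Or.inl hp)
  have h2 := (differentiableAt_Gamma _ (half_Pos hw)).hasDerivAt.comp w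
    ((hasDerivAt_id w).div_const 2)
  have h3 := (hasDerivAt_id w).mul (h1.mul h2)
  have hw0 : w ≠ 0 := fun h => by simp [h] at hw
  have hG := Gamma_ne_zero (half_Pos hw)
  refine HasDerivAt.congr_deriv (f := gf_Pos) h3 ?_
  simp only [gf_Pos, Gammaℝ_def, digamma, logDeriv_apply, id, Pi.neg_apply, Pi.mul_apply,
    Function.comp, ofReal_log Real.pi_pos.le]
  field_simp
  ring

lemma gf_log_Pos {w : ℂ} (hw : 0 < w.re) :
    logDeriv gf_Pos w = 1 / w - (Real.log π : ℝ) / 2 + digamma (w / 2) / 2 := by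
  rw [logDeriv_apply, (gf_deriv_Pos hw).deriv, mul_div_cancel_left₀ _ (gf_ne_Pos hw)]

lemma xi_diff_Pos {w : ℂ} (hw : 0 < w.re) : DifferentiableAt ℂ xi_Pos w :=
  (gf_deriv_Pos hw).differentiableAt.mul (differentiable_riemannZeta₁ w)

lemma xi_ne_Pos (hRH : RiemannHypothesis) {w : ℂ} (hw : 1 / 2 < w.re) : xi_Pos w ≠ 0 :=
  mul_ne_zero (gf_ne_Pos (by linarith)) (zeta1_ne hRH hw)

lemma xi_log_Pos (hRH : RiemannHypothesis) {w : ℂ} (hw : 1 / 2 < w.re) :
    logDeriv xi_Pos w = logDeriv gf_Pos w + DD w :=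
  logDeriv_mul w (gf_ne_Pos (by linarith)) (zeta1_ne hRH hw)
    (gf_deriv_Pos (by linarith)).differentiableAt (differentiable_riemannZeta₁ w)

lemma xi_eq_Pos {w : ℂ} (hw : 0 < w.re) (h1 : w ≠ 1) :
    xi_Pos w = w * (w - 1) * completedRiemannZeta w := by
  have hw0 : w ≠ 0 := fun h => by simp [h] at hw
  have hG := Gammaℝ_ne_zero_of_re_pos hw
  rw [xi_Pos, gf_Pos, MP_c853c5_nt.Z.zeta1_eq h1, riemannZeta_def_of_ne_zero hw0]
  field_simp

lemma xi_sub_Pos {w : ℂ} (hw : 0 < w.re) (h1 : w.re < 1) : xi_Pos (1 - w) = xi_Pos w := by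
  rw [xi_eq_Pos hw (fun h => by simp [h] at h1), xi_eq_Pos (by simpa using h1)
    (fun h => by
      have := congrArg Complex.re h
      simp at this
      linarith), completedRiemannZeta_one_sub]
  ring

lemma xi_conj_Pos {w : ℂ} (h1 : w ≠ 1) : ‖xi_Pos (conj w)‖ = ‖xi_Pos w‖ := by
  have h2 : conj w ≠ 1 := fun h => h1 (by simpa using congrArg conj h)
  have h3 : conj w / 2 = conj (w / 2) := by simp [map_ofNat]
  have h4 : conj w - 1 = conj (w - 1) := by simp
  simp only [xi_Pos, gf_Pos, Gammaℝ_def, MP_c853c5_nt.Z.zeta1_eq h1, MP_c853c5_nt.Z.zeta1_eq h2,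
    riemannZeta_conj, h3, h4, Gamma_conj, norm_mul, Complex.norm_conj,
    norm_cpow_eq_rpow_re_of_pos Real.pi_pos]
  simp

/-- two-sided control of the Gamma factor -/
lemma gf_bd_Pos (hG : DigStmt) : ∃ K : ℝ, 0 ≤ K ∧ ∀ w : ℂ, 1 / 4 < w.re → w.re ≤ 2 →
    -K ≤ (logDeriv gf_Pos w).re ∧ (logDeriv gf_Pos w).re ≤ lg w.im / 2 + K := by
  obtain ⟨C, hC, h⟩ := hG
  have hl : 0 ≤ Real.log π := Real.log_nonneg (by linarith [Real.pi_gt_three])
  refine ⟨C + 4 + Real.log π, by positivity, fun w h1 h2 => ?_⟩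
  have a1 := h (w / 2) (by simp; linarith) (by simp; linarith)
  have a2 := (abs_re_le_norm _).trans a1
  have a3 := (abs_re_le_norm _).trans (inv_Pos (z := w) (c := 1 / 4) (by norm_num) h1.le)
  have a4 := one_le_lg (w / 2).im
  have a5 : lg (w / 2).im ≤ lg w.im := by
    unfold lg
    refine Real.log_le_log (by positivity) ?_
    rw [div_ofNat_im, abs_div, abs_two]
    linarith [abs_nonneg w.im]
  rw [gf_log_Pos (by linarith)]
  simp only [add_re, sub_re, div_ofNat_re, ofReal_re] at a2 ⊢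
  rw [abs_le] at a2 a3
  constructor <;> linarith [a2.1, a2.2, a3.1, a3.2]

lemma dd_bd_Pos (hRH : RiemannHypothesis) : ∃ K : ℝ, 0 ≤ K ∧ ∀ w : ℂ, 5 / 4 ≤ w.re →
    -K ≤ (DD w).re := by
  have hs := (ArithmeticFunction.LSeriesSummable_vonMangoldt (s := 5 / 4) (by norm_num)).norm
  refine ⟨4 + ∑' n, ‖LSeries.term (fun n => (ArithmeticFunction.vonMangoldt n : ℂ)) (5 / 4) n‖,
    add_nonneg (by norm_num) (tsum_nonneg fun _ => norm_nonneg _), fun w hw => ?_⟩
  have a1 : ‖LL w‖ ≤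
      ∑' n, ‖LSeries.term (fun n => (ArithmeticFunction.vonMangoldt n : ℂ)) (5 / 4) n‖ :=
    tsum_of_norm_bounded hs.hasSum fun n =>
      LSeries.norm_term_le_of_re_le_re _ (by norm_num; linarith) n
  have a2 := inv_Pos (z := w - 1) (c := 1 / 4) (by norm_num) (by simp; linarith)
  have a3 : DD w = 1 / (w - 1) - LL w := by
    rw [DD_eq hRH (by linarith) (fun h => by simp [h] at hw; linarith), LL,
      MP_c853c5_nt.Z.LS_eq (by linarith)]
    ring
  have a4 := (abs_re_le_norm (DD w)).trans (a3 ▸ norm_sub_le (1 / (w - 1)) (LL w))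
  rw [abs_le] at a4
  linarith [a4.1]

/-- growth of the quotient on the strip -/
lemma grow_Pos (hRH : RiemannHypothesis) (hB : BdStmt) (hG : DigStmt) (hL : LogStmt) {h : ℝ}
    (h0 : 0 < h) (h1 : h ≤ 1 / 8) : ∃ B M : ℝ, ∀ x v : ℝ, 1 / 2 ≤ x → x ≤ 3 / 2 →
    ‖xi_Pos ((x - h : ℝ) + v * I)‖ ≤
      M * Real.exp (B * Real.exp (1 * |v|)) * ‖xi_Pos ((x + h : ℝ) + v * I)‖ := by
  obtain ⟨K, hK, hgf⟩ := gf_bd_Pos hG
  obtain ⟨C, hC, hD⟩ := hB h h0
  refine ⟨4 + 4 * C, 200 * Real.exp K, fun x v hx1 hx2 => ?_⟩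
  have a1 := up_Pos hL (f := gf_Pos) (v := v) (a := x - h) (b := x + h) (K := K) (by linarith)
    fun y hy1 hy2 => ⟨(gf_deriv_Pos (by simp; linarith)).differentiableAt,
      gf_ne_Pos (by simp; linarith), (hgf _ (by simp; linarith) (by simp; linarith)).1⟩
  have a2 := down_Pos hL (f := riemannZeta₁) (v := v) (a := x + h) (b := 2) (K := C * lg v)
    (by linarith) fun y hy1 hy2 => ⟨differentiable_riemannZeta₁ _,
      zeta1_ne hRH (by simp; linarith), by
        have := hD (y + v * I) (by simp; linarith) (by simp; linarith)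
        simp only [add_im, ofReal_im, mul_im, ofReal_re, I_im, mul_one, I_re, mul_zero, add_zero,
          zero_add] at this
        exact (re_le_norm _).trans this⟩
  have a3 : ‖riemannZeta₁ ((x - h : ℝ) + v * I)‖ ≤ 100 * (|v| + 3) ^ 2 := by
    refine MP_c853c5_nt.Z.bound_LocZ MP_c853c5_nt.Z.em _ _ (by linarith [abs_nonneg v])
      (by simp; linarith) ((norm_add_le _ _).trans ?_)
    rw [norm_mul, norm_I, norm_real, norm_real, Real.norm_eq_abs, Real.norm_eq_abs,
      abs_of_nonneg (by linarith)]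
    linarith
  have a4 : 1 / 2 ≤ ‖riemannZeta₁ ((2 : ℝ) + v * I)‖ := by
    have b1 := MP_c853c5_nt.Z.three_T341 ((2 : ℝ) + v * I) (by simp) (by simp)
    have b2 := re_le_norm (((2 : ℝ) + v * I : ℂ) - 1)
    have b3 : (((2 : ℝ) + v * I : ℂ)).re = 2 := by simp
    rw [MP_c853c5_nt.Z.zeta1_eq (fun h => by rw [h] at b3; norm_num at b3), norm_mul]
    rw [sub_re, b3, one_re] at b2
    rw [b3] at b1
    nlinarith
  have a5 : lg v ≤ 2 * Real.exp (1 * |v|) := by
    have := Real.log_le_sub_one_of_pos (show 0 < |v| + 3 by positivity)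
    unfold lg
    linarith [Real.add_one_le_exp (1 * |v|), abs_nonneg v]
  have a6 : (|v| + 3) ^ 2 = Real.exp (2 * lg v) := by
    rw [two_mul, Real.exp_add, lg, Real.exp_log (by positivity), sq]
  have hl := one_le_lg v
  have a7 : Real.exp (K * (x + h - (x - h))) ≤ Real.exp K :=
    Real.exp_le_exp.2 (by nlinarith)
  have a8 : Real.exp (2 * lg v) * Real.exp (C * lg v * (2 - (x + h))) ≤
      Real.exp ((4 + 4 * C) * Real.exp (1 * |v|)) := by
    rw [← Real.exp_add]
    refine Real.exp_le_exp.2 ?_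
    have b1 : C * lg v * (2 - (x + h)) ≤ C * lg v * 2 :=
      mul_le_mul_of_nonneg_left (by linarith) (by positivity)
    nlinarith [mul_le_mul_of_nonneg_left a5 hC]
  simp only [xi_Pos, norm_mul]
  set z := ‖riemannZeta₁ ((x + h : ℝ) + v * I)‖
  have hz : 0 ≤ z := norm_nonneg _
  have a9 : ‖riemannZeta₁ ((x - h : ℝ) + v * I)‖ ≤
      200 * Real.exp ((4 + 4 * C) * Real.exp (1 * |v|)) * z := by
    have b1 := mul_le_mul_of_nonneg_left (a4.trans a2) (Real.exp_pos (2 * lg v)).le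
    have b2 := mul_le_mul_of_nonneg_right a8 hz
    rw [a6] at a3
    nlinarith
  calc _ ≤ (Real.exp K * ‖gf_Pos ((x + h : ℝ) + v * I)‖) *
        (200 * Real.exp ((4 + 4 * C) * Real.exp (1 * |v|)) * z) :=
        mul_le_mul (a1.trans (mul_le_mul_of_nonneg_right a7 (norm_nonneg _))) a9
          (norm_nonneg _) (by positivity)
    _ = _ := by ring

lemma pl_Pos (hRH : RiemannHypothesis) (hB : BdStmt) (hG : DigStmt) (hL : LogStmt) :
    ∃ A : ℝ, 0 ≤ A ∧ ∀ h : ℝ, 0 < h → h ≤ 1 / 8 → ∀ x v : ℝ, 1 / 2 ≤ x → x ≤ 3 / 2 →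
    ‖xi_Pos ((x - h : ℝ) + v * I)‖ ≤ Real.exp (A * h) * ‖xi_Pos ((x + h : ℝ) + v * I)‖ := by
  obtain ⟨K, hK, hgf⟩ := gf_bd_Pos hG
  obtain ⟨K', hK', hdd⟩ := dd_bd_Pos hRH
  set A := 2 * (K + K') with hA
  have hA0 : 0 ≤ A := by positivity
  refine ⟨A, hA0, fun h h0 h1 x v hx1 hx2 => ?_⟩
  obtain ⟨B, M, hM⟩ := grow_Pos hRH hB hG hL h0 h1
  set R : ℂ → ℂ := fun w => xi_Pos (w - h) / xi_Pos (w + h) *
    cexp (-(A * h : ℝ) * (w - (1 / 2 : ℝ))) with hR
  have hne : ∀ w : ℂ, 1 / 2 ≤ w.re → xi_Pos (w + h) ≠ 0 := fun w hw =>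
    xi_ne_Pos hRH (by simp; linarith)
  have e1 : ∀ w : ℂ, w - h = (w.re - h : ℝ) + w.im * I := fun w => by
    apply Complex.ext <;> simp
  have e2 : ∀ w : ℂ, w + h = (w.re + h : ℝ) + w.im * I := fun w => by
    apply Complex.ext <;> simp
  have hn : ∀ w : ℂ, ‖R w‖ = ‖xi_Pos (w - h)‖ / ‖xi_Pos (w + h)‖ *
      Real.exp (-(A * h) * (w.re - 1 / 2)) := fun w => by
    simp only [hR, norm_mul, norm_div, norm_exp, neg_mul, neg_re, re_ofReal_mul, sub_re,
      ofReal_re]
  have key := PhragmenLindelof.vertical_strip (f := R) (a := 1 / 2) (b := 3 / 2) (C := 1)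
    (z := x + v * I) ?_ ?_ ?_ ?_ (by simpa using hx1) (by simpa using hx2)
  · have hp := norm_pos_iff.2 (hne (x + v * I) (by simpa using hx1))
    rw [hn, div_mul_eq_mul_div, div_le_one hp, e1] at key
    rw [e2] at key hp
    simp only [add_re, ofReal_re, mul_re, I_re, mul_zero, ofReal_im, I_im, mul_one, sub_self,
      add_zero, add_im, mul_im, zero_add] at key hp
    have b1 : 1 ≤ Real.exp (A * h) * Real.exp (-(A * h) * (x - 1 / 2)) := by
      rw [← Real.exp_add]
      exact Real.one_le_exp (by nlinarith [mul_nonneg hA0 h0.le])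
    nlinarith [mul_le_mul_of_nonneg_left key (Real.exp_pos (A * h)).le,
      mul_le_mul_of_nonneg_left b1 (norm_nonneg (xi_Pos ((x - h : ℝ) + v * I)))]
  · refine DifferentiableOn.diffContOnCl fun w hw => ?_
    rw [closure_preimage_re, closure_Ioo (by norm_num)] at hw
    have hw1 : 1 / 2 ≤ w.re := hw.1
    refine DifferentiableAt.differentiableWithinAt (DifferentiableAt.mul
      (DifferentiableAt.div ?_ ?_ (hne w hw1)) (by fun_prop))
    · exact (xi_diff_Pos (w := w - h) (by simp; linarith)).comp w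
        (f := fun w : ℂ => w - h) (by fun_prop)
    · exact (xi_diff_Pos (w := w + h) (by simp; linarith)).comp w
        (f := fun w : ℂ => w + h) (by fun_prop)
  · refine ⟨1, by linarith [Real.pi_gt_three], B, Asymptotics.IsBigO.of_bound M
      (Filter.eventually_inf_principal.2 (Filter.Eventually.of_forall fun w hw => ?_))⟩
    have hw1 : 1 / 2 < w.re := hw.1
    have hw2 : w.re < 3 / 2 := hw.2
    have b1 := hM w.re w.im hw1.le hw2.le
    rw [← e1, ← e2, ← div_le_iff₀ (norm_pos_iff.2 (hne w hw1.le))] at b1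
    rw [hn, Real.norm_of_nonneg (Real.exp_pos _).le]
    refine le_trans (mul_le_of_le_one_right (by positivity) (Real.exp_le_one_iff.2 ?_)) b1
    nlinarith [mul_nonneg hA0 h0.le]
  · intro w hw
    have b1 : 1 - (w - h) = conj (w + h) := by
      apply Complex.ext <;> simp [hw]
      ring
    rw [hn, ← xi_sub_Pos (by simp; linarith) (by simp; linarith), b1,
      xi_conj_Pos (fun h2 => by
        have := congrArg Complex.re h2
        simp at this
        linarith), div_self (norm_pos_iff.2 (hne w hw.ge)).ne', hw]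
    simp
  · intro w hw
    have b1 := up_Pos hL (f := xi_Pos) (v := w.im) (a := w.re - h) (b := w.re + h) (K := K + K')
      (by linarith) fun y hy1 hy2 => ⟨xi_diff_Pos (by simp; linarith),
        xi_ne_Pos hRH (by simp; linarith), by
          rw [xi_log_Pos hRH (by simp; linarith), add_re]
          linarith [(hgf (y + w.im * I) (by simp; linarith) (by simp; linarith)).1,
            hdd (y + w.im * I) (by simp; linarith)]⟩
    rw [← e1, ← e2, ← div_le_iff₀ (norm_pos_iff.2 (hne w (by linarith)))] at b1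
    rw [hn]
    refine (mul_le_mul_of_nonneg_right b1 (Real.exp_pos _).le).trans ?_
    rw [← Real.exp_add, hw, hA]
    exact Real.exp_le_one_iff.2 (by ring_nf; exact le_rfl)

theorem pos (hRH : RiemannHypothesis) (hB : BdStmt) (hG : DigStmt) (hL : LogStmt) : PosStmt := by
  obtain ⟨K, hK, hgf⟩ := gf_bd_Pos hG
  obtain ⟨A, hA, hpl⟩ := pl_Pos hRH hB hG hL
  refine ⟨K + A / 2, by positivity, fun w h1 h2 => ?_⟩
  have hw : (w.re : ℂ) + w.im * I = w := re_add_im w
  have hd := hL xi_Pos w.re w.im (by rw [hw]; exact xi_diff_Pos (by linarith))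
    (by rw [hw]; exact xi_ne_Pos hRH h1)
  rw [hw] at hd
  set g : ℝ → ℝ := fun y => Real.log ‖xi_Pos (y + w.im * I)‖ with hg
  set d := (logDeriv xi_Pos w).re with hdd
  have d1 : HasDerivAt (fun t : ℝ => g (w.re + t)) d 0 :=
    HasDerivAt.comp_const_add w.re 0 (by simpa using hd)
  have d2 : HasDerivAt (fun t : ℝ => g (w.re - t)) (-d) 0 :=
    HasDerivAt.comp_const_sub w.re 0 (by simpa using hd)
  have d3 := ((d1.sub d2).add ((hasDerivAt_id (0 : ℝ)).const_mul A)).tendsto_slope_zero_right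
  have d4 : 0 ≤ d - -d + A * 1 := by
    refine ge_of_tendsto d3 ?_
    filter_upwards [Ioo_mem_nhdsGT (show (0 : ℝ) < min (1 / 8) (w.re - 1 / 2) from
      lt_min (by norm_num) (by linarith))] with t ht
    have t1 : t < 1 / 8 := ht.2.trans_le (min_le_left _ _)
    have t2 : t < w.re - 1 / 2 := ht.2.trans_le (min_le_right _ _)
    have b1 := hpl t ht.1 t1.le w.re w.im h1.le (by linarith)
    have b2 := Real.log_le_log (norm_pos_iff.2 (xi_ne_Pos hRH (by simp; linarith))) b1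
    rw [Real.log_mul (Real.exp_pos _).ne' (norm_pos_iff.2 (xi_ne_Pos hRH (by
      simp; linarith [ht.1]))).ne', Real.log_exp] at b2
    simp only [smul_eq_mul, Pi.add_apply, Pi.sub_apply, zero_add, add_zero, sub_zero, id,
      mul_zero, sub_self, hg]
    exact mul_nonneg (inv_nonneg.2 ht.1.le) (by linarith)
  have d5 := (hgf w (by linarith) (by linarith)).2
  rw [hdd, xi_log_Pos hRH h1, add_re] at d4
  linarith

end Pool.Agent.MP_d232b3_nt.Z

end

section

/-! Two elementary integrals. -/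

set_option autoImplicit false

open Complex MeasureTheory
open scoped Real ComplexConjugate

namespace Pool.Agent.MP_d232b3_nt.Z

lemma cauchy_Ein {b : ℝ} (hb : 0 < b) : Integrable (fun u : ℝ => 1 / (b ^ 2 + u ^ 2)) ∧
    ∫ u : ℝ, 1 / (b ^ 2 + u ^ 2) = π / b := by
  have e : (fun u : ℝ => 1 / (b ^ 2 + u ^ 2)) = fun u => (b ^ 2)⁻¹ * (1 + (u / b) ^ 2)⁻¹ := by
    funext u
    field_simp
  rw [e]
  refine ⟨(integrable_inv_one_add_sq.comp_div hb.ne').const_mul _, ?_⟩
  rw [integral_const_mul, Measure.integral_comp_div (fun u : ℝ => (1 + u ^ 2)⁻¹),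
    integral_univ_inv_one_add_sq, abs_of_pos hb, smul_eq_mul]
  field_simp

theorem kapS : KapStmt := by
  intro a ha h
  have h1 : (1 / 2 : ℝ) - a ≠ 0 := sub_ne_zero.mpr h.symm
  have h2 : (1 / 2 : ℝ) + a ≠ 0 := by positivity
  have e : kap a = fun u => ((1 / 2 - a) * (1 / 2 + a))⁻¹ *
      (1 / (a ^ 2 + u ^ 2) - 1 / ((1 / 2) ^ 2 + u ^ 2)) := by
    funext u
    rw [kap, eq_inv_mul_iff_mul_eq₀ (mul_ne_zero h1 h2)]
    field_simp
    ring
  obtain ⟨a1, a2⟩ := cauchy_Ein ha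
  obtain ⟨b1, b2⟩ := cauchy_Ein (b := 1 / 2) (by norm_num)
  rw [e]
  refine ⟨(a1.sub b1).const_mul _, ?_⟩
  rw [integral_const_mul, integral_sub a1 b1, a2, b2, inv_mul_eq_iff_eq_mul₀ (mul_ne_zero h1 h2)]
  field_simp
  ring

/-- the integrand of the entire exponential integral -/
noncomputable def f_Ein (y : ℝ) : ℝ := (1 - Real.exp (-y)) / y

lemma int_Ein {a b : ℝ} (ha : 0 ≤ a) (hb : 0 ≤ b) : IntervalIntegrable f_Ein volume a b := by
  refine (intervalIntegrable_const (c := (1 : ℝ))).mono_fun' ?_ ?_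
  · exact (by unfold f_Ein; fun_prop : Measurable f_Ein).aestronglyMeasurable
  · refine (ae_restrict_mem measurableSet_uIoc).mono fun y hy => ?_
    have h0 : 0 < y := (le_min ha hb).trans_lt hy.1
    have h1 := Real.add_one_le_exp (-y)
    have h2 : Real.exp (-y) ≤ 1 := Real.exp_le_one_iff.mpr (by linarith)
    simp only [f_Ein]
    rw [Real.norm_of_nonneg (div_nonneg (by linarith) h0.le), div_le_one h0]
    linarith

lemma scale_Ein {l : ℝ} (hl : 0 < l) :
    ∫ h in (0 : ℝ)..1, l * f_Ein (l * h) = ∫ y in (0 : ℝ)..l, f_Ein y := by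
  rw [intervalIntegral.integral_const_mul, intervalIntegral.integral_comp_mul_left _ hl.ne',
    mul_zero, mul_one, smul_eq_mul, mul_inv_cancel_left₀ hl.ne']

lemma int2_Ein {l : ℝ} (hl : 0 < l) :
    IntervalIntegrable (fun h => l * f_Ein (l * h)) volume 0 1 := by
  have h := (int_Ein le_rfl hl.le).comp_mul_left (c := l)
  rw [zero_div, div_self hl.ne'] at h
  exact h.const_mul l

lemma harm_Ein {n : ℕ} (hn : 0 < n) : ∫ y in (0 : ℝ)..n, f_Ein y ≤ harmonic n := by
  have h0 : (0 : ℝ) < n := Nat.cast_pos.mpr hn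
  rw [← scale_Ein h0]
  have e : ((harmonic n : ℚ) : ℝ) = ∫ h in (0 : ℝ)..1, ∑ k ∈ Finset.range n, (1 - h) ^ k := by
    rw [intervalIntegral.integral_finsetSum fun k _ => Continuous.intervalIntegrable
      (by fun_prop) _ _, harmonic]
    push_cast
    refine Finset.sum_congr rfl fun k _ => ?_
    rw [intervalIntegral.integral_comp_sub_left (fun x : ℝ => x ^ k), integral_pow]
    simp
  rw [e]
  refine intervalIntegral.integral_mono_on_of_le_Ioo zero_le_one (int2_Ein h0)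
    (Continuous.intervalIntegrable (by fun_prop) _ _) fun h hh => ?_
  have h1 := mul_neg_geom_sum (1 - h) n
  have h2 : (1 - h) ^ n ≤ Real.exp (-(n * h)) := by
    rw [← mul_neg, Real.exp_nat_mul]
    exact pow_le_pow_left₀ (by linarith [hh.2]) (by linarith [Real.add_one_le_exp (-h)]) n
  rw [f_Ein, ← mul_div_assoc, mul_div_mul_left _ _ h0.ne', div_le_iff₀ hh.1]
  linarith

lemma exp_Ein (l a b : ℝ) (hl : l ≠ 0) :
    ∫ h in a..b, Real.exp (-(l * h)) = (Real.exp (-(l * a)) - Real.exp (-(l * b))) / l := by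
  rw [intervalIntegral.integral_comp_mul_left (fun y => Real.exp (-y)) hl,
    intervalIntegral.integral_comp_neg (fun y => Real.exp y), integral_exp, smul_eq_mul,
    inv_mul_eq_div]

lemma bound_Ein {l : ℝ} (hl : 1 ≤ l) : ∫ y in (0 : ℝ)..l, f_Ein y ≤
    Real.log l + Real.eulerMascheroniConstant + Real.exp (-l) := by
  have h0 : 0 < l := by linarith
  have ht := Real.tendsto_harmonic_sub_log.add_const (Real.log l + Real.exp (-l))
  refine (ge_of_tendsto ht ?_).trans_eq (by ring)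
  filter_upwards [tendsto_natCast_atTop_atTop.eventually_ge_atTop l] with n hn
  have h1 : (0 : ℝ) < n := h0.trans_le hn
  have h2 := harm_Ein (Nat.cast_pos.mp h1)
  rw [← intervalIntegral.integral_add_adjacent_intervals (int_Ein le_rfl h0.le)
    (int_Ein h0.le h1.le)] at h2
  have i1 : IntervalIntegrable (fun y : ℝ => y⁻¹) volume l n :=
    intervalIntegral.intervalIntegrable_inv (fun y hy => ((lt_min h0 h1).trans_le hy.1).ne')
      continuousOn_id
  have i2 : IntervalIntegrable (fun y : ℝ => Real.exp (-(1 * y))) volume l n :=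
    Continuous.intervalIntegrable (by fun_prop) _ _
  have h3 := intervalIntegral.integral_mono_on hn (i1.sub i2) (int_Ein h0.le h1.le) fun y hy => by
    have y1 : 1 ≤ y := hl.trans hy.1
    rw [f_Ein, sub_div, one_div, one_mul]
    exact sub_le_sub_left (div_le_self (Real.exp_pos _).le y1) _
  rw [intervalIntegral.integral_sub i1 i2, integral_inv_of_pos h0 h1, exp_Ein 1 _ _ one_ne_zero,
    Real.log_div h1.ne' h0.ne', one_mul, one_mul, div_one] at h3
  linarith [Real.exp_pos (-(n : ℝ))]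

theorem ein : EinStmt := by
  intro ε hε
  refine ⟨max 1 (4 / ε), le_max_left _ _, fun l hl => ?_⟩
  have h1 : 1 ≤ l := (le_max_left _ _).trans hl
  have h0 : 0 < l := by linarith
  have h2 : 4 ≤ l * ε := (div_le_iff₀ hε).mp ((le_max_right _ _).trans hl)
  have i2 : IntervalIntegrable (fun h : ℝ => Real.exp (-(l * h))) volume 0 1 :=
    Continuous.intervalIntegrable (by fun_prop) _ _
  have e : Set.EqOn (fun h => l * f_Ein (l * h) - Real.exp (-(l * h)))
      (fun h : ℝ => (1 - (1 + h) * Real.exp (-(l * h))) / h) (Set.uIoo 0 1) := fun h hh => by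
    have h3 : 0 < h := (le_min le_rfl zero_le_one).trans_lt hh.1
    simp only [f_Ein]
    field_simp
    ring
  refine ⟨((int2_Ein h0).sub i2).congr_uIoo e, ?_⟩
  rw [← intervalIntegral.integral_congr_uIoo e, intervalIntegral.integral_sub (int2_Ein h0) i2,
    scale_Ein h0, exp_Ein l _ _ h0.ne', mul_zero, neg_zero, Real.exp_zero, mul_one]
  have h3 := bound_Ein h1
  have h4 : (l + 1) * Real.exp (-l) ≤ ε := by
    rw [Real.exp_neg, ← div_eq_mul_inv, div_le_iff₀ (Real.exp_pos l)]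
    have h5 := mul_le_mul_of_nonneg_left (Real.quadratic_le_exp_of_nonneg h0.le) hε.le
    nlinarith
  have h5 : Real.exp (-l) - (1 - Real.exp (-l)) / l ≤ -((1 - ε) / l) := by
    rw [sub_div' h0.ne', ← neg_div, div_le_div_iff_of_pos_right h0]
    linarith
  linarith

end Pool.Agent.MP_d232b3_nt.Z

end

section

set_option autoImplicit false

open Complex MeasureTheory Filter Topology Set
open scoped Real ComplexConjugate

namespace Pool.Agent.MP_d232b3_nt.Z

lemma mvt_CorB {f G f' G' : ℝ → ℝ} {a b : ℝ} (hab : a < b)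
    (hf : ∀ u ∈ Icc a b, HasDerivAt f (f' u) u) (hG : ∀ u, HasDerivAt G (G' u) u)
    (h : ∀ u ∈ Ioo a b, |f' u| ≤ G' u) : |f a| ≤ |f b| + (G b - G a) := by
  have k : ∀ s : ℝ, |s| = 1 → s * f a ≤ s * f b + (G b - G a) := by
    intro s hs
    have d : ∀ u ∈ Icc a b, HasDerivAt (fun u => s * f u + G u) (s * f' u + G' u) u :=
      fun u hu => ((hf u hu).const_mul s).add (hG u)
    obtain ⟨c, hc, e⟩ := exists_hasDerivAt_eq_slope (fun u => s * f u + G u)
      (fun u => s * f' u + G' u) hab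
      (fun u hu => (d u hu).continuousAt.continuousWithinAt)
      (fun u hu => d u (Ioo_subset_Icc_self hu))
    have h1 := neg_abs_le (s * f' c)
    rw [abs_mul, hs, one_mul] at h1
    have h2 : 0 ≤ (s * f b + G b - (s * f a + G a)) / (b - a) := by linarith [h c hc]
    rw [le_div_iff₀ (sub_pos.2 hab)] at h2
    linarith
  have k1 := k 1 abs_one
  have k2 := k (-1) (by simp)
  rw [abs_le]
  constructor <;> linarith [le_abs_self (f b), neg_abs_le (f b)]

lemma pow_CorB {L : ℝ} (hL : 0 < L) (u : ℝ) :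
    L ^ (2 - 2 * u) = Real.exp (2 * Real.log L * (1 - u)) := by
  rw [Real.rpow_def_of_pos hL]
  congr 1
  ring

lemma ne_one_CorB {u t : ℝ} (ht : 3 ≤ t) : (u : ℂ) + t * I ≠ 1 := fun h => by
  have := congrArg Complex.im h
  simp at this
  linarith

lemma one_lt_log_CorB {t : ℝ} (ht : 3 ≤ t) : 1 < Real.log t := by
  rw [Real.lt_log_iff_exp_lt (by linarith)]
  linarith [Real.exp_one_lt_d9]

lemma two_CorB : ∃ C : ℝ, 0 ≤ C ∧ ∀ t : ℝ, |Real.log ‖riemannZeta ((2 : ℝ) + t * I)‖| ≤ C := by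
  have hs : Summable fun n : ℕ => 1 / ((n : ℝ) + 1) ^ (2 : ℝ) := by
    simpa using (summable_nat_add_iff 1).2 (Real.summable_one_div_nat_rpow.2 (one_lt_two (α := ℝ)))
  have h0 : 0 ≤ ∑' n : ℕ, 1 / ((n : ℝ) + 1) ^ (2 : ℝ) := tsum_nonneg fun n => by positivity
  refine ⟨∑' n : ℕ, 1 / ((n : ℝ) + 1) ^ (2 : ℝ) + 1, by linarith, fun t => ?_⟩
  have hr : (((2 : ℝ) : ℂ) + t * I).re = 2 := by simp
  have a := MP_c853c5_nt.Z.three_T341 ((2 : ℝ) + t * I) (by rw [hr]; norm_num) hr.le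
  rw [hr] at a
  have b : ‖riemannZeta ((2 : ℝ) + t * I)‖ ≤ ∑' n : ℕ, 1 / ((n : ℝ) + 1) ^ (2 : ℝ) := by
    rw [zeta_eq_tsum_one_div_nat_add_one_cpow (by rw [hr]; norm_num)]
    refine tsum_of_norm_bounded hs.hasSum fun n => le_of_eq ?_
    have e : ((n : ℂ) + 1) = (((n : ℝ) + 1 : ℝ) : ℂ) := by push_cast; rfl
    rw [norm_div, norm_one, e, norm_cpow_eq_rpow_re_of_pos (by positivity), hr]
  generalize ‖riemannZeta ((2 : ℝ) + t * I)‖ = x at a b
  have x0 : 0 < x := by linarith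
  have c := Real.log_le_sub_one_of_pos x0
  have d := Real.one_sub_inv_le_log_of_pos x0
  have e : x⁻¹ ≤ 2 := by
    rw [inv_le_comm₀ x0 two_pos]
    linarith
  rw [abs_le]
  constructor <;> linarith

lemma ratio_CorB {l u v : ℝ} (hl : 0 ≤ l) (hv : v ≤ 1) (hu : v ≤ u) (h1 : u ≠ 1) :
    (u * Real.exp (l * (1 - u)) - 1) / (1 - u) ≤ l * Real.exp (l * (1 - v)) := by
  have e0 := Real.exp_pos (l * (1 - u))
  rcases lt_or_gt_of_ne h1 with h | h
  · have a : Real.exp (l * (1 - u)) ≤ Real.exp (l * (1 - v)) := by gcongr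
    have b := Real.add_one_le_exp (-(l * (1 - u)))
    have c : Real.exp (-(l * (1 - u))) * Real.exp (l * (1 - u)) = 1 := by
      rw [← Real.exp_add, neg_add_cancel, Real.exp_zero]
    refine le_trans ?_ (mul_le_mul_of_nonneg_left a hl)
    rw [div_le_iff₀ (sub_pos.2 h)]
    nlinarith [mul_le_mul_of_nonneg_right b e0.le, mul_pos (sub_pos.2 h) e0]
  · have a : 1 ≤ Real.exp (l * (1 - v)) := Real.one_le_exp (mul_nonneg hl (sub_nonneg.2 hv))
    have b := Real.add_one_le_exp (l * (1 - u))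
    refine le_trans ?_ (le_mul_of_one_le_right hl a)
    rw [div_le_iff_of_neg (sub_neg.2 h)]
    nlinarith [mul_pos (sub_pos.2 h) e0]

theorem corC (hRH : RiemannHypothesis) (hU : UStmt) : CStmt := by
  intro ε hε
  obtain ⟨T, hT, h⟩ := hU (3 / 4) ε (by norm_num) hε
  refine ⟨T, fun t ht => ?_⟩
  have t3 : 3 ≤ t := hT.trans ht
  have L0 : 0 < Real.log t := one_pos.trans (one_lt_log_CorB t3)
  replace h := h t
  simp only [pow_CorB L0] at h
  set l := 2 * Real.log (Real.log t) with hl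
  have c0 : ContinuousAt (fun u : ℝ => (u : ℂ) + t * I) 1 := by fun_prop
  have c1 : ContinuousAt (fun u : ℝ => ‖DD (u + t * I) - 1 / (u + t * I - 1)‖) 1 := by
    refine (ContinuousAt.sub ?_ ?_).norm
    · exact ContinuousAt.comp (f := fun u : ℝ => (u : ℂ) + t * I)
        (diff_DD hRH (by norm_num)).continuousAt c0
    · exact continuousAt_const.div (c0.sub continuousAt_const) (sub_ne_zero.2 (ne_one_CorB t3))
  have c2 : ContinuousAt (fun u : ℝ => (DD u).re) 1 :=
    continuous_re.continuousAt.comp (ContinuousAt.comp (f := fun u : ℝ => (u : ℂ))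
      (diff_DD hRH (by norm_num)).continuousAt continuous_ofReal.continuousAt)
  have c3 : ContinuousAt (fun u : ℝ => ε * Real.exp (l * (1 - u))) 1 := by fun_prop
  have d : HasDerivAt (fun u : ℝ => u * Real.exp (l * (1 - u))) (1 - l) 1 := by
    refine ((hasDerivAt_id (1 : ℝ)).mul
      (((hasDerivAt_id (1 : ℝ)).const_sub 1).const_mul l).exp).congr_deriv ?_
    simp
    ring
  have c4 : Tendsto (fun u : ℝ => (u * Real.exp (l * (1 - u)) - 1) / (1 - u)) (𝓝[>] 1)
      (𝓝 (-(1 - l))) := by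
    refine ((hasDerivAt_iff_tendsto_slope.1 d).mono_left (nhdsGT_le_nhdsNE 1)).neg.congr
      fun u => ?_
    rw [slope_def_field, ← div_neg]
    simp
  have e : ∀ u : ℝ, 1 / 2 < u →
      logDeriv riemannZeta (u + t * I) = DD (u + t * I) - 1 / (u + t * I - 1) := fun u hu => by
    rw [DD_eq hRH (by simpa using hu) (ne_one_CorB t3)]
    ring
  have := le_of_tendsto_of_tendsto (c1.tendsto.mono_left nhdsWithin_le_nhds)
    ((c4.sub (c2.tendsto.mono_left nhdsWithin_le_nhds)).add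
      (c3.tendsto.mono_left nhdsWithin_le_nhds)) (by
      filter_upwards [Ioo_mem_nhdsGT (one_lt_two (α := ℝ))] with u hu
      rw [← e u (by linarith [hu.1])]
      exact h u ht (by linarith [hu.1]) hu.2.le hu.1.ne')
  rw [← e 1 (by norm_num)] at this
  simp only [ofReal_one, DD_one, ofReal_re, sub_self, mul_zero, Real.exp_zero] at this
  linarith

theorem corB (hRH : RiemannHypothesis) (hL : LogStmt) (hU : UStmt) : BStmt := by
  intro σ ε h1 h2 hε
  obtain ⟨T, hT, h⟩ := hU σ (ε / 2) h1 (by linarith)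
  obtain ⟨C₂, hC₂, h3⟩ := two_CorB
  obtain ⟨C, hC⟩ := (isCompact_Icc (a := σ) (b := 2)).exists_bound_of_continuousOn
    (f := fun u : ℝ => DD u) fun u hu =>
      (ContinuousAt.comp (f := fun u : ℝ => (u : ℂ))
        (diff_DD hRH (by simpa using h1.trans_le hu.1)).continuousAt
        continuous_ofReal.continuousAt).continuousWithinAt
  have C0 : 0 ≤ C := (norm_nonneg _).trans (hC σ ⟨le_rfl, by linarith⟩)
  obtain ⟨η, η0, η1, hη⟩ : ∃ η : ℝ, 0 < η ∧ σ + η < 1 ∧
      ∀ u ∈ Ioo σ (σ + η), u / (1 - u) ≤ σ / (1 - σ) + ε / 2 := by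
    have c : ContinuousAt (fun u : ℝ => u / (1 - u)) σ :=
      continuousAt_id.div (by fun_prop) (sub_pos.2 h2).ne'
    obtain ⟨δ, δ0, hδ⟩ := Metric.eventually_nhds_iff.1
      (c.eventually (gt_mem_nhds (lt_add_of_pos_right _ (half_pos hε))))
    refine ⟨min δ ((1 - σ) / 2), lt_min δ0 (by linarith),
      by linarith [min_le_right δ ((1 - σ) / 2)], fun u hu => (hδ ?_).le⟩
    rw [Real.dist_eq, abs_of_pos (sub_pos.2 hu.1)]
    linarith [hu.2, min_le_left δ ((1 - σ) / 2)]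
  set R := 1 + 6 * (C₂ + 3 * C + ε + 2) / (ε * η ^ 3) with hR
  refine ⟨max T (Real.exp (Real.exp R)), fun t ht => ?_⟩
  have tT : T ≤ t := (le_max_left _ _).trans ht
  have t3 : 3 ≤ t := hT.trans tT
  have L0 : 0 < Real.log t := one_pos.trans (one_lt_log_CorB t3)
  have R1 : R ≤ Real.log (Real.log t) := by
    rw [Real.le_log_iff_exp_le L0, Real.le_log_iff_exp_le (by linarith)]
    exact (le_max_right _ _).trans ht
  have R0 : 0 ≤ 6 * (C₂ + 3 * C + ε + 2) / (ε * η ^ 3) := by positivity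
  replace h := h t
  simp only [pow_CorB L0] at h ⊢
  obtain ⟨l, hl⟩ : ∃ l, l = 2 * Real.log (Real.log t) := ⟨_, rfl⟩
  have l1 : 1 ≤ l := by linarith
  have l0 : 0 < l := by linarith
  have hb : ∀ u, σ ≤ u → u ≤ 2 → u ≠ 1 → |(logDeriv riemannZeta (u + t * I)).re| ≤
      (u * Real.exp (l * (1 - u)) - 1) / (1 - u) + C + ε / 2 * Real.exp (l * (1 - u)) := by
    intro u a b c
    have a1 := h u tT a b c
    rw [← hl] at a1
    have a2 := (abs_le.1 ((abs_re_le_norm _).trans (hC u ⟨a, b⟩))).1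
    linarith [abs_re_le_norm (logDeriv riemannZeta (u + t * I))]
  have hd : ∀ u, σ ≤ u → HasDerivAt (fun y : ℝ => Real.log ‖riemannZeta (y + t * I)‖)
      (logDeriv riemannZeta (u + t * I)).re u := fun u hu =>
    hL riemannZeta u t (differentiableAt_riemannZeta (ne_one_CorB t3))
      (zeta_ne hRH (by simpa using h1.trans_le hu) (ne_one_CorB t3))
  set F := Real.exp (l * (1 - (σ + η))) with hF
  have F1 : 1 ≤ F := Real.one_le_exp (mul_nonneg l0.le (by linarith))
  set K := l * F + C + ε / 2 * F with hK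
  have hb2 : ∀ u, σ + η ≤ u → u ≤ 2 → u ≠ 1 → |(logDeriv riemannZeta (u + t * I)).re| ≤ K := by
    intro u a b c
    have a1 := hb u (by linarith) b c
    have a2 := ratio_CorB l0.le η1.le a c
    have a3 : ε / 2 * Real.exp (l * (1 - u)) ≤ ε / 2 * F := by
      rw [hF]
      gcongr
    linarith
  have hG : ∀ u : ℝ, HasDerivAt (fun u => K * u) K u := fun u => by
    simpa using (hasDerivAt_id u).const_mul K
  have m1 := mvt_CorB (one_lt_two (α := ℝ)) (fun u hu => hd u (by linarith [hu.1])) hG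
    fun u hu => hb2 u (by linarith [hu.1]) hu.2.le hu.1.ne'
  have m2 := mvt_CorB η1 (fun u hu => hd u (by linarith [hu.1])) hG
    fun u hu => hb2 u hu.1.le (by linarith [hu.2]) hu.2.ne
  set c := σ / (1 - σ) + ε with hc
  have c0 : 0 ≤ c := by
    have : 0 ≤ σ / (1 - σ) := div_nonneg (by linarith) (by linarith)
    linarith
  have m3 := mvt_CorB (G := fun u => C * u - c / l * Real.exp (l * (1 - u)))
    (G' := fun u => C + c * Real.exp (l * (1 - u))) (lt_add_of_pos_right σ η0)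
    (fun u hu => hd u hu.1)
    (fun u => by
      refine (((hasDerivAt_id u).const_mul C).sub
        ((((hasDerivAt_id u).const_sub 1).const_mul l).exp.const_mul (c / l))).congr_deriv ?_
      simp only [id]
      field_simp
      ring)
    (fun u hu => by
      have u1 : u < 1 := hu.2.trans η1
      have a1 := hb u hu.1.le (by linarith) u1.ne
      have a2 := mul_le_mul_of_nonneg_right (hη u hu) (Real.exp_pos (l * (1 - u))).le
      have a3 : (u * Real.exp (l * (1 - u)) - 1) / (1 - u) ≤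
          u / (1 - u) * Real.exp (l * (1 - u)) := by
        rw [div_mul_eq_mul_div]
        exact div_le_div_of_nonneg_right (by linarith) (sub_pos.2 u1).le
      simp only [hc]
      linarith)
  have m0 := h3 t
  rw [← hl, show Real.log (Real.log t) = l / 2 by linarith]
  have e1 : Real.exp (l * (1 - σ)) = F * Real.exp (l * η) := by
    rw [hF, ← Real.exp_add]
    congr 1
    ring
  have e2 : (σ / (2 * (1 - σ)) + ε) * Real.exp (l * (1 - σ)) / (l / 2) =
      c / l * Real.exp (l * (1 - σ)) + ε * Real.exp (l * η) / l * F := by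
    have : 1 - σ ≠ 0 := (sub_pos.2 h2).ne'
    rw [e1, hc]
    field_simp
    ring
  have e3 : (C₂ + 3 * C + ε + 2) * l ≤ ε * Real.exp (l * η) / l := by
    have a1 := Real.pow_div_factorial_le_exp (l * η) (by positivity) 3
    have a2 : 6 * (C₂ + 3 * C + ε + 2) / (ε * η ^ 3) ≤ l := by linarith
    rw [div_le_iff₀ (by positivity)] at a2
    rw [le_div_iff₀ l0]
    have a3 := mul_le_mul_of_nonneg_left a1 hε.le
    have a4 := mul_le_mul_of_nonneg_left a2 (sq_nonneg l)
    norm_num [Nat.factorial] at a3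
    nlinarith
  have e4 : 0 ≤ c / l * F := by positivity
  have e5 := mul_le_mul_of_nonneg_right e3 (zero_le_one.trans F1)
  have K0 : 0 ≤ K := by positivity
  have lF : F ≤ l * F := le_mul_of_one_le_left (by linarith) l1
  have e6 : (C₂ + 3 * C) * 1 ≤ (C₂ + 3 * C) * (l * F) :=
    mul_le_mul_of_nonneg_left (F1.trans lF) (by positivity)
  have e7 : ε * F ≤ ε * (l * F) := mul_le_mul_of_nonneg_left lF hε.le
  have e8 : K * (2 - (σ + η)) ≤ K * 2 := mul_le_mul_of_nonneg_left (by linarith) K0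
  have e9 : C * η ≤ C * 1 := mul_le_mul_of_nonneg_left (by linarith) C0
  rw [e2]
  simp only [← hF] at m3
  nlinarith

end Pool.Agent.MP_d232b3_nt.Z

end

section

set_option autoImplicit false

open Complex MeasureTheory
open scoped Real ComplexConjugate

namespace Pool.Agent.MP_d232b3_nt.Z

lemma two_CorD (t : ℝ) :
    ‖riemannZeta (((1 + 1 : ℝ) : ℂ) + t * I)‖ ≤ ‖riemannZeta₁ (((1 + 1 : ℝ) : ℂ) + (0 : ℝ) * I)‖ := by
  have e1 : (((1 + 1 : ℝ) : ℂ) + (0 : ℝ) * I) = 2 := by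
    push_cast
    ring
  have e2 : ‖riemannZeta₁ 2‖ = π ^ 2 / 6 := by
    rw [MP_c853c5_nt.Z.zeta1_eq (by norm_num), riemannZeta_two]
    have : ((2 : ℂ) - 1) * ((π : ℂ) ^ 2 / 6) = ((π ^ 2 / 6 : ℝ) : ℂ) := by
      push_cast
      ring
    rw [this, norm_real, Real.norm_of_nonneg (by positivity)]
  have e3 : ((((1 + 1 : ℝ) : ℂ) + t * I)).re = 2 := by
    simp
    norm_num
  rw [e1, e2, zeta_eq_tsum_one_div_nat_cpow (by rw [e3]; norm_num)]
  refine tsum_of_norm_bounded hasSum_zeta_two fun n => ?_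
  rw [norm_div, norm_one, norm_natCast_cpow_of_re_ne_zero n (by rw [e3]; norm_num), e3,
    Real.rpow_two]

lemma exp_CorD {l y : ℝ} (hl : 0 < l) (hy : 0 ≤ y) (hy1 : y ≤ 1) :
    l * Real.exp (-(y / l)) ≤ l - y + 1 / l := by
  have hx : 0 ≤ y / l := by positivity
  have h1 := Real.add_one_le_exp (y / l)
  have h2 : Real.exp (-(y / l)) ≤ 1 - y / l + (y / l) ^ 2 := by
    rw [Real.exp_neg, inv_le_iff_one_le_mul₀ (Real.exp_pos _)]
    have h3 : 0 ≤ 1 - y / l + (y / l) ^ 2 := by nlinarith [sq_nonneg (y / l - 1)]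
    have h4 := mul_le_mul_of_nonneg_left h1 h3
    nlinarith [pow_nonneg hx 3]
  have h5 := mul_le_mul_of_nonneg_left h2 hl.le
  have h6 : l * (1 - y / l + (y / l) ^ 2) = l - y + y ^ 2 / l := by
    field_simp
  have h7 : y ^ 2 / l ≤ 1 / l := div_le_div_of_nonneg_right (by nlinarith) hl.le
  linarith

theorem corD (hRH : RiemannHypothesis) (hL : LogStmt) (hU : UStmt) (hE : EinStmt) : DStmt := by
  intro ε hε
  obtain ⟨e, e0, e1, e2⟩ : ∃ e : ℝ, 0 < e ∧ 2 * e ≤ ε ∧ 2 * e ≤ 1 :=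
    ⟨min ε 1 / 2, by positivity, by linarith [min_le_left ε 1], by linarith [min_le_right ε 1]⟩
  obtain ⟨T, hT, hU⟩ := hU 1 e (by norm_num) e0
  obtain ⟨R, hR, hE⟩ := hE e e0
  refine ⟨max T (Real.exp (Real.exp (max R (1 / ε)))), fun t ht => ?_⟩
  have t1 : T ≤ t := le_trans (le_max_left _ _) ht
  have t0 : 0 < t := by linarith
  have t2 : Real.exp (max R (1 / ε)) ≤ Real.log t :=
    (Real.le_log_iff_exp_le t0).2 (le_trans (le_max_right _ _) ht)
  have L0 : 0 < Real.log t := lt_of_lt_of_le (Real.exp_pos _) t2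
  have t3 : max R (1 / ε) ≤ Real.log (Real.log t) := (Real.le_log_iff_exp_le L0).2 t2
  obtain ⟨l, hl⟩ : ∃ l, l = 2 * Real.log (Real.log t) := ⟨_, rfl⟩
  have l1 : R ≤ l := by linarith [le_max_left R (1 / ε)]
  have l0 : 0 < l := by linarith
  have l2 : 1 / l ≤ ε := by
    rw [div_le_iff₀ l0]
    have : 1 / ε ≤ l := by linarith [le_max_left R (1 / ε), le_max_right R (1 / ε)]
    rw [div_le_iff₀ hε] at this
    linarith
  obtain ⟨hI, hE⟩ := hE l l1
  have hre : ∀ (h v : ℝ), 0 ≤ h → 1 / 2 < (((1 + h : ℝ) : ℂ) + v * I).re := by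
    intro h v hh
    simp only [add_re, ofReal_re, mul_re, I_re, mul_zero, ofReal_im, I_im, mul_one, sub_self]
    linarith
  have hne : ∀ h : ℝ, ((1 + h : ℝ) : ℂ) + t * I ≠ 1 := by
    intro h e
    have := congrArg Complex.im e
    simp at this
    exact t0.ne' this
  have hd : ∀ h : ℝ, 0 ≤ h → HasDerivAt
      (fun h : ℝ => Real.log ‖riemannZeta₁ (((1 + h : ℝ) : ℂ) + (0 : ℝ) * I)‖ -
        Real.log ‖riemannZeta (((1 + h : ℝ) : ℂ) + t * I)‖ + e / l * Real.exp (-(l * h)))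
      ((DD ((1 + h : ℝ) : ℂ)).re - (logDeriv riemannZeta (((1 + h : ℝ) : ℂ) + t * I)).re -
        e * Real.exp (-(l * h))) h := by
    intro h hh
    have d1 := (hL riemannZeta₁ (1 + h) 0 (differentiable_riemannZeta₁ _)
      (zeta1_ne hRH (hre h 0 hh))).comp_const_add 1 h
    have d2 := (hL riemannZeta (1 + h) t (differentiableAt_riemannZeta (hne h))
      (zeta_ne hRH (hre h t hh) (hne h))).comp_const_add 1 h
    have d3 := (((hasDerivAt_id h).const_mul l).neg.exp).const_mul (e / l)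
    refine HasDerivAt.congr_deriv ((d1.sub d2).add d3) ?_
    have e3 : ((1 + h : ℝ) : ℂ) + (0 : ℝ) * I = ((1 + h : ℝ) : ℂ) := by simp
    rw [e3]
    unfold DD
    simp only [Pi.neg_apply, id, mul_one]
    field_simp
    ring
  have key := intervalIntegral.sub_le_integral_of_hasDeriv_right_of_le (a := 0) (b := 1)
    zero_le_one (fun h hh => (hd h hh.1).continuousAt.continuousWithinAt)
    (fun h hh => (hd h hh.1.le).hasDerivWithinAt)
    ((intervalIntegrable_iff_integrableOn_Icc_of_le zero_le_one).1 hI)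
    (fun h hh => by
      have u1 := hU t (1 + h) t1 (by linarith [hh.1]) (by linarith [hh.2]) (by linarith [hh.1])
      have u2 : Real.log t ^ (2 - 2 * (1 + h)) = Real.exp (-(l * h)) := by
        rw [Real.rpow_def_of_pos L0, hl]
        congr 1
        ring
      have u3 := (abs_le.1 (abs_re_le_norm
        (logDeriv riemannZeta (((1 + h : ℝ) : ℂ) + t * I)))).1
      have u4 : ((1 + h) * Real.exp (-(l * h)) - 1) / (1 - (1 + h)) =
          (1 - (1 + h) * Real.exp (-(l * h))) / h := by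
        have : h ≠ 0 := hh.1.ne'
        rw [show 1 - (1 + h) = -h by ring]
        field_simp
        ring
      rw [u2, u4] at u1
      linarith)
  have k1 : Real.log ‖riemannZeta (((1 + 1 : ℝ) : ℂ) + t * I)‖ ≤
      Real.log ‖riemannZeta₁ (((1 + 1 : ℝ) : ℂ) + (0 : ℝ) * I)‖ :=
    Real.log_le_log (norm_pos_iff.2 (zeta_ne hRH (hre 1 t zero_le_one) (hne 1))) (two_CorD t)
  have k2 : Real.log ‖riemannZeta₁ (((1 + 0 : ℝ) : ℂ) + (0 : ℝ) * I)‖ = 0 := by simp
  have k3 : ((1 + 0 : ℝ) : ℂ) + t * I = 1 + t * I := by simp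
  have k4 : 0 ≤ e / l * Real.exp (-(l * 1)) := by positivity
  have k5 : 0 < ‖riemannZeta (1 + t * I)‖ := by
    rw [← k3]
    exact norm_pos_iff.2 (zeta_ne hRH (hre 0 t le_rfl) (hne 0))
  simp only [k2, k3, mul_zero, neg_zero, Real.exp_zero] at key
  have k6 : Real.log ‖riemannZeta (1 + t * I)‖ ≤
      Real.eulerMascheroniConstant + (Real.log l + -((1 - 2 * e) / l)) := by
    have e3 : (1 - 2 * e) / l = (1 - e) / l - e / l := by ring
    have e4 := key.trans hE
    rw [e3]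
    generalize Real.log ‖riemannZeta₁ (((1 + 1 : ℝ) : ℂ) + (0 : ℝ) * I)‖ = a at k1 e4
    generalize Real.log ‖riemannZeta (((1 + 1 : ℝ) : ℂ) + t * I)‖ = b at k1 e4
    generalize e / l * Real.exp (-(l * 1)) = c at k4 e4
    linarith
  rw [Real.log_le_iff_le_exp k5, Real.exp_add, Real.exp_add, Real.exp_log l0] at k6
  have k7 := exp_CorD l0 (by linarith : 0 ≤ 1 - 2 * e) (by linarith)
  refine k6.trans ?_
  rw [mul_comm 2 (Real.exp _), mul_assoc]
  exact mul_le_mul_of_nonneg_left (by linarith) (Real.exp_pos _).le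

end Pool.Agent.MP_d232b3_nt.Z

end
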